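import Mathlib
import Pool.Agent.Lib.MP_05cdf2_gt.N6.NSt

/-! MP_05cdf2_gt, stream S (helper3): single arcs and hulls. Definitions.

`Ar A x y`: the chord `{x, y}` is an arc over `A` (ends in `A.P`, not `A`-related, simple modulo the points of level zero, crossed by no other
`A`-class of colour `P`). `Rd A x y u v`: `u`, `v` are above `A`, `A`-related, and no translate of the arc crosses `{u, v}`.
`GH A x y`: the Galois pair of the hull `A ∨ {x, y}`. `El A x y a b`: `{a, b}` is a chord above `A` crossed by the arc and by no other translate.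
`gs x y`: the signed count of the translates of the interval `[x, y)`. -/

set_option autoImplicit false

namespace TorS
open TorM TorG TorL TorN

variable {g : ℕ} [NeZero g]

/-- arcs over `A` -/
structure Ar (A : Hf g) (x y : F g) : Prop where
  px : x ∈ A.E.P
  py : y ∈ A.E.P
  ns : ¬ A.E.S x y
  smp : ∀ k, ph k = 0 → Cr x y (k * x) (k * y) →
    A.E.S x (k * x) ∨ A.E.S x (k * y) ∨ A.E.S y (k * x) ∨ A.E.S y (k * y)
  cmp : ∀ a b, a ∈ A.E.P → A.E.S a b → Cr a b x y → A.E.S a x ∨ A.E.S a y

/-- the dual relation of the hull -/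
def Rd (A : Hf g) (x y u v : F g) : Prop :=
  u ∉ A.E.P ∧ A.E.S u v ∧ ∀ k, ph k = 0 → ¬ Cr (k * x) (k * y) u v

/-- the low relation of the hull -/
def Rh (A : Hf g) (x y u v : F g) : Prop :=
  u ∈ A.E.P ∧ v ∈ A.E.P ∧ ∀ a b, Rd A x y a b → ¬ Cr a b u v

/-- the Galois pair of the hull -/
def GH (A : Hf g) (x y : F g) (h : Ar A x y) : GP (F g) where
  P := A.E.P
  S u v := Rh A x y u v ∨ Rd A x y u v
  iff u v := by
    constructor
    · rintro (h1 | h1)
      · refine ⟨iff_of_true h1.1 h1.2.1, fun a b hab hc hcr => ?_⟩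
        rcases hab with h2 | h2
        · exact (hc.1 h2.1) h1.1
        · exact h1.2.2 a b h2 hcr
      · refine ⟨(A.E.col h1.2.1), fun a b hab hc hcr => ?_⟩
        rcases hab with h2 | h2
        · exact h2.2.2 u v h1 (cr_comm.1 hcr)
        · exact h1.1 (by
            by_contra h3
            exact h2.1 (hc.2 h3))
    · rintro ⟨h1, h2⟩
      by_cases hu : u ∈ A.E.P
      · left
        refine ⟨hu, h1.1 hu, fun a b hab hcr => h2 a b (Or.inr hab) ?_ hcr⟩
        exact iff_of_false hab.1 (fun h3 => h3 hu)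
      · right
        have hv : v ∉ A.E.P := fun h3 => hu (h1.2 h3)
        have low : ∀ a b, a ∈ A.E.P → b ∈ A.E.P → (∀ c d, Rd A x y c d → ¬ Cr c d a b) → ¬ Cr a b u v :=
          fun a b ha hb hab => h2 a b (Or.inl ⟨ha, hb, hab⟩) (iff_of_true ha hu)
        refine ⟨hu, ?_, fun k hk => ?_⟩
        · rw [A.E.iff]
          refine ⟨h1, fun a b hab hc => ?_⟩
          have ha : a ∈ A.E.P := hc.2 hu
          have hb : b ∈ A.E.P := (A.E.col hab).1 ha
          exact low a b ha hb fun c d hcd hcr =>
            A.E.not_cross hab hcd.2.1 (iff_of_false hcd.1 (fun h3 => h3 ha)) hcr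
        · refine low _ _ ((A.kg.P_mul hk).2 h.px) ((A.kg.P_mul hk).2 h.py) fun c d hcd hcr => ?_
          exact hcd.2.2 k hk (cr_comm.1 hcr)

/-- elementary dual chords -/
structure El (A : Hf g) (x y a b : F g) : Prop where
  na : a ∉ A.E.P
  ab : A.E.S a b
  cr : Cr x y a b
  one : ∀ k, ph k = 0 → Cr (k * x) (k * y) a b → k = 1

open Classical in
/-- the indicator function of `[x, y)` -/
noncomputable def iv (x y z : F g) : ℚ := if x⁻¹ * z < x⁻¹ * y then 1 else 0

/-- the signed count of the translates of the interval `[x, y)` -/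
noncomputable def gs (x y : F g) : F g → F g → ℚ := un (iv x y)

end TorS
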