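import Mathlib
import Pool.Agent.Lib.MP_05cdf2_gt.S.Def

/-! MP_05cdf2_gt, stream S, job Quad: chords and sides.

`cr_side`: `p ≠ q`, `a`, `b` not in `{p, q}`: `Cr p q a b` iff exactly one of `Cyc p a q`, `Cyc p b q` holds (by definition
`Cr p q a b = (Cyc p a q ∧ Cyc q b p) ∨ (Cyc p b q ∧ Cyc q a p)`, and for `a ∉ {p, q}` exactly one of `Cyc p a q`, `Cyc q a p` holds; unfold `Cyc`,
`Cr` and use the trichotomy of the linear order; see L/Cr.lean for the style (`rcases lt_trichotomy`, `order`, `grind`)).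
`cr_quad`: two chords `(p, q)`, `(u, v)` and a point in each of the four quadrants (`a` (+,+), `b` (-,+), `c` (+,-), `d` (-,-), first sign = side of
`(p, q)`, second sign = side of `(u, v)`): then the chords cross. Proof: otherwise one CLOSED side of `(p, q)` contains both `u` and `v`, say the
side of `a`, `c` (the other case is symmetric). The open other side contains `b` and `d` and is an interval without `u`, `v`, so `(u, v)` does not
separate `b` from `d`, a contradiction with `Cr u v b d`. (Use `cr_side`; or the lemmas `cr_tri`, `cr_sep`, `cr_move`, `cr_same` of L/Cr.lean: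
if `u ∉ {p, q}`, `v ∉ {p, q}` and `¬ Cr p q u v` then `u`, `v` are on the same side; if `u = p` etc. argue directly.)
`cr_quad'`: the same in the form needed later: only three of the four facts for each chord are given.
`cr_arc`: a chord `(u, v)`, three points `a`, `x`, `y`; if `x`, `y` are on the same side of `(u, v)` and `b` is not on this side, then `(x, y)` does
not separate `b` from `u` (the points `u`, `b` are in the closed other side, which is contained in one side of `(x, y)`). -/

set_option autoImplicit false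

namespace TorS
open TorM TorL

variable {α : Type} [LinearOrder α]

theorem cr_side {p q a b : α} (hpq : p ≠ q) (h1 : a ≠ p) (h2 : a ≠ q) (h3 : b ≠ p) (h4 : b ≠ q) :
    Cr p q a b ↔ ¬ (Cyc p a q ↔ Cyc p b q) := by
  unfold Cr Cyc
  rcases lt_trichotomy p q with h | h | h
  · rcases lt_trichotomy a p with h5 | h5 | h5
    · rcases lt_trichotomy b p with h6 | h6 | h6
      · grind
      · exact absurd h6 h3
      · grind
    · exact absurd h5 h1
    · grind
  · exact absurd h hpq
  · grind

private theorem quad_sep {u v p q c d : α} (h1 : p = u ∨ p = v ∨ Cr u v p c) (h2 : q = u ∨ q = v ∨ Cr u v q c)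
    (h3 : ¬ Cr u v c d) (h4 : u ≠ d) (h5 : v ≠ d) : ¬ Cr p q c d := by
  intro h
  have n := cr_ne h
  rcases h1 with rfl | rfl | h1
  · rcases h2 with rfl | rfl | h2
    · exact n.1 rfl
    · exact h3 h
    · have h6 := cr_move' h2 h4 h5 h3
      unfold Cr Cyc at h2 h h6
      grind
  · rcases h2 with rfl | rfl | h2
    · exact h3 (cr_comm.1 (cr_swap2.1 (cr_comm.1 h)))
    · exact n.1 rfl
    · have h6 := cr_move' h2 h4 h5 h3
      unfold Cr Cyc at h2 h h6
      grind
  · have h6 := cr_move' h1 h4 h5 h3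
    rcases h2 with rfl | rfl | h2
    · unfold Cr Cyc at h1 h h6
      grind
    · unfold Cr Cyc at h1 h h6
      grind
    · have h7 := cr_move' h2 h4 h5 h3
      exact cr_sep h1 h2 h6 h7 h

private theorem quad_aux {p q u v a b c d : α} (h1 : Cr p q a b) (h2 : Cr p q c d)
    (k1 : Cr u v a c) (k2 : ¬ Cr u v a b) (k3 : ¬ Cr u v c d) (hb1 : u ≠ b) (hb2 : v ≠ b) (hd1 : u ≠ d) (hd2 : v ≠ d) :
    Cr p q u v := by
  by_contra hn
  have hn' : ¬ Cr u v p q := fun h => hn (cr_comm.1 h)
  by_cases e1 : p = u ∨ p = v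
  · by_cases e2 : q = u ∨ q = v
    · exact quad_sep (by tauto) (by tauto) k3 hd1 hd2 h2
    · push Not at e2
      rcases cr_tri k1 e2.1.symm e2.2.symm with h | h
      · exact quad_sep (c := a) (d := b) (by tauto) (Or.inr (Or.inr (cr_swap2.1 h))) k2 hb1 hb2 h1
      · exact quad_sep (by tauto) (Or.inr (Or.inr h)) k3 hd1 hd2 h2
  · push Not at e1
    rcases cr_tri k1 e1.1.symm e1.2.symm with h | h
    · refine quad_sep (c := a) (d := b) (Or.inr (Or.inr (cr_swap2.1 h))) ?_ k2 hb1 hb2 h1
      by_cases e2 : q = u ∨ q = v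
      · tauto
      · push Not at e2
        exact Or.inr (Or.inr (cr_swap2.1 (cr_move' h e2.1.symm e2.2.symm hn')))
    · refine quad_sep (Or.inr (Or.inr h)) ?_ k3 hd1 hd2 h2
      by_cases e2 : q = u ∨ q = v
      · tauto
      · push Not at e2
        exact Or.inr (Or.inr (cr_move h e2.1.symm e2.2.symm hn'))

theorem cr_quad {p q u v a b c d : α} (h1 : Cr p q a b) (h2 : Cr p q a d) (h3 : Cr p q c b) (h4 : Cr p q c d)
    (k1 : Cr u v a c) (k2 : Cr u v a d) (k3 : Cr u v b c) (k4 : Cr u v b d) : Cr p q u v := by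
  have n1 := cr_ne k3
  have n2 := cr_ne k2
  exact quad_aux h1 h4 k1 (cr_opp (cr_swap2.1 k1) (cr_swap2.1 k3)) (cr_opp k1 k2) n1.2.1 n1.2.2.2.1
    n2.2.2.1 n2.2.2.2.2.1

/-- `a`, `b` are separated by `(p, q)` and on the same side of `(u, v)`; `c`, `d` as well, on the other side of `(u, v)` -/
theorem cr_quad' {p q u v a b c d : α} (h1 : Cr p q a b) (h2 : Cr p q c d)
    (k1 : Cr u v a c) (k2 : ¬ Cr u v a b) (k3 : ¬ Cr u v c d) (hb1 : u ≠ b) (hb2 : v ≠ b) (hd1 : u ≠ d) (hd2 : v ≠ d) :
    Cr p q u v :=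
  quad_aux h1 h2 k1 k2 k3 hb1 hb2 hd1 hd2

theorem cr_arc {u v x y b : α} (hu1 : u ≠ x) (hu2 : u ≠ y) (hv1 : v ≠ x) (hv2 : v ≠ y) (hxy : ¬ Cr u v x y)
    (hb : Cr u v b x) : ¬ Cr x y b u := by
  intro h
  unfold Cr Cyc at *
  grind

end TorS
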