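import Mathlib
import Pool.Agent.Lib.MP_05cdf2_gt.S.Quad

/-! MP_05cdf2_gt, stream S, job One: an arc crosses only one class above `A`.

`ar_K`: translates of arcs are arcs (`A.kg.P_mul`, `A.kg.S_mul`, `cr_mul`; for `smp` of `(h x, h y)` use `k' = h⁻¹ k h`: `k h x = h (h⁻¹ k h) x`).
`one_class`: let `a`, `z` be above `A`, `a ~ b`, `z ~ w` (all `~` w.r.t. `A`), both chords cross `{x, y}`, and suppose `a`, `z` are not related. By the
definition of Galois pairs (`A.E.iff a z`) there is a chord `p ~ q` below `A` (`p, q ∈ A.P`) with `Cr p q a z`. It crosses neither `{a, b}` nor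
`{z, w}` (`GP.not_cross`), hence `a`, `b` are on one side and `z`, `w` on the other side of `(p, q)`. Since `Cr a b x y` and `Cr z w x y`, the points
`x`, `y` can not both be in the closed side of `(p, q)` containing `a`, `b` (then `{x, y}` would not separate `z` from `w`), nor in the other closed side.
So `Cr p q x y` (note `x`, `y` may be equal to `p` or `q`: if `x = p`, then `x ~ p`; treat this case as the case `p ~ x` below). By `cmp` we have `p ~ x`
or `p ~ y`; say `p ~ x` (the case `y` is symmetric, `Cr a b y x`). The chords `{a, b}` and `{z, w}` do not cross the chords of the class of `x`, so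
`p`, `q`, `x` are on the same side of `{a, b}`, and `y` on the other side; the same for `{z, w}`. Now `(p, q)` separates `{a, b}` from `{z, w}`; the side of
`(a, b)` containing `y` does not contain `p`, `q`, so it lies in the side of `(p, q)` containing `a`: `y` is on the side of `a`, `b` of `(p, q)` (`cr_arc`-like
argument). In the same way `y` is on the side of `z`, `w`. Contradiction.
`k_class`: `Cr u v (k x) (k y)`, `Cr a b x y` => `Cr (k a) (k b) (k x) (k y)`; use `one_class` for the arc `(k x, k y)` (`ar_K`). -/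

set_option autoImplicit false

namespace TorS
open TorM TorG TorL TorN

variable {g : ℕ} [NeZero g] {A : Hf g} {x y : F g}

theorem ar_K (h : Ar A x y) {k : F g} (hk : ph k = 0) : Ar A (k * x) (k * y) := by
  have hki : ph k⁻¹ = 0 := by rw [ph_inv, hk, neg_zero]
  refine ⟨(A.kg.P_mul hk).2 h.px, (A.kg.P_mul hk).2 h.py, fun hh => h.ns ((A.kg.S_mul hk).1 hh), ?_, ?_⟩
  · intro l hl hcr
    have e1 : l * (k * x) = k * ((k⁻¹ * l * k) * x) := by group
    have e2 : l * (k * y) = k * ((k⁻¹ * l * k) * y) := by group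
    rw [e1, e2, cr_mul] at hcr
    rw [e1, e2]
    have h1 := h.smp (k⁻¹ * l * k) (by
      rw [ph_mul, ph_mul, ph_inv, hk, hl]
      ring) hcr
    rw [A.kg.S_mul hk, A.kg.S_mul hk, A.kg.S_mul hk, A.kg.S_mul hk]
    exact h1
  · intro a b ha hab hcr
    have e1 : k * (k⁻¹ * a) = a := by group
    have e2 : k * (k⁻¹ * b) = b := by group
    have hcr' : Cr (k⁻¹ * a) (k⁻¹ * b) x y := by
      rw [← cr_mul k, e1, e2]
      exact hcr
    have h1 := h.cmp (k⁻¹ * a) (k⁻¹ * b) ((A.kg.P_mul hki).2 ha) ((A.kg.S_mul hki).2 hab) hcr'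
    rcases h1 with h1 | h1
    · left
      have h2 := (A.kg.S_mul hk).2 h1
      rwa [e1] at h2
    · right
      have h2 := (A.kg.S_mul hk).2 h1
      rwa [e1] at h2

theorem ar_symm (h : Ar A x y) : Ar A y x := by
  refine ⟨h.py, h.px, fun hh => h.ns (GP.symm hh), ?_, ?_⟩
  · intro k hk hcr
    have h1 := h.smp k hk (cr_swap1.1 (cr_swap2.1 hcr))
    tauto
  · intro a b ha hab hcr
    exact (h.cmp a b ha hab (cr_swap2.1 hcr)).symm

theorem ar_ne (h : Ar A x y) : x ≠ y := by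
  rintro rfl
  exact h.ns (A.E.refl x)

/-- points of `P` and points above are different -/
private theorem One_ne {c z : F g} (hc : c ∈ A.E.P) (hz : z ∉ A.E.P) : c ≠ z := fun he => hz (he ▸ hc)

private theorem One_aux (h : Ar A x y) {a b z w p q : F g} (ha : a ∉ A.E.P) (hab : A.E.S a b)
    (hz : z ∉ A.E.P) (hzw : A.E.S z w) (h1 : Cr a b x y) (h2 : Cr z w x y) (hp : p ∈ A.E.P)
    (hpq : A.E.S p q) (h3 : Cr p q a z) (hpx : A.E.S p x) : False := by
  have hb : b ∉ A.E.P := fun hh => ha ((GP.col hab).2 hh)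
  have hw : w ∉ A.E.P := fun hh => hz ((GP.col hzw).2 hh)
  have hq : q ∈ A.E.P := (GP.col hpq).1 hp
  have na : ¬ Cr a b x p :=
    GP.not_cross (GP.symm hpx) hab (iff_of_false ha (fun hh => hh h.px))
  have nz : ¬ Cr z w x p :=
    GP.not_cross (GP.symm hpx) hzw (iff_of_false hz (fun hh => hh h.px))
  have ap : Cr a b p y := cr_move h1 (One_ne hp ha).symm (One_ne hp hb).symm na
  have zp : Cr z w p y := cr_move h2 (One_ne hp hz).symm (One_ne hp hw).symm nz
  have npq1 : ¬ Cr p q a b := GP.not_cross hab hpq (iff_of_true hp ha)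
  have npq2 : ¬ Cr p q z w := GP.not_cross hzw hpq (iff_of_true hp hz)
  have nq : ¬ Cr a b p q := fun hh => npq1 (cr_comm.1 hh)
  have aq : Cr a b q y := cr_move ap (One_ne hq ha).symm (One_ne hq hb).symm nq
  have hpy : p ≠ y := (cr_ne ap).2.2.2.2.2
  have hqy : q ≠ y := (cr_ne aq).2.2.2.2.2
  rcases cr_tri h3 hpy hqy with h4 | h4
  · have h5 : Cr p q b y := cr_move h4 (One_ne hp hb) (One_ne hq hb) npq1
    exact cr_same h4 h5 (cr_swap2.1 ap)
  · have h5 : Cr p q z y := cr_swap2.1 h4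
    have h6 : Cr p q w y := cr_move h5 (One_ne hp hw) (One_ne hq hw) npq2
    exact cr_same h5 h6 (cr_swap2.1 zp)

theorem one_class (h : Ar A x y) {a b z w : F g} (ha : a ∉ A.E.P) (hab : A.E.S a b) (hz : z ∉ A.E.P)
    (hzw : A.E.S z w) (h1 : Cr a b x y) (h2 : Cr z w x y) : A.E.S a z := by
  by_contra hcon
  rw [A.E.iff] at hcon
  have hcon2 : ¬ ∀ p q, A.E.S p q → (p ∈ A.E.P ↔ a ∉ A.E.P) → ¬ Cr p q a z := fun hh =>
    hcon ⟨iff_of_false ha hz, hh⟩
  push Not at hcon2
  obtain ⟨p, q, hpq, hpc, h3⟩ := hcon2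
  have hp : p ∈ A.E.P := hpc.2 ha
  have hq : q ∈ A.E.P := (GP.col hpq).1 hp
  have hb : b ∉ A.E.P := fun hh => ha ((GP.col hab).2 hh)
  have hw : w ∉ A.E.P := fun hh => hz ((GP.col hzw).2 hh)
  have npq1 : ¬ Cr p q a b := GP.not_cross hab hpq (iff_of_true hp ha)
  have npq2 : ¬ Cr p q z w := GP.not_cross hzw hpq (iff_of_true hp hz)
  have key : A.E.S p x ∨ A.E.S p y := by
    by_cases e1 : p = x
    · left
      rw [e1]
      exact GP.refl x
    by_cases e2 : q = x
    · left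
      rw [← e2]
      exact hpq
    by_cases e3 : p = y
    · right
      rw [e3]
      exact GP.refl y
    by_cases e4 : q = y
    · right
      rw [← e4]
      exact hpq
    have h4 : Cr p q b z := cr_move h3 (One_ne hp hb) (One_ne hq hb) npq1
    have h5 : Cr p q a w := cr_move' h3 (One_ne hp hw) (One_ne hq hw) npq2
    exact h.cmp p q hp hpq (cr_between h1 h2 h3 h4 h5 e1 e2 e3 e4)
  rcases key with k1 | k1
  · exact One_aux h ha hab hz hzw h1 h2 hp hpq h3 k1
  · exact One_aux (ar_symm h) ha hab hz hzw (cr_swap2.1 h1) (cr_swap2.1 h2) hp hpq h3 k1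

theorem k_class (h : Ar A x y) {a b u v k : F g} (ha : a ∉ A.E.P) (hab : A.E.S a b) (h1 : Cr a b x y) (hk : ph k = 0)
    (hu : u ∉ A.E.P) (huv : A.E.S u v) (h2 : Cr u v (k * x) (k * y)) : A.E.S (k * a) u := by
  refine one_class (ar_K h hk) (a := k * a) (b := k * b) (fun hh => ha ((A.kg.P_mul hk).1 hh))
    ((A.kg.S_mul hk).2 hab) hu huv ((cr_mul k a b x y).2 h1) h2

/-- ends of two arcs which are related below `A` -/
private theorem One_nst {p q p' q' u v a b : F g} (hp : p ∈ A.E.P) (hp' : p' ∈ A.E.P) (hq' : q' ∈ A.E.P)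
    (hu : u ∉ A.E.P) (huv : A.E.S u v) (hua : A.E.S u a) (hub : A.E.S u b) (h1 : Cr p q u v) (h2 : Cr p q a b)
    (k1 : Cr p' q' u a) (k2 : ¬ Cr p' q' u v) (k3 : ¬ Cr p' q' a b) (hpp : A.E.S p p') : False := by
  have hv : v ∉ A.E.P := fun hh => hu ((GP.col huv).2 hh)
  have ha : a ∉ A.E.P := fun hh => hu ((GP.col hua).2 hh)
  have hb : b ∉ A.E.P := fun hh => hu ((GP.col hub).2 hh)
  have hab : A.E.S a b := GP.trans (GP.symm hua) hub
  have n1 : ¬ Cr u v p p' := GP.not_cross hpp huv (iff_of_false hu (fun hh => hh hp))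
  have n2 : ¬ Cr a b p p' := GP.not_cross hpp hab (iff_of_false ha (fun hh => hh hp))
  have c1 : Cr u v p' q := cr_move (cr_comm.1 h1) (One_ne hp' hu).symm (One_ne hp' hv).symm n1
  have c2 : Cr a b p' q := cr_move (cr_comm.1 h2) (One_ne hp' ha).symm (One_ne hp' hb).symm n2
  have c3 := cr_quad' (cr_comm.1 c1) (cr_comm.1 c2) k1 k2 k3 (One_ne hp' hv) (One_ne hq' hv) (One_ne hp' hb)
    (One_ne hq' hb)
  exact (cr_ne c3).2.1 rfl

/-- the bipartitions of one class above `A` by two translates are nested -/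
theorem nst_cut (h : Ar A x y) {k k' : F g} (hk : ph k = 0) (hk' : ph k' = 0) {u v a b : F g} (hu : u ∉ A.E.P)
    (huv : A.E.S u v) (hua : A.E.S u a) (hub : A.E.S u b) (h1 : Cr (k * x) (k * y) u v)
    (h2 : Cr (k * x) (k * y) a b) (_h3 : ¬ Cr (k * x) (k * y) u a) (k1 : Cr (k' * x) (k' * y) u a)
    (k2 : ¬ Cr (k' * x) (k' * y) u v) (k3 : ¬ Cr (k' * x) (k' * y) a b) : False := by
  have hv : v ∉ A.E.P := fun hh => hu ((GP.col huv).2 hh)
  have hb : b ∉ A.E.P := fun hh => hu ((GP.col hub).2 hh)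
  have p1 := (A.kg.P_mul hk).2 h.px
  have p2 := (A.kg.P_mul hk).2 h.py
  have p3 := (A.kg.P_mul hk').2 h.px
  have p4 := (A.kg.P_mul hk').2 h.py
  have hc : Cr (k * x) (k * y) (k' * x) (k' * y) := cr_quad' h1 h2 k1 k2 k3 (One_ne p3 hv) (One_ne p4 hv)
    (One_ne p3 hb) (One_ne p4 hb)
  have e : ∀ z : F g, k' * z = k * (k⁻¹ * k' * z) := fun z => by group
  have hs : A.E.S (k * x) (k' * x) ∨ A.E.S (k * x) (k' * y) ∨ A.E.S (k * y) (k' * x) ∨ A.E.S (k * y) (k' * y) := by
    rw [e x, e y] at hc ⊢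
    rw [cr_mul] at hc
    rw [A.kg.S_mul hk, A.kg.S_mul hk, A.kg.S_mul hk, A.kg.S_mul hk]
    exact h.smp _ (by rw [ph_mul, ph_inv, hk, hk']; rfl) hc
  rcases hs with hs | hs | hs | hs
  · exact One_nst p1 p3 p4 hu huv hua hub h1 h2 k1 k2 k3 hs
  · exact One_nst p1 p4 p3 hu huv hua hub h1 h2 (cr_swap1.1 k1) (fun hh => k2 (cr_swap1.1 hh))
      (fun hh => k3 (cr_swap1.1 hh)) hs
  · exact One_nst p2 p3 p4 hu huv hua hub (cr_swap1.1 h1) (cr_swap1.1 h2) k1 k2 k3 hs
  · exact One_nst p2 p4 p3 hu huv hua hub (cr_swap1.1 h1) (cr_swap1.1 h2) (cr_swap1.1 k1)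
      (fun hh => k2 (cr_swap1.1 hh)) (fun hh => k3 (cr_swap1.1 hh)) hs

end TorS
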