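import Mathlib
import Pool.Agent.Lib.MP_05cdf2_gt.S.One

/-! MP_05cdf2_gt, stream S, job Gen: the relation above `A` is generated by the relation above the hull and one elementary dual chord.

Write `~` for `A.E.S`. For `u ~ v` above `A` let `T(u,v) = {k : ph k = 0, Cr (k x) (k y) u v}`: finite (`tfin`: `cr_finite u v (x⁻¹ * y)` says that the set of `z` with
`Cr u v z (z * (x⁻¹ * y))` is finite; `z = k x`; `cr_comm`).
Points above `A` are different from the points `k x`, `k y` (`k x ∈ A.P`).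
`rd_iff`: `Rd u v` iff `u ∉ A.P`, `u ~ v`, `T(u,v)` empty: definition. `rd_symm`, `rd_trans`: `GH A x y h` is a Galois pair whose relation is `Rd` above `A`
(`GP.symm`, `GP.trans` for `GH A x y h`), or directly (`cr_tri`).
`tside`: for `k ∈ K` (`K = {ph k = 0}`), `u`, `v`, `w` above `A`: `Cr (k x) (k y) u w` iff exactly one of `Cr (k x) (k y) u v`, `Cr (k x) (k y) v w` holds (`cr_side`).
`jstep`: `T(u,v)` is nonempty and finite. For `k ∈ T(u,v)` let `N(k)` be the number of `k' ∈ T(u,v)` such that `k' x, k' y` ... simpler: choose `k ∈ T(u,v)` such that the set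
`T(u, k a') ∩ T(u,v)` is minimal, or directly: let `k` be the element of `T(u,v)` closest to `u`: for `k ∈ T(u,v)` let `k a`, `k b` be the ends of the translated dual chord; exactly
one of them, call it `a_k`, is on the side of `u` of `(k x, k y)` and the other, `b_k`, is on the side of `v` (`El.cr` translated by `k`). By `k_class` (`he.na`, `he.ab`,
`cr_comm he.cr`) all of `k a`, `k b`, `u`, `v` are related. By `El.one` translated, the only translate crossing `{k a, k b}` is `k`.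
 Claim: `T(u, a_k)` is contained in `T(u,v) \ {k}`, for every `k ∈ T(u,v)`. Let `k' ∈ T(u,a_k)`; `k' ≠ k` because `a_k` is on the side of `u` of `k`. `k'` does not separate `a_k`, `b_k`. If `k'` does
 not separate `u`, `v` then `(k'x, k'y)` has `u`, `v` on one side and `a_k`, `b_k` on the other side, while `(k x, k y)` separates `{u, a_k}` from `{v, b_k}`: by `cr_quad'` the chords
 `(k x, k y)`, `(k'x, k'y)` cross, a contradiction to `smp` (translated: `Cr (k x) (k y) (k' x) (k' y)` gives `Cr x y (k⁻¹ k' x) (k⁻¹ k' y)`).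
 Choose `k ∈ T(u,v)` with `T(u, a_k)` of minimal cardinality. Suppose `k' ∈ T(u, a_k)`. Then `k' ∈ T(u,v)`, `k' ≠ k`. Then `T(u, a_k')` is a proper subset of `T(u, a_k)`: let `k'' ∈ T(u, a_k')`; it is in `T(u,v)`,
 `≠ k'`; if it does not separate `u` from `a_k`, then it separates `a_k` from `a_k'` and from `v`, and `u` from `a_k'`; it does not separate `a_k', b_k'`, so it has `{u, a_k}` on one side and
 `{a_k', b_k', v}` on the other; but `k'` separates `u` from `a_k` and `a_k'` from `b_k'`: `cr_quad'` gives `Cr (k' ..) (k'' ..)`, contradiction to `smp`. And `k' ∉ T(u, a_k')`. So the cardinality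
 is smaller, contradiction. Hence `T(u, a_k)` is empty: `Rd u a_k`. Finally `T(b_k, v) = T(u,v) \ {k}`: by `tside`, for `k' ≠ k`: `k'` does not separate `u`, `a_k` nor `a_k`, `b_k`, so it separates `b_k`, `v` iff
 `u`, `v`; and `k` does not separate `b_k`, `v`.
`dual_gen`: induction on the cardinality of `T(u,v)`: if it is empty `Rd u v`; otherwise `u -> a' -> b' ->* v` by `jstep`.
`dual_zero`: by `dual_gen` (additive function: `c u v` is the sum along the path; `c` is zero on each step: on `Rd` pairs by hypothesis, on `(k a, k b)` by invariance and `c a b = 0`, and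
`c (k b) (k a) = - c (k a) (k b)`; `c u u = 0`). -/

set_option autoImplicit false

namespace TorS
open TorM TorG TorL TorN

variable {g : ℕ} [NeZero g] {A : Hf g} {x y : F g}

private theorem Gen_pr1 {P Q R S : Prop} (h2 : ¬ (P ↔ Q)) (h3 : ¬ (R ↔ S)) (h4 : P ↔ R) : Q ↔ S := by
  tauto

private theorem Gen_pr2 {P Q R : Prop} (h2 : ¬ (P ↔ Q)) (h4 : ¬ (P ↔ R)) : Q ↔ R := by
  tauto

private theorem Gen_ne {u p : F g} (hu : u ∉ A.E.P) (hp : p ∈ A.E.P) : u ≠ p := by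
  rintro rfl
  exact hu hp

private theorem Gen_side (h : Ar A x y) {k u v : F g} (hk : ph k = 0) (hu : u ∉ A.E.P) (hv : v ∉ A.E.P) :
    Cr (k * x) (k * y) u v ↔ ¬ (Cyc (k * x) u (k * y) ↔ Cyc (k * x) v (k * y)) := by
  have h1 : k * x ∈ A.E.P := (A.kg.P_mul hk).2 h.px
  have h2 : k * y ∈ A.E.P := (A.kg.P_mul hk).2 h.py
  exact cr_side (ar_ne (ar_K h hk)) (Gen_ne hu h1) (Gen_ne hu h2) (Gen_ne hv h1) (Gen_ne hv h2)

/-- four points of one class in the four quadrants of two translates: impossible -/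
private theorem Gen_quad (h : Ar A x y) {k k' a b c d : F g} (hk : ph k = 0) (hk' : ph k' = 0)
    (ha : a ∉ A.E.P) (hb : b ∉ A.E.P) (hc : c ∉ A.E.P) (hd : d ∉ A.E.P)
    (hab : A.E.S a b) (hac : A.E.S a c) (had : A.E.S a d)
    (h1 : ¬ (Cyc (k * x) a (k * y) ↔ Cyc (k * x) b (k * y)))
    (h2 : Cyc (k * x) a (k * y) ↔ Cyc (k * x) c (k * y))
    (h3 : Cyc (k * x) b (k * y) ↔ Cyc (k * x) d (k * y))
    (h4 : ¬ (Cyc (k' * x) a (k' * y) ↔ Cyc (k' * x) c (k' * y)))
    (h5 : Cyc (k' * x) a (k' * y) ↔ Cyc (k' * x) b (k' * y))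
    (h6 : Cyc (k' * x) c (k' * y) ↔ Cyc (k' * x) d (k' * y)) : False := by
  refine nst_cut h hk hk' ha hab hac had ((Gen_side h hk ha hb).2 h1) ?_ ?_
    ((Gen_side h hk' ha hc).2 h4) ?_ ?_
  · refine (Gen_side h hk hc hd).2 ?_
    rw [← h2, ← h3]
    exact h1
  · exact fun hc1 => (Gen_side h hk ha hc).1 hc1 h2
  · exact fun hc1 => (Gen_side h hk' ha hb).1 hc1 h5
  · exact fun hc1 => (Gen_side h hk' hc hd).1 hc1 h6

private theorem Gen_el {a b : F g} (he : El A x y a b) {k m : F g} (hk : ph k = 0) (hm : ph m = 0)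
    (hc : Cr (k * x) (k * y) (m * a) (m * b)) : k = m := by
  have h1 := (cr_mul m⁻¹ (k * x) (k * y) (m * a) (m * b)).2 hc
  rw [inv_mul_cancel_left, inv_mul_cancel_left, ← mul_assoc, ← mul_assoc] at h1
  have h2 : m⁻¹ * k = 1 := by
    refine he.one (m⁻¹ * k) ?_ h1
    rw [ph_mul, ph_inv, hk, hm]
    rfl
  exact (inv_mul_eq_one.1 h2).symm

/-- the ordered ends of the translate of the dual chord -/
private def Gen_E (x y a b u v k p q : F g) : Prop :=
  ((p = k * a ∧ q = k * b) ∨ (p = k * b ∧ q = k * a)) ∧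
    (Cyc (k * x) p (k * y) ↔ Cyc (k * x) u (k * y)) ∧ (Cyc (k * x) q (k * y) ↔ Cyc (k * x) v (k * y))

private theorem Gen_bP {a b : F g} (he : El A x y a b) : b ∉ A.E.P := fun hb => he.na ((GP.col he.ab).2 hb)

private theorem Gen_mP {a k : F g} (hk : ph k = 0) (ha : a ∉ A.E.P) : k * a ∉ A.E.P :=
  fun h1 => ha ((A.kg.P_mul hk).1 h1)

private theorem Gen_pq {a b : F g} (he : El A x y a b) {k p q : F g} (hk : ph k = 0)
    (h1 : (p = k * a ∧ q = k * b) ∨ (p = k * b ∧ q = k * a)) : p ∉ A.E.P ∧ q ∉ A.E.P := by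
  rcases h1 with ⟨rfl, rfl⟩ | ⟨rfl, rfl⟩
  · exact ⟨Gen_mP hk he.na, Gen_mP hk (Gen_bP he)⟩
  · exact ⟨Gen_mP hk (Gen_bP he), Gen_mP hk he.na⟩

/-- another translate does not separate the ends -/
private theorem Gen_oth (h : Ar A x y) {a b : F g} (he : El A x y a b) {k k' p q : F g} (hk : ph k = 0) (hk' : ph k' = 0)
    (hn : k' ≠ k) (h1 : (p = k * a ∧ q = k * b) ∨ (p = k * b ∧ q = k * a)) :
    Cyc (k' * x) p (k' * y) ↔ Cyc (k' * x) q (k' * y) := by
  by_contra h2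
  have h3 := Gen_pq he hk h1
  have h4 := (Gen_side h hk' h3.1 h3.2).2 h2
  rcases h1 with ⟨rfl, rfl⟩ | ⟨rfl, rfl⟩
  · exact hn (Gen_el he hk' hk h4)
  · exact hn (Gen_el he hk' hk (cr_swap2.1 h4))

private theorem Gen_ex (h : Ar A x y) {a b : F g} (he : El A x y a b) {u v k : F g} (hu : u ∉ A.E.P) (hv : v ∉ A.E.P)
    (hk : ph k = 0) (hc : Cr (k * x) (k * y) u v) : ∃ p q, Gen_E x y a b u v k p q := by
  have h1 : Cr (k * x) (k * y) (k * a) (k * b) := (cr_mul k x y a b).2 he.cr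
  have h2 := (Gen_side h hk (Gen_mP hk he.na) (Gen_mP hk (Gen_bP he))).1 h1
  have h3 := (Gen_side h hk hu hv).1 hc
  by_cases h4 : Cyc (k * x) (k * a) (k * y) ↔ Cyc (k * x) u (k * y)
  · exact ⟨k * a, k * b, Or.inl ⟨rfl, rfl⟩, h4, Gen_pr1 h2 h3 h4⟩
  · exact ⟨k * b, k * a, Or.inr ⟨rfl, rfl⟩, Gen_pr2 h2 h4, Gen_pr2 (fun h5 => h4 h5.symm) h3⟩

private theorem Gen_rel (h : Ar A x y) {a b : F g} (he : El A x y a b) {u v k p q : F g} (hu : u ∉ A.E.P)
    (huv : A.E.S u v) (hk : ph k = 0) (hc : Cr (k * x) (k * y) u v)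
    (e1 : (p = k * a ∧ q = k * b) ∨ (p = k * b ∧ q = k * a)) : A.E.S u p ∧ A.E.S u q := by
  have ka : A.E.S (k * a) u := k_class h he.na he.ab (cr_comm.1 he.cr) hk hu huv (cr_comm.1 hc)
  have kb : A.E.S (k * b) u :=
    k_class h (Gen_bP he) (GP.symm he.ab) (cr_swap1.1 (cr_comm.1 he.cr)) hk hu huv (cr_comm.1 hc)
  rcases e1 with ⟨rfl, rfl⟩ | ⟨rfl, rfl⟩
  · exact ⟨GP.symm ka, GP.symm kb⟩
  · exact ⟨GP.symm kb, GP.symm ka⟩

private theorem Gen_c1 (h : Ar A x y) {a b : F g} (he : El A x y a b) {u v k p q k' : F g} (hu : u ∉ A.E.P)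
    (hv : v ∉ A.E.P) (huv : A.E.S u v) (hk : ph k = 0) (hc : Cr (k * x) (k * y) u v) (hE : Gen_E x y a b u v k p q)
    (hk' : ph k' = 0) (hc' : Cr (k' * x) (k' * y) u p) : Cr (k' * x) (k' * y) u v ∧ k' ≠ k := by
  obtain ⟨e1, e2, e3⟩ := hE
  have h3 := Gen_pq he hk e1
  have hn : k' ≠ k := by
    rintro rfl
    exact (Gen_side h hk hu h3.1).1 hc' e2.symm
  refine ⟨?_, hn⟩
  by_contra h4
  have h5 : Cyc (k' * x) u (k' * y) ↔ Cyc (k' * x) v (k' * y) := by
    by_contra h6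
    exact h4 ((Gen_side h hk' hu hv).2 h6)
  have hr := Gen_rel h he hu huv hk hc e1
  exact Gen_quad h hk hk' hu hv h3.1 h3.2 huv hr.1 hr.2 ((Gen_side h hk hu hv).1 hc) e2.symm e3.symm
    ((Gen_side h hk' hu h3.1).1 hc') h5 (Gen_oth h he hk hk' hn e1)

private theorem Gen_c2 (h : Ar A x y) {a b : F g} (he : El A x y a b) {u v k p q k' p' q' k'' : F g} (hu : u ∉ A.E.P)
    (hv : v ∉ A.E.P) (huv : A.E.S u v) (hk : ph k = 0) (hc : Cr (k * x) (k * y) u v) (hE : Gen_E x y a b u v k p q)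
    (hk' : ph k' = 0) (hc' : Cr (k' * x) (k' * y) u p) (hcv : Cr (k' * x) (k' * y) u v)
    (hE' : Gen_E x y a b u v k' p' q')
    (hk'' : ph k'' = 0) (hc'' : Cr (k'' * x) (k'' * y) u p') : Cr (k'' * x) (k'' * y) u p := by
  have h0 := Gen_c1 h he hu hv huv hk' hcv hE' hk'' hc''
  obtain ⟨e1, e2, e3⟩ := hE
  obtain ⟨f1, f2, f3⟩ := hE'
  have h3 := Gen_pq he hk e1
  have h3' := Gen_pq he hk' f1
  by_contra h4
  have h5 : Cyc (k'' * x) u (k'' * y) ↔ Cyc (k'' * x) p (k'' * y) := by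
    by_contra h6
    exact h4 ((Gen_side h hk'' hu h3.1).2 h6)
  have h7 := (Gen_side h hk' hu h3.1).1 hc'
  have h8 := (Gen_side h hk' hu hv).1 hcv
  have hr := Gen_rel h he hu huv hk hc e1
  have hr' := Gen_rel h he hu huv hk' hcv f1
  exact Gen_quad h hk' hk'' hu h3.1 h3'.1 h3'.2 hr.1 hr'.1 hr'.2 h7 f2.symm ((Gen_pr2 h7 h8).trans f3.symm)
    ((Gen_side h hk'' hu h3'.1).1 hc'') h5 (Gen_oth h he hk' hk'' h0.2 f1)

theorem tfin (x y u v : F g) : {k : F g | ph k = 0 ∧ Cr (k * x) (k * y) u v}.Finite := by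
  refine Set.Finite.subset ((cr_finite u v (x⁻¹ * y)).preimage (f := fun k : F g => k * x) ?_) ?_
  · intro k1 _ k2 _ h12
    exact mul_right_cancel h12
  · rintro k ⟨_, hk⟩
    show Cr u v (k * x) (k * x * (x⁻¹ * y))
    rw [mul_assoc, mul_inv_cancel_left]
    exact cr_comm.1 hk

theorem rd_refl {u : F g} (hu : u ∉ A.E.P) : Rd A x y u u := by
  refine ⟨hu, GP.refl u, fun k _ hc => ?_⟩
  exact not_cr_same (cr_comm.1 hc)

theorem rd_symm {u v : F g} (h : Rd A x y u v) : Rd A x y v u := by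
  refine ⟨fun hv => h.1 ((GP.col h.2.1).2 hv), GP.symm h.2.1, fun k hk hc => ?_⟩
  exact h.2.2 k hk (cr_swap2.1 hc)

theorem rd_trans {u v w : F g} (h : Ar A x y) (h1 : Rd A x y u v) (h2 : Rd A x y v w) : Rd A x y u w := by
  refine ⟨h1.1, GP.trans h1.2.1 h2.2.1, fun k hk hc => ?_⟩
  have hx : k * x ≠ v := (Gen_ne h2.1 ((A.kg.P_mul hk).2 h.px)).symm
  have hy : k * y ≠ v := (Gen_ne h2.1 ((A.kg.P_mul hk).2 h.py)).symm
  rcases cr_tri hc hx hy with h3 | h3
  · exact h1.2.2 k hk h3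
  · exact h2.2.2 k hk h3

private theorem Gen_min (h : Ar A x y) {a b : F g} (he : El A x y a b) {u v : F g} (hu : u ∉ A.E.P)
    (hv : v ∉ A.E.P) (huv : A.E.S u v) (n : ℕ) : ∀ k p q : F g, ph k = 0 → Cr (k * x) (k * y) u v → Gen_E x y a b u v k p q →
      {k' : F g | ph k' = 0 ∧ Cr (k' * x) (k' * y) u p}.ncard = n →
      ∃ k p q : F g, ph k = 0 ∧ Cr (k * x) (k * y) u v ∧ Gen_E x y a b u v k p q ∧
        ∀ k', ph k' = 0 → ¬ Cr (k' * x) (k' * y) u p := by
  induction n using Nat.strong_induction_on with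
  | _ n ih =>
    intro k p q hk hc hE hn
    by_cases h1 : ∀ k', ph k' = 0 → ¬ Cr (k' * x) (k' * y) u p
    · exact ⟨k, p, q, hk, hc, hE, h1⟩
    · push Not at h1
      obtain ⟨k', hk', hc'⟩ := h1
      have h2 := Gen_c1 h he hu hv huv hk hc hE hk' hc'
      obtain ⟨p', q', hE'⟩ := Gen_ex h he hu hv hk' h2.1
      have h3 : {k'' : F g | ph k'' = 0 ∧ Cr (k'' * x) (k'' * y) u p'} ⊂
          {k'' : F g | ph k'' = 0 ∧ Cr (k'' * x) (k'' * y) u p} := by
        rw [Set.ssubset_iff_of_subset]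
        · refine ⟨k', ⟨hk', hc'⟩, fun h4 => ?_⟩
          exact (Gen_c1 h he hu hv huv hk' h2.1 hE' hk' h4.2).2 rfl
        · rintro k'' ⟨hk'', hc''⟩
          exact ⟨hk'', Gen_c2 h he hu hv huv hk hc hE hk' hc' h2.1 hE' hk'' hc''⟩
      have h4 := Set.ncard_lt_ncard h3 (tfin x y u p)
      rw [hn] at h4
      exact ih _ h4 k' p' q' hk' h2.1 hE' rfl

theorem jstep (h : Ar A x y) {a b : F g} (he : El A x y a b) {u v : F g} (hu : u ∉ A.E.P) (huv : A.E.S u v)
    (hn : ∃ k, ph k = 0 ∧ Cr (k * x) (k * y) u v) :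
    ∃ k a' b', ph k = 0 ∧ Cr (k * x) (k * y) u v ∧ ((a' = k * a ∧ b' = k * b) ∨ (a' = k * b ∧ b' = k * a)) ∧
      Rd A x y u a' ∧ b' ∉ A.E.P ∧ A.E.S b' v ∧
      ∀ k', ph k' = 0 → (Cr (k' * x) (k' * y) b' v ↔ Cr (k' * x) (k' * y) u v ∧ k' ≠ k) := by
  have hv : v ∉ A.E.P := fun h1 => hu ((GP.col huv).2 h1)
  obtain ⟨k0, hk0, hc0⟩ := hn
  obtain ⟨p0, q0, hE0⟩ := Gen_ex h he hu hv hk0 hc0
  obtain ⟨k, p, q, hk, hc, hE, hmin⟩ := Gen_min h he hu hv huv _ k0 p0 q0 hk0 hc0 hE0 rfl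
  obtain ⟨e1, e2, e3⟩ := hE
  have h3 := Gen_pq he hk e1
  have hpq := Gen_rel h he hu huv hk hc e1
  refine ⟨k, p, q, hk, hc, e1, ⟨hu, hpq.1, hmin⟩, h3.2, GP.trans (GP.symm hpq.2) huv, fun k' hk' => ?_⟩
  by_cases hkk : k' = k
  · subst hkk
    constructor
    · intro h4
      exact absurd e3 ((Gen_side h hk h3.2 hv).1 h4)
    · rintro ⟨_, h4⟩
      exact absurd rfl h4
  · have h5 := Gen_oth h he hk hk' hkk e1
    have h6 : Cyc (k' * x) u (k' * y) ↔ Cyc (k' * x) p (k' * y) := by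
      by_contra h7
      exact hmin k' hk' ((Gen_side h hk' hu h3.1).2 h7)
    rw [Gen_side h hk' h3.2 hv, Gen_side h hk' hu hv, ← h5, ← h6]
    exact ⟨fun h7 => ⟨h7, hkk⟩, fun h7 => h7.1⟩

/-- one step above `A` -/
def Ds (A : Hf g) (x y a b p q : F g) : Prop :=
  Rd A x y p q ∨ ∃ k, ph k = 0 ∧ ((p = k * a ∧ q = k * b) ∨ (p = k * b ∧ q = k * a))

theorem dual_gen (h : Ar A x y) {a b : F g} (he : El A x y a b) {u v : F g} (hu : u ∉ A.E.P) (huv : A.E.S u v) :
    Relation.ReflTransGen (Ds A x y a b) u v := by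
  have key : ∀ n : ℕ, ∀ u : F g, u ∉ A.E.P → A.E.S u v →
      {k : F g | ph k = 0 ∧ Cr (k * x) (k * y) u v}.ncard = n → Relation.ReflTransGen (Ds A x y a b) u v := by
    intro n
    induction n using Nat.strong_induction_on with
    | _ n ih =>
      intro u hu huv hn
      by_cases h1 : ∃ k, ph k = 0 ∧ Cr (k * x) (k * y) u v
      · obtain ⟨k, a', b', hk, hc, e1, h2, h3, h4, h5⟩ := jstep h he hu huv h1
        refine Relation.ReflTransGen.head (Or.inl h2) (Relation.ReflTransGen.head (Or.inr ⟨k, hk, e1⟩) ?_)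
        have h6 : {k' : F g | ph k' = 0 ∧ Cr (k' * x) (k' * y) b' v} ⊂
            {k' : F g | ph k' = 0 ∧ Cr (k' * x) (k' * y) u v} := by
          rw [Set.ssubset_iff_of_subset]
          · exact ⟨k, ⟨hk, hc⟩, fun h7 => ((h5 k hk).1 h7.2).2 rfl⟩
          · rintro k' ⟨hk', hc'⟩
            exact ⟨hk', ((h5 k' hk').1 hc').1⟩
        have h7 := Set.ncard_lt_ncard h6 (tfin x y u v)
        rw [hn] at h7
        exact ih _ h7 b' h3 h4 rfl
      · push Not at h1
        exact Relation.ReflTransGen.single (Or.inl ⟨hu, huv, h1⟩)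
  exact key _ u hu huv rfl

theorem dual_zero (h : Ar A x y) {a b : F g} (he : El A x y a b) {c : F g → F g → ℚ}
    (h1 : ∀ x y z, c x y + c y z = c x z) (h2 : ∀ k, ph k = 0 → ∀ x y, c (k * x) (k * y) = c x y)
    (h3 : ∀ u v, Rd A x y u v → c u v = 0) (h4 : c a b = 0) {u v : F g} (hu : u ∉ A.E.P) (huv : A.E.S u v) :
    c u v = 0 := by
  have h0 : ∀ z, c z z = 0 := by
    intro z
    have h5 := h1 z z z
    linarith
  have hst : ∀ p q, Ds A x y a b p q → c p q = 0 := by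
    rintro p q (h5 | ⟨k, hk, ⟨rfl, rfl⟩ | ⟨rfl, rfl⟩⟩)
    · exact h3 p q h5
    · rw [h2 k hk]
      exact h4
    · rw [h2 k hk]
      have h6 := h1 a b a
      rw [h0, h4] at h6
      linarith
  have key : ∀ w, Relation.ReflTransGen (Ds A x y a b) u w → c u w = 0 := by
    intro w hw
    induction hw with
    | refl => exact h0 u
    | tail _ h7 ih =>
      rw [← h1 _ _ _, ih, hst _ _ h7, add_zero]
  exact key v (dual_gen h he hu huv)

end TorS
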