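import Mathlib
import Pool.Agent.Lib.MP_05cdf2_gt.S.One

/-! MP_05cdf2_gt, stream S, job Gs: the cochain of an arc.

`iv x y z = if x⁻¹ z < x⁻¹ y then 1 else 0` is the indicator function of the cyclic interval `[x, y)` (`1` is the minimum of the linear order: `one_le`, `one_lt` in TorM). `gs x y = un (iv x y)`,
`un I p q = ∑ᶠ k : KK g, (I (k q) - I (k p))`.
`iv_fj`: `fj_lt (x⁻¹ * y) x`.
`un_fin`: for `FJ I` the support of `k ↦ I (k q) - I (k p)` is finite (preimage of the finite set `{z | I (z * (p⁻¹ q)) ≠ I z}` under the injective map `k ↦ k p`; see the proof of `BB_un`).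
`gs_add`: additivity in `p, q`: `finsum_add_distrib` with `un_fin`. `gs_K`: reindex the sum by `k' ↦ k' k` (`Equiv.mulRight` on `KK g`, or `finsum_comp_equiv` with an explicit equivalence), `k' (k p) = (k' k) p`.
`iv_K`: `iv (k x) (k y) (k z) = iv x y z` (the factors cancel). `gs_K'`: `gs (k x) (k y) = gs x y`: reindex `k' ↦ k k' ` and `iv (k x) (k y) z = iv x y (k⁻¹ z)`: `∑_k' iv x y (k⁻¹ k' q) - ...`, reindex by left multiplication.
`iv_trip`: `iv x y z + iv y w z - iv x w z` does not depend on `z`: it is `0` or `1` for all `z` (cyclic intervals: `[x,y) + [y,w) = [x,w)` or the whole circle plus `[x,w)`). Proof: translate by `x⁻¹`: this is `ind_cocycle` (G/Pair.lean):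
 `(if h < a then 1 else 0) + (if a⁻¹ h < b then 1 else 0) = (if h < a b then 1 else 0) + (if a b < a then 1 else 0)` with `h = x⁻¹ z`, `a = x⁻¹ y`, `b = y⁻¹ w`.
`gs_mul`: `gs x y p q + gs y w p q = gs x w p q` from `iv_trip` (the constants cancel in `I (k q) - I (k p)`), `finsum_add_distrib`. `gs_self`: `iv x x z = 0` (`x⁻¹ z < 1` is false).
`BB_gs`: `BB_un (iv_fj x y) hf` gives `BB (gs x y) f = - TT (iv x y) (f 1) ζ` and `TT_lt (f 1) x (γ := x⁻¹ * y)` (needs `x⁻¹ y ≠ 1`) gives `TT .. = f 1 (x ζ⁻¹) - f 1 (x (x⁻¹ y) ζ⁻¹)`; `x (x⁻¹ y) = y`; so `BB = f 1 (y ζ⁻¹) - f 1 (x ζ⁻¹) =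
 f (x ζ⁻¹) (y ζ⁻¹)` (`cc_pot`), and `f (x ζ⁻¹) x = 0`, `f (y ζ⁻¹) y = 0` (`cc_zeta`), so `= f x y` (`cc_add`). If `x = y` both sides are 0 (`gs_self`, `BB_zero`, `cc_self`).
`gs_cq`: `cq_un hD hu : cq D = un (fun z => if u⁻¹ * z < u⁻¹ * gn D * u then 1 else 0)` and `u⁻¹ * (gn D * u) = u⁻¹ * gn D * u`.
`iv_cr`: `x ≠ y`, `u`, `v` not in `{x, y}`: `iv x y u ≠ iv x y v` iff `Cr x y u v`. For `u ∉ {x, y}`: `iv x y u = 1` iff `Cyc x u y`: translate by `x⁻¹` (`cyc_mul`): `Cyc 1 (x⁻¹ u) (x⁻¹ y)` iff `x⁻¹ u < x⁻¹ y` since `1 < x⁻¹ u`, `1 < x⁻¹ y`. Then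
 `cr_side`.
`gs_zero`: if no translate `(k x, k y)` crosses `(u, v)` and `u`, `v` are not of the form `k x`, `k y`, then `gs x y u v = 0`: every term `iv x y (k v) - iv x y (k u)` is zero by `iv_cr` (`Cr x y (k u) (k v)` iff `Cr (k⁻¹ x) (k⁻¹ y) u v`, `cr_mul`).
`iv_anti`: for `x, y, u, v` with `x ≠ y`, `u ≠ v`, `{x, y} ∩ {u, v} = ∅`: `iv x y v - iv x y u = - (iv u v y - iv u v x)`: if they do not cross both sides are 0; if they cross: `Cyc x v y` and `Cyc y u x` (then `iv x y v = 1`, `iv x y u = 0`, and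
 the cyclic order is `x, v, y, u`, so `[u, v)` contains `x` and not `y`), or `Cyc x u y`, `Cyc y v x` (order `x, u, y, v`: `[u, v)` contains `y` and not `x`).
`gs_anti`: if `u, v ∉ K x ∪ K y` and `u ≠ v`: `gs x y u v = - gs u v x y`: termwise `iv_anti` for `k⁻¹`: `iv x y (k v) - iv x y (k u) = -(iv (k u) (k v) y - iv (k u) (k v) x) = -(iv u v (k⁻¹ y) - iv u v (k⁻¹ x))`, reindex `k ↦ k⁻¹` (`finsum_comp_equiv
 (Equiv.inv ..)` on `KK g`: give the equivalence explicitly). -/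

set_option autoImplicit false

namespace TorS
open TorM TorG TorL TorN

variable {g : ℕ} [NeZero g]

theorem Gs_iv (x y z : F g) : (iv x y z = 1 ∧ x⁻¹ * z < x⁻¹ * y) ∨ (iv x y z = 0 ∧ ¬ x⁻¹ * z < x⁻¹ * y) := by
  unfold iv
  by_cases h : x⁻¹ * z < x⁻¹ * y
  · left
    exact ⟨if_pos h, h⟩
  · right
    exact ⟨if_neg h, h⟩

theorem Gs_one {x y z : F g} (h : x⁻¹ * z < x⁻¹ * y) : iv x y z = 1 := by
  unfold iv
  exact if_pos h

theorem Gs_zero {x y z : F g} (h : ¬ x⁻¹ * z < x⁻¹ * y) : iv x y z = 0 := by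
  unfold iv
  exact if_neg h

/-- right multiplication on `KK g` -/
def Gs_mulR (k : F g) (hk : ph k = 0) : KK g ≃ KK g where
  toFun x := ⟨x.1 * k, by rw [ph_mul, x.2, hk, add_zero]⟩
  invFun x := ⟨x.1 * k⁻¹, by rw [ph_mul, ph_inv, x.2, hk, neg_zero, add_zero]⟩
  left_inv x := Subtype.ext (mul_inv_cancel_right _ _)
  right_inv x := Subtype.ext (inv_mul_cancel_right _ _)

/-- left multiplication on `KK g` -/
def Gs_mulL (k : F g) (hk : ph k = 0) : KK g ≃ KK g where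
  toFun x := ⟨k * x.1, by rw [ph_mul, x.2, hk, add_zero]⟩
  invFun x := ⟨k⁻¹ * x.1, by rw [ph_mul, ph_inv, x.2, hk, neg_zero, add_zero]⟩
  left_inv x := Subtype.ext (inv_mul_cancel_left _ _)
  right_inv x := Subtype.ext (mul_inv_cancel_left _ _)

/-- inversion on `KK g` -/
def Gs_inv : KK g ≃ KK g where
  toFun x := ⟨x.1⁻¹, by rw [ph_inv, x.2, neg_zero]⟩
  invFun x := ⟨x.1⁻¹, by rw [ph_inv, x.2, neg_zero]⟩
  left_inv x := Subtype.ext (_root_.inv_inv _)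
  right_inv x := Subtype.ext (_root_.inv_inv _)

theorem iv_fj (x y : F g) : FJ (iv x y) := by
  have h := fj_lt (x⁻¹ * y) x
  intro w
  refine (h w).subset fun z hz => ?_
  intro h2
  refine hz ?_
  unfold iv
  exact h2

theorem un_fin {I : F g → ℚ} (hI : FJ I) (p q : F g) :
    (Function.support fun k : KK g => I (k.1 * q) - I (k.1 * p)).Finite := by
  have h2 : Function.Injective fun k : KK g => k.1 * p := fun k k' h => Subtype.ext (mul_right_cancel h)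
  refine ((hI (p⁻¹ * q)).preimage h2.injOn).subset fun k hk => ?_
  show I (k.1 * p * (p⁻¹ * q)) ≠ I (k.1 * p)
  intro h
  refine hk ?_
  show I (k.1 * q) - I (k.1 * p) = 0
  rw [← h, mul_assoc, mul_inv_cancel_left, sub_self]

theorem gs_add (x y p q r : F g) : gs x y p q + gs x y q r = gs x y p r := by
  unfold gs un
  rw [← finsum_add_distrib (un_fin (iv_fj x y) p q) (un_fin (iv_fj x y) q r)]
  refine finsum_congr fun k => ?_
  ring

theorem gs_K (x y : F g) {k : F g} (hk : ph k = 0) (p q : F g) : gs x y (k * p) (k * q) = gs x y p q := by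
  unfold gs un
  symm
  rw [← finsum_comp_equiv (Gs_mulR k hk)]
  refine finsum_congr fun k' => ?_
  show iv x y (k'.1 * k * q) - iv x y (k'.1 * k * p) = iv x y (k'.1 * (k * q)) - iv x y (k'.1 * (k * p))
  rw [mul_assoc, mul_assoc]

theorem iv_K (k x y z : F g) : iv (k * x) (k * y) (k * z) = iv x y z := by
  have h1 : ∀ w : F g, (k * x)⁻¹ * (k * w) = x⁻¹ * w := fun w => by group
  rcases Gs_iv (k * x) (k * y) (k * z) with ⟨e, h⟩ | ⟨e, h⟩
  · rw [e, Gs_one]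
    rw [h1, h1] at h
    exact h
  · rw [e, Gs_zero]
    rw [h1, h1] at h
    exact h

theorem gs_K' {k : F g} (hk : ph k = 0) (x y : F g) : gs (k * x) (k * y) = gs x y := by
  funext p q
  unfold gs un
  rw [← finsum_comp_equiv (Gs_mulL k hk)]
  refine finsum_congr fun k' => ?_
  show iv (k * x) (k * y) (k * k'.1 * q) - iv (k * x) (k * y) (k * k'.1 * p) = _
  rw [mul_assoc, mul_assoc, iv_K, iv_K]

theorem iv_trip (x y w z z' : F g) : iv x y z + iv y w z - iv x w z = iv x y z' + iv y w z' - iv x w z' := by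
  classical
  have key : ∀ t : F g, iv x y t + iv y w t - iv x w t = if x⁻¹ * w < x⁻¹ * y then 1 else 0 := by
    intro t
    have h := ind_cocycle (x⁻¹ * y) (y⁻¹ * w) (x⁻¹ * t)
    rw [show (x⁻¹ * y)⁻¹ * (x⁻¹ * t) = y⁻¹ * t by group, show x⁻¹ * y * (y⁻¹ * w) = x⁻¹ * w by group] at h
    have h2 : ∀ a b c : F g, iv a b c = ((if a⁻¹ * c < a⁻¹ * b then (1 : ℤ) else 0 : ℤ) : ℚ) := by
      intro a b c
      rcases Gs_iv a b c with ⟨e, h⟩ | ⟨e, h⟩
      · rw [e, if_pos h, Int.cast_one]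
      · rw [e, if_neg h, Int.cast_zero]
    rw [h2 x y t, h2 y w t, h2 x w t, ← Int.cast_add, h, Int.cast_add, add_sub_cancel_left]
    split_ifs
    · exact Int.cast_one
    · exact Int.cast_zero
  rw [key z, key z']

theorem gs_mul (x y w : F g) : gs x y + gs y w = gs x w := by
  funext p q
  show gs x y p q + gs y w p q = gs x w p q
  unfold gs un
  rw [← finsum_add_distrib (un_fin (iv_fj x y) p q) (un_fin (iv_fj y w) p q)]
  refine finsum_congr fun k => ?_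
  have h := iv_trip x y w (k.1 * q) (k.1 * p)
  linarith

theorem gs_self (x : F g) : gs x x = 0 := by
  have h := gs_mul x x x
  exact left_eq_add.1 h.symm

theorem BB_gs {f : F g → F g → ℚ} (hf : f ∈ CC g) (x y : F g) : BB (gs x y) f = f x y := by
  by_cases hxy : x = y
  · subst hxy
    rw [gs_self, BB_zero, cc_self hf]
  · unfold gs
    rw [BB_un (iv_fj x y) hf]
    have hne : x⁻¹ * y ≠ 1 := fun h => hxy (by
      have h2 := mul_eq_one_iff_eq_inv.1 h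
      rw [inv_inj] at h2
      exact h2.symm ▸ rfl)
    have h1 := TT_lt (f 1) x hne
    have h2 : TT (iv x y) (f 1) (zeta g) = f 1 (x * (zeta g)⁻¹) - f 1 (x * (x⁻¹ * y) * (zeta g)⁻¹) := by
      rw [← h1]
      unfold iv
      rfl
    rw [h2, mul_inv_cancel_left]
    have h3 : f (x * (zeta g)⁻¹) x = 0 := by
      have := cc_zeta hf (x * (zeta g)⁻¹)
      rwa [inv_mul_cancel_right] at this
    have h4 : f (y * (zeta g)⁻¹) y = 0 := by
      have := cc_zeta hf (y * (zeta g)⁻¹)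
      rwa [inv_mul_cancel_right] at this
    have h5 := cc_add hf 1 (x * (zeta g)⁻¹) x
    have h6 := cc_add hf 1 (y * (zeta g)⁻¹) y
    have h7 := cc_add hf 1 x y
    linarith

theorem gs_cq {D : Set (F g)} (hD : KCut D) {u : F g} (hu : u ∈ D) : cq D = gs u (gn D * u) := by
  rw [cq_un hD hu]
  unfold gs
  refine congrArg un ?_
  funext z
  unfold iv
  rw [mul_assoc u⁻¹ (gn D) u]

open Classical in
theorem iv_cyc {x y u : F g} (hxy : x ≠ y) (h1 : u ≠ x) (h2 : u ≠ y) : iv x y u = if Cyc x u y then 1 else 0 := by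
  have e1 : 1 < x⁻¹ * u := one_lt fun h => h1 (by
    have h3 := congrArg (fun t => x * t) h
    simp only [mul_inv_cancel_left, mul_one] at h3
    exact h3)
  have e2 : 1 < x⁻¹ * y := one_lt fun h => hxy (by
    have h3 := congrArg (fun t => x * t) h
    simp only [mul_inv_cancel_left, mul_one] at h3
    exact h3.symm)
  have e3 : Cyc x u y ↔ x⁻¹ * u < x⁻¹ * y := by
    rw [← cyc_mul x⁻¹ x u y, inv_mul_cancel]
    unfold Cyc
    constructor
    · rintro (⟨_, h⟩ | ⟨_, h⟩ | ⟨h, _⟩)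
      · exact h
      · exact absurd h (not_lt.2 e2.le)
      · exact absurd h (not_lt.2 e2.le)
    · intro h
      exact Or.inl ⟨e1, h⟩
  by_cases hc : Cyc x u y
  · rw [if_pos hc, Gs_one (e3.1 hc)]
  · rw [if_neg hc, Gs_zero (fun h => hc (e3.2 h))]

theorem iv_cr {x y u v : F g} (hxy : x ≠ y) (h1 : u ≠ x) (h2 : u ≠ y) (h3 : v ≠ x) (h4 : v ≠ y) :
    iv x y u ≠ iv x y v ↔ Cr x y u v := by
  rw [cr_side hxy h1 h2 h3 h4, iv_cyc hxy h1 h2, iv_cyc hxy h3 h4]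
  by_cases c1 : Cyc x u y <;> by_cases c2 : Cyc x v y
  · simp [c1, c2]
  · simp [c1, c2]
  · simp [c1, c2]
  · simp [c1, c2]

theorem gs_zero {x y u v : F g} (hxy : x ≠ y) (h : ∀ k, ph k = 0 → ¬ Cr (k * x) (k * y) u v)
    (hu : ∀ k, ph k = 0 → k * u ≠ x ∧ k * u ≠ y) (hv : ∀ k, ph k = 0 → k * v ≠ x ∧ k * v ≠ y) : gs x y u v = 0 := by
  unfold gs un
  refine finsum_eq_zero_of_forall_eq_zero fun k => ?_
  have h1 := iv_cr hxy (hu k.1 k.2).1 (hu k.1 k.2).2 (hv k.1 k.2).1 (hv k.1 k.2).2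
  have h2 : ¬ Cr x y (k.1 * u) (k.1 * v) := by
    intro hc
    refine h k.1⁻¹ (by rw [ph_inv, k.2, neg_zero]) ?_
    rw [← cr_mul k.1⁻¹, inv_mul_cancel_left, inv_mul_cancel_left] at hc
    exact hc
  have h3 : iv x y (k.1 * u) = iv x y (k.1 * v) := by
    by_contra h4
    exact h2 (h1.1 h4)
  rw [h3, sub_self]

theorem Gs_c0 {α : Type} [LinearOrder α] {x y v : α} (h1 : x ≠ v) (h2 : v ≠ y) (h3 : x ≠ y) (c : ¬ Cyc x v y) :
    Cyc y v x := by
  unfold Cyc at *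
  rcases lt_or_gt_of_ne h1 with a | a <;> rcases lt_or_gt_of_ne h2 with b | b <;>
    rcases lt_or_gt_of_ne h3 with d | d <;> grind

theorem Gs_c3 {α : Type} [LinearOrder α] {x y v : α} (c : Cyc x v y) (c' : Cyc y v x) : False := by
  unfold Cyc at *
  grind

theorem Gs_c1 {α : Type} [LinearOrder α] {x y u v : α} (hxy : x ≠ y) (huv : u ≠ v) (h1 : u ≠ x) (h2 : u ≠ y)
    (h3 : v ≠ x) (h4 : v ≠ y) (c1 : Cyc x v y) (c2 : Cyc x u y) : Cyc u y v ↔ Cyc u x v := by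
  unfold Cyc at *
  rcases c1 with ⟨a, b⟩ | ⟨a, b⟩ | ⟨a, b⟩ <;> rcases c2 with ⟨c, d⟩ | ⟨c, d⟩ | ⟨c, d⟩ <;>
    rcases lt_or_gt_of_ne huv with e | e <;> constructor <;> intro h <;> grind

theorem Gs_c2 {α : Type} [LinearOrder α] {x y u v : α} (hxy : x ≠ y) (huv : u ≠ v) (h1 : u ≠ x) (h2 : u ≠ y)
    (h3 : v ≠ x) (h4 : v ≠ y) (c1 : Cyc x v y) (c2 : ¬ Cyc x u y) : ¬ Cyc u y v ∧ Cyc u x v := by
  have c3 := Gs_c0 h1.symm h2 hxy c2
  clear c2
  unfold Cyc at *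
  rcases c1 with ⟨a, b⟩ | ⟨a, b⟩ | ⟨a, b⟩ <;> rcases c3 with ⟨c, d⟩ | ⟨c, d⟩ | ⟨c, d⟩ <;>
    rcases lt_or_gt_of_ne huv with e | e <;> constructor <;> grind

theorem iv_anti {x y u v : F g} (hxy : x ≠ y) (huv : u ≠ v) (h1 : u ≠ x) (h2 : u ≠ y) (h3 : v ≠ x) (h4 : v ≠ y) :
    iv x y v - iv x y u = - (iv u v y - iv u v x) := by
  classical
  rw [iv_cyc hxy h1 h2, iv_cyc hxy h3 h4, iv_cyc huv h1.symm h3.symm, iv_cyc huv h2.symm h4.symm]
  have key : ((Cyc x v y ↔ Cyc x u y) ∧ (Cyc u y v ↔ Cyc u x v)) ∨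
      (Cyc x v y ∧ ¬ Cyc x u y ∧ ¬ Cyc u y v ∧ Cyc u x v) ∨
      (¬ Cyc x v y ∧ Cyc x u y ∧ Cyc u y v ∧ ¬ Cyc u x v) := by
    by_cases c1 : Cyc x v y
    · by_cases c2 : Cyc x u y
      · left
        refine ⟨iff_of_true c1 c2, Gs_c1 hxy huv h1 h2 h3 h4 c1 c2⟩
      · right; left
        have h := Gs_c2 hxy huv h1 h2 h3 h4 c1 c2
        exact ⟨c1, c2, h.1, h.2⟩
    · by_cases c2 : Cyc x u y
      · right; right
        have h := Gs_c2 hxy.symm huv h2 h1 h4 h3 (Gs_c0 h3.symm h4 hxy c1) (fun h => Gs_c3 c2 h)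
        exact ⟨c1, c2, h.2, h.1⟩
      · left
        refine ⟨iff_of_false c1 c2, ?_⟩
        exact (Gs_c1 hxy.symm huv h2 h1 h4 h3 (Gs_c0 h3.symm h4 hxy c1) (Gs_c0 h1.symm h2 hxy c2)).symm
  rcases key with ⟨e1, e2⟩ | ⟨e1, e2, e3, e4⟩ | ⟨e1, e2, e3, e4⟩
  · rw [if_congr e1 rfl rfl, if_congr e2 rfl rfl]
    ring
  · rw [if_pos e1, if_neg e2, if_neg e3, if_pos e4]
    ring
  · rw [if_neg e1, if_pos e2, if_pos e3, if_neg e4]
    ring

theorem gs_anti {x y u v : F g} (hxy : x ≠ y) (huv : u ≠ v) (hu : ∀ k, ph k = 0 → k * u ≠ x ∧ k * u ≠ y)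
    (hv : ∀ k, ph k = 0 → k * v ≠ x ∧ k * v ≠ y) : gs x y u v = - gs u v x y := by
  unfold gs un
  rw [← finsum_comp_equiv Gs_inv, ← finsum_neg_distrib]
  refine finsum_congr fun k => ?_
  show iv x y (k.1⁻¹ * v) - iv x y (k.1⁻¹ * u) = -(iv u v (k.1 * y) - iv u v (k.1 * x))
  have hk : ph k.1⁻¹ = 0 := by rw [ph_inv, k.2, neg_zero]
  rw [iv_anti hxy (fun h => huv (mul_left_cancel h)) (hu _ hk).1 (hu _ hk).2 (hv _ hk).1 (hv _ hk).2]
  have h5 : ∀ z : F g, iv (k.1⁻¹ * u) (k.1⁻¹ * v) z = iv u v (k.1 * z) := by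
    intro z
    rw [← iv_K k.1, mul_inv_cancel_left, mul_inv_cancel_left]
  rw [h5, h5]

end TorS
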