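import Mathlib
import Pool.Agent.Lib.MP_05cdf2_gt.S.Gen
import Pool.Agent.Lib.MP_05cdf2_gt.S.Gs

/-! MP_05cdf2_gt, stream S, job Ed: a visible arc has an elementary dual chord.

Hypothesis: there are `u ~ v` above `A` with `gs x y u v ≠ 0`. Let `T(u,v) = {k ∈ K | Cr (k x) (k y) u v}` (finite, `tfin`). For `k ∈ T(u,v)` put `e(k) = iv x y (k⁻¹ v) - iv x y (k⁻¹ u)`, which is `1` or `-1` (`iv_cr`), and
`gs x y u v = ∑_{k ∈ T(u,v)} e(k)` (terms of `un` for `k⁻¹`; terms outside are zero by `iv_cr`; points above `A` are never equal to `k x`, `k y`, which are in `A.P`).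
Choose a pair `u ~ v` above `A` with `gs x y u v ≠ 0` and `m = card T(u,v)` minimal (`Nat.find` or strong induction on `m`). Then `m ≥ 1`. If `m = 1`, `T(u,v) = {k}`: `(a, b) = (k⁻¹ u, k⁻¹ v)` is elementary
(`Cr x y (k⁻¹u) (k⁻¹ v)`; `Cr (k' x) (k' y) (k⁻¹ u) (k⁻¹ v)` implies `k k' ∈ T(u,v)`, `k' = 1`).
Let `m ≥ 2`. Let `s1 ∈ T(u,v)` be the translate closest to `u` and `s2` the next one. Definition of the order: for `k, k' ∈ T(u,v)`, `k ≠ k'`: `k < k'` iff `(k' x, k' y)` does not separate `u` from `(k x, k y)`, i.e. iff `k x`, `k y`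
are not separated from `u` by `(k' x, k' y)`... To avoid orders use sets: `first`: there is `s1 ∈ T(u,v)` such that for all `k ∈ T(u,v)`, `k ≠ s1`, the chord `(k x, k y)` has `u` and both ends `s1 x`, `s1 y` on one closed side (`¬ Cr (k x) (k y) u (s1 x)` and
`¬ Cr (k x) (k y) u (s1 y)`): take `s1` such that the number of `k ∈ T(u,v)` with `Cr (k x) (k y) u (s1 x)` or `Cr (k x) (k y) u (s1 y)` is minimal. (`Cr` with a common end is false, that is fine.)
ALTERNATIVE (recommended): work with points instead of chords. By minimality use the following LEMMA P (part of this job): for `u ~ v` above `A` with `T(u,v)` nonempty and `k ∈ T(u,v)` put `z_k = s(k) := h u` where `h = ...`. Precisely: for `k, k' ∈ T(u,v)` let `h = k' k⁻¹` (so `h` maps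
the chord `k` to the chord `k'`). `h u ~ u` by `k_class` (both classes cross the chord `k'`). `T(h u, w) = h T(u, h⁻¹ w)`.
 Let `s1 < s2 < ... < sm` be the elements of `T(u,v)` ordered by the distance from `u` (`s_i` separates `u` from the ends of `s_j` not on `s_i`, for `j > i`). `h = s2 s1⁻¹`. No translate lies between `u` and `s1` (i.e. separates `u` from `s1`: a translate
 separating `u` from `s1` separates `u` from `v`, because it does not cross `s1` and `s1` separates `u` from `v`; so it would be in `T(u,v)` and closer). So no translate lies between `h u` and `s2 = h s1`.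
 Case A: `h u` is on the side of `u` of `s2`. Then a translate `t` which separates `u` from `h u`: `t ≠ s2`. `t` does not separate `h u` from `s2` (closed side). So `t` separates `u` from `s2`, hence `t` separates `u` from `v`, `t ∈ {s1}`. And `s1` does separate `u` from `s2`, so it separates `u` from `h u`.
   So `T(u, h u) = {s1}` and `u ~ h u`: elementary up to translation, done (`gs` is not needed).
 Case B: `h u` is on the side of `v` of `s2`. Then `T(h u, v) = {s3, ..., sm}` (same argument) and `e(s2) = - e(s1)`: `e(s1)` is given by the side of `s1` on which `u` lies (`iv x y (s1⁻¹ u)`), and `s2⁻¹ (h u) = s1⁻¹ u`: `iv x y (s2⁻¹ (h u)) = iv x y (s1⁻¹ u)`; since `h u` is on the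
   other side of `s2` than `u`: `iv x y (s2⁻¹ u) ≠ iv x y (s1⁻¹ u)`, so `e(s2) = -e(s1)`. Hence `gs x y (h u) v = gs x y u v ≠ 0` (formally: `gs x y u v = gs x y u (h u) + gs x y (h u) v` and `gs x y u (h u) = e(s1) + e(s2) = 0`, as `T(u, h u) = {s1, s2}` by `tside`-like arguments), and
   `card T(h u, v) = m - 2 < m`, a contradiction to the minimality. -/

set_option autoImplicit false

namespace TorS
open TorM TorG TorL TorN

section ord
variable {α : Type} [LinearOrder α]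

private theorem Ed_bot {u a b z : α} (hu : ∀ z, u ≤ z) :
    Cr a b u z ↔ u ≠ a ∧ u ≠ b ∧ ((a < z ∧ z < b) ∨ (b < z ∧ z < a)) := by
  have h1 := hu a
  have h2 := hu b
  have h3 := hu z
  unfold Cr Cyc
  grind

private theorem Ed_in {a b c d v z : α} (h1 : c < v) (h2 : v < d) (j1 : a ≤ c) (j2 : d ≤ b)
    (hz : (c < z ∧ z < d) ∨ (d < z ∧ z < c)) : a < z ∧ z < b := by
  rcases hz with ⟨p, q⟩ | ⟨p, q⟩
  · exact ⟨j1.trans_lt p, q.trans_le j2⟩
  · exact absurd (((h1.trans h2).trans p).trans q) (lt_irrefl _)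

private theorem Ed_key {a b c d v : α} (h1 : a < v) (h2 : v < b) (h3 : c < v) (h4 : v < d)
    (h : ¬ Cr a b c d) : (a ≤ c ∧ d ≤ b) ∨ (c ≤ a ∧ b ≤ d) := by
  unfold Cr Cyc at h
  grind

private theorem Ed_nest {u : α} (hu : ∀ z, u ≤ z) {a b c d v : α} (h1 : Cr a b u v)
    (h2 : Cr c d u v) (hn : ¬ Cr a b c d) :
    (∀ z, Cr a b u z → Cr c d u z) ∨ (∀ z, Cr c d u z → Cr a b u z) := by
  have e1 : ∀ z, Cr a b u z ↔ u ≠ a ∧ u ≠ b ∧ ((a < z ∧ z < b) ∨ (b < z ∧ z < a)) :=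
    fun z => Ed_bot hu
  have e2 : ∀ z, Cr c d u z ↔ u ≠ c ∧ u ≠ d ∧ ((c < z ∧ z < d) ∨ (d < z ∧ z < c)) :=
    fun z => Ed_bot hu
  rw [e1] at h1
  rw [e2] at h2
  simp only [e1, e2]
  obtain ⟨k1, k2, h1⟩ := h1
  obtain ⟨k3, k4, h2⟩ := h2
  rcases h1 with ⟨h1, h1'⟩ | ⟨h1, h1'⟩ <;> rcases h2 with ⟨h2, h2'⟩ | ⟨h2, h2'⟩
  · rcases Ed_key h1 h1' h2 h2' hn with ⟨j1, j2⟩ | ⟨j1, j2⟩
    · exact Or.inr fun z hz => ⟨k1, k2, Or.inl (Ed_in h2 h2' j1 j2 hz.2.2)⟩
    · exact Or.inl fun z hz => ⟨k3, k4, Or.inl (Ed_in h1 h1' j1 j2 hz.2.2)⟩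
  · rcases Ed_key h1 h1' h2 h2' (fun h => hn (cr_swap2.1 h)) with ⟨j1, j2⟩ | ⟨j1, j2⟩
    · exact Or.inr fun z hz => ⟨k1, k2, Or.inl (Ed_in h2 h2' j1 j2 hz.2.2.symm)⟩
    · exact Or.inl fun z hz => ⟨k3, k4, Or.inr (Ed_in h1 h1' j1 j2 hz.2.2)⟩
  · rcases Ed_key h1 h1' h2 h2' (fun h => hn (cr_swap1.1 h)) with ⟨j1, j2⟩ | ⟨j1, j2⟩
    · exact Or.inr fun z hz => ⟨k1, k2, Or.inr (Ed_in h2 h2' j1 j2 hz.2.2)⟩
    · exact Or.inl fun z hz => ⟨k3, k4, Or.inl (Ed_in h1 h1' j1 j2 hz.2.2.symm)⟩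
  · rcases Ed_key h1 h1' h2 h2' (fun h => hn (cr_swap1.1 (cr_swap2.1 h))) with ⟨j1, j2⟩ | ⟨j1, j2⟩
    · exact Or.inr fun z hz => ⟨k1, k2, Or.inr (Ed_in h2 h2' j1 j2 hz.2.2.symm)⟩
    · exact Or.inl fun z hz => ⟨k3, k4, Or.inr (Ed_in h1 h1' j1 j2 hz.2.2.symm)⟩

private theorem Ed_end {u : α} (hu : ∀ z, u ≤ z) {a b c d v : α} (h1 : Cr a b u v)
    (h2 : Cr c d u v) (ha : ¬ Cr c d u a) (hb : ¬ Cr c d u b) :
    Cr a b u c ∨ Cr a b u d ∨ (a = c ∧ b = d) ∨ (a = d ∧ b = c) := by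
  rw [Ed_bot hu] at h1 h2 ha hb
  rw [Ed_bot hu, Ed_bot hu]
  obtain ⟨k1, k2, h1⟩ := h1
  obtain ⟨k3, k4, h2⟩ := h2
  have ha' : ¬ ((c < a ∧ a < d) ∨ (d < a ∧ a < c)) := fun h => ha ⟨k3, k4, h⟩
  have hb' : ¬ ((c < b ∧ b < d) ∨ (d < b ∧ b < c)) := fun h => hb ⟨k3, k4, h⟩
  clear ha hb
  grind

private theorem Ed_out {u a b c d w : α} (h : Cr a b u w) (hc : ¬ Cr a b w c)
    (hd : ¬ Cr a b w d) (hcd : c ≠ d) :
    Cr a b u c ∨ Cr a b u d ∨ (a = c ∧ b = d) ∨ (a = d ∧ b = c) := by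
  unfold Cr Cyc at *
  grind

private theorem Ed_one {u a b c d v : α} (hn : ¬ Cr a b c d) (h1 : Cr c d u v)
    (h2 : Cr a b u c) (hv1 : v ≠ a) (hv2 : v ≠ b) : Cr a b u v := by
  unfold Cr Cyc at *
  grind

end ord

private theorem Ed_max {β γ : Type} [DecidableEq β] (V : β → Set γ) (T : Finset β) (hT : T.Nonempty)
    (htot : ∀ a ∈ T, ∀ b ∈ T, V a ⊆ V b ∨ V b ⊆ V a) : ∃ s ∈ T, ∀ k ∈ T, V k ⊆ V s := by
  induction T using Finset.induction_on with
  | empty => exact absurd hT Finset.not_nonempty_empty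
  | insert a T _ ih =>
    rcases T.eq_empty_or_nonempty with h0 | h0
    · subst h0
      refine ⟨a, Finset.mem_insert_self _ _, fun k hk => ?_⟩
      rcases Finset.mem_insert.1 hk with rfl | hk
      · exact subset_rfl
      · exact absurd hk (Finset.notMem_empty k)
    · obtain ⟨s, hs, hs2⟩ := ih h0 fun b hb c hc =>
        htot b (Finset.mem_insert_of_mem hb) c (Finset.mem_insert_of_mem hc)
      rcases htot a (Finset.mem_insert_self _ _) s (Finset.mem_insert_of_mem hs) with h1 | h1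
      · refine ⟨s, Finset.mem_insert_of_mem hs, fun k hk => ?_⟩
        rcases Finset.mem_insert.1 hk with rfl | hk
        · exact h1
        · exact hs2 k hk
      · refine ⟨a, Finset.mem_insert_self _ _, fun k hk => ?_⟩
        rcases Finset.mem_insert.1 hk with rfl | hk
        · exact subset_rfl
        · exact (hs2 k hk).trans h1

variable {g : ℕ} [NeZero g] {A : Hf g} {x y : F g}

omit [NeZero g] in
private theorem Ed_base (u p q z : F g) : Cr p q u z ↔ Cr (u⁻¹ * p) (u⁻¹ * q) 1 (u⁻¹ * z) := by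
  rw [← cr_mul u⁻¹ p q u z, inv_mul_cancel]

private theorem Ed_nestF {u a b c d v : F g} (h1 : Cr a b u v) (h2 : Cr c d u v)
    (hn : ¬ Cr a b c d) : (∀ z, Cr a b u z → Cr c d u z) ∨ (∀ z, Cr c d u z → Cr a b u z) := by
  rcases Ed_nest (u := (1 : F g)) one_le ((Ed_base _ _ _ _).1 h1) ((Ed_base _ _ _ _).1 h2)
    (by rw [cr_mul]; exact hn) with H | H
  · exact Or.inl fun z hz => (Ed_base _ _ _ _).2 (H _ ((Ed_base _ _ _ _).1 hz))
  · exact Or.inr fun z hz => (Ed_base _ _ _ _).2 (H _ ((Ed_base _ _ _ _).1 hz))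

private theorem Ed_endF {u a b c d v : F g} (h1 : Cr a b u v) (h2 : Cr c d u v)
    (ha : ¬ Cr c d u a) (hb : ¬ Cr c d u b) :
    Cr a b u c ∨ Cr a b u d ∨ (a = c ∧ b = d) ∨ (a = d ∧ b = c) := by
  rcases Ed_end (u := (1 : F g)) one_le ((Ed_base _ _ _ _).1 h1) ((Ed_base _ _ _ _).1 h2)
    (fun h => ha ((Ed_base _ _ _ _).2 h)) (fun h => hb ((Ed_base _ _ _ _).2 h)) with H | H | H | H
  · exact Or.inl ((Ed_base _ _ _ _).2 H)
  · exact Or.inr (Or.inl ((Ed_base _ _ _ _).2 H))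
  · exact Or.inr (Or.inr (Or.inl ⟨mul_left_cancel H.1, mul_left_cancel H.2⟩))
  · exact Or.inr (Or.inr (Or.inr ⟨mul_left_cancel H.1, mul_left_cancel H.2⟩))

private theorem Ed_ne (h : Ar A x y) {k u : F g} (hk : ph k = 0) (hu : u ∉ A.E.P) :
    k * x ≠ u ∧ k * y ≠ u := by
  constructor
  · rintro rfl
    exact hu ((A.kg.P_mul hk).2 h.px)
  · rintro rfl
    exact hu ((A.kg.P_mul hk).2 h.py)

private theorem Ed_ne' (h : Ar A x y) {k u : F g} (hk : ph k = 0) (hu : u ∉ A.E.P) :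
    k * u ≠ x ∧ k * u ≠ y := by
  constructor
  · intro h1
    exact hu ((A.kg.P_mul hk).1 (h1 ▸ h.px))
  · intro h1
    exact hu ((A.kg.P_mul hk).1 (h1 ▸ h.py))

private theorem Ed_same (h : Ar A x y) {s t : F g}
    (he : (s * x = t * x ∧ s * y = t * y) ∨ (s * x = t * y ∧ s * y = t * x)) : s = t := by
  rcases he with he | he
  · exact mul_right_cancel he.1
  · exfalso
    have e1 : t⁻¹ * s * x = y := by rw [mul_assoc, he.1, inv_mul_cancel_left]
    have e2 : t⁻¹ * s * y = x := by rw [mul_assoc, he.2, inv_mul_cancel_left]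
    have e3 : (t⁻¹ * s) ^ 2 * x = x := by rw [pow_two, mul_assoc, e1, e2]
    have e4 : (t⁻¹ * s) ^ 2 = 1 := mul_eq_right.1 e3
    have e5 : t⁻¹ * s = 1 := by
      have := pow_left_injective (M := F g) (n := 2) two_ne_zero
      exact this (by show (t⁻¹ * s) ^ 2 = 1 ^ 2; rw [e4, one_pow])
    rw [e5, one_mul] at e1
    exact ar_ne h e1

private theorem Ed_el {k u v : F g} (hk : ph k = 0) (hu : u ∉ A.E.P)
    (huv : A.E.S u v) (hcr : Cr (k * x) (k * y) u v)
    (hone : ∀ t, ph t = 0 → Cr (t * x) (t * y) u v → t = k) :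
    El A x y (k⁻¹ * u) (k⁻¹ * v) := by
  have hki : ph k⁻¹ = 0 := by rw [ph_inv, hk]; rfl
  refine ⟨fun h1 => hu ((A.kg.P_mul hki).1 h1), (A.kg.S_mul hki).2 huv, ?_, ?_⟩
  · rw [← cr_mul k, mul_inv_cancel_left, mul_inv_cancel_left]
    exact hcr
  · intro t ht hc
    rw [← cr_mul k, mul_inv_cancel_left, mul_inv_cancel_left, ← mul_assoc, ← mul_assoc] at hc
    have h1 := hone (k * t) (by rw [ph_mul, hk, ht]; rfl) hc
    exact mul_eq_left.1 h1

private theorem Ed_iv (h : Ar A x y) {k u v : F g} (hk : ph k = 0) (hu : u ∉ A.E.P)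
    (hv : v ∉ A.E.P) : iv x y (k⁻¹ * u) ≠ iv x y (k⁻¹ * v) ↔ Cr (k * x) (k * y) u v := by
  have hki : ph k⁻¹ = 0 := by rw [ph_inv, hk]; rfl
  rw [iv_cr (ar_ne h) (Ed_ne' h hki hu).1 (Ed_ne' h hki hu).2 (Ed_ne' h hki hv).1
    (Ed_ne' h hki hv).2, ← cr_mul k, mul_inv_cancel_left, mul_inv_cancel_left]

private theorem Ed_gs2 (h : Ar A x y) {s t u w : F g} (hs : ph s = 0) (ht : ph t = 0) (hst : s ≠ t)
    (hu : u ∉ A.E.P) (hw : w ∉ A.E.P)
    (hT : ∀ k, ph k = 0 → Cr (k * x) (k * y) u w → k = s ∨ k = t) :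
    gs x y u w = (iv x y (s⁻¹ * w) - iv x y (s⁻¹ * u)) + (iv x y (t⁻¹ * w) - iv x y (t⁻¹ * u)) := by
  classical
  have hsi : ph s⁻¹ = 0 := by rw [ph_inv, hs]; rfl
  have hti : ph t⁻¹ = 0 := by rw [ph_inv, ht]; rfl
  unfold gs un
  rw [finsum_eq_sum_of_support_subset (s := {(⟨s⁻¹, hsi⟩ : KK g), (⟨t⁻¹, hti⟩ : KK g)})]
  · rw [Finset.sum_pair]
    intro h1
    have h2 : s⁻¹ = t⁻¹ := congrArg Subtype.val h1
    exact hst (inv_injective h2)
  · rintro ⟨k, hk⟩ hk2
    rw [Function.mem_support] at hk2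
    have hki : ph k⁻¹ = 0 := by rw [ph_inv, hk]; rfl
    have h3 : Cr (k⁻¹ * x) (k⁻¹ * y) u w := by
      rw [← Ed_iv h hki hu hw, _root_.inv_inv]
      intro h4
      exact hk2 (by show iv x y (k * w) - iv x y (k * u) = 0; rw [h4, sub_self])
    rw [Finset.coe_insert, Finset.coe_singleton]
    rcases hT _ hki h3 with h4 | h4
    · left
      apply Subtype.ext
      show k = s⁻¹
      rw [← h4, _root_.inv_inv]
    · right
      apply Subtype.ext
      show k = t⁻¹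
      rw [← h4, _root_.inv_inv]

omit [NeZero g] in
private theorem Ed_iv01 (x y z : F g) : iv x y z = 0 ∨ iv x y z = 1 := by
  unfold iv
  split_ifs
  · exact Or.inr rfl
  · exact Or.inl rfl

/-- sides -/
private theorem Ed_sd (h : Ar A x y) {t r z w : F g} (ht : ph t = 0) (hr : r ∉ A.E.P) (hz : z ∉ A.E.P)
    (hw : w ∉ A.E.P) : Cr (t * x) (t * y) z w ↔ ¬ (Cr (t * x) (t * y) r z ↔ Cr (t * x) (t * y) r w) := by
  constructor
  · intro h1 h2
    rcases cr_tri h1 (Ed_ne h ht hr).1 (Ed_ne h ht hr).2 with h3 | h3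
    · have h4 := cr_swap2.1 h3
      exact cr_opp h4 (h2.1 h4) h1
    · exact cr_opp (h2.2 h3) h3 h1
  · intro h1
    by_cases h2 : Cr (t * x) (t * y) r z
    · have h3 : ¬ Cr (t * x) (t * y) r w := fun hh => h1 (iff_of_true h2 hh)
      exact cr_swap2.1 (cr_move h2 (Ed_ne h ht hw).1 (Ed_ne h ht hw).2 h3)
    · have h3 : Cr (t * x) (t * y) r w := by
        by_contra hh
        exact h1 (iff_of_false h2 hh)
      exact cr_move h3 (Ed_ne h ht hz).1 (Ed_ne h ht hz).2 h2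

private theorem Ed_tot (h : Ar A x y) {u v : F g} (hu : u ∉ A.E.P) (huv : A.E.S u v) (a b : F g)
    (ha : ph a = 0 ∧ Cr (a * x) (a * y) u v) (hb : ph b = 0 ∧ Cr (b * x) (b * y) u v) :
    {z | A.E.S u z ∧ Cr (a * x) (a * y) u z} ⊆ {z | A.E.S u z ∧ Cr (b * x) (b * y) u z} ∨
      {z | A.E.S u z ∧ Cr (b * x) (b * y) u z} ⊆ {z | A.E.S u z ∧ Cr (a * x) (a * y) u z} := by
  by_contra hcon
  push Not at hcon
  obtain ⟨h1, h2⟩ := hcon
  rw [Set.not_subset] at h1 h2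
  obtain ⟨z, ⟨z1, z2⟩, z3⟩ := h1
  obtain ⟨z', ⟨w1, w2⟩, w3⟩ := h2
  have z4 : ¬ Cr (b * x) (b * y) u z := fun hh => z3 ⟨z1, hh⟩
  have w4 : ¬ Cr (a * x) (a * y) u z' := fun hh => w3 ⟨w1, hh⟩
  have hz' : z' ∉ A.E.P := fun hh => hu ((GP.col w1).2 hh)
  exact nst_cut h ha.1 hb.1 (u := u) (v := z) (a := z') (b := v) hu z1 w1 huv z2
    (cr_move ha.2 (Ed_ne h ha.1 hz').1 (Ed_ne h ha.1 hz').2 w4) w4 w2 z4 (cr_opp w2 hb.2)

private theorem Ed_tr (l t z w : F g) :
    Cr (l * t * x) (l * t * y) (l * z) (l * w) ↔ Cr (t * x) (t * y) z w := by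
  rw [mul_assoc, mul_assoc, cr_mul]

private theorem Ed_uniq (h : Ar A x y) {u v s t : F g} (hu : u ∉ A.E.P) (huv : A.E.S u v)
    (hs : ph s = 0 ∧ Cr (s * x) (s * y) u v) (ht : ph t = 0 ∧ Cr (t * x) (t * y) u v)
    (hV : ∀ z, A.E.S u z → (Cr (s * x) (s * y) u z ↔ Cr (t * x) (t * y) u z)) : s = t := by
  have hsi : ph s⁻¹ = 0 := by rw [ph_inv, hs.1]; rfl
  obtain ⟨l, hl⟩ : ∃ l, l = t * s⁻¹ := ⟨_, rfl⟩
  have hlp : ph l = 0 := by rw [hl, ph_mul, hsi, ht.1]; rfl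
  have hli : ph l⁻¹ = 0 := by rw [ph_inv, hlp]; rfl
  have hls : l * s = t := by rw [hl]; group
  have hlu : A.E.S (l * u) u := by
    rw [hl, mul_assoc]
    refine k_class h (a := s⁻¹ * u) (b := s⁻¹ * v) ?_ ((A.kg.S_mul hsi).2 huv) ?_ ht.1 hu huv
      (cr_comm.1 ht.2)
    · rw [A.kg.P_mul hsi]
      exact hu
    · rw [← cr_mul s, mul_inv_cancel_left, mul_inv_cancel_left]
      exact cr_comm.1 hs.2
  have hliu : A.E.S u (l⁻¹ * u) := by
    have := (A.kg.S_mul hli).2 hlu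
    rwa [inv_mul_cancel_left] at this
  have hlz : ∀ z, A.E.S u z → A.E.S u (l⁻¹ * z) := fun z hz => GP.trans hliu ((A.kg.S_mul hli).2 hz)
  have hP : ∀ z, A.E.S u z → z ∉ A.E.P := fun z hz hh => hu ((GP.col hz).2 hh)
  have e1 : ∀ z w, A.E.S u z → A.E.S u w → (Cr (s * x) (s * y) z w ↔ Cr (t * x) (t * y) z w) := by
    intro z w hz hw
    rw [Ed_sd h hs.1 hu (hP z hz) (hP w hw), Ed_sd h ht.1 hu (hP z hz) (hP w hw), hV z hz, hV w hw]
  have e2 : ∀ n : ℕ, ∀ z w, A.E.S u z → A.E.S u w →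
      (Cr (l ^ n * s * x) (l ^ n * s * y) z w ↔ Cr (s * x) (s * y) z w) := by
    intro n
    induction n with
    | zero =>
      intro z w _ _
      rw [pow_zero, one_mul]
    | succ n ih =>
      intro z w hz hw
      have e3 : l ^ (n + 1) * s = l * (l ^ n * s) := by rw [pow_succ', mul_assoc]
      have e4 : ∀ r : F g, Cr (l * r * x) (l * r * y) z w ↔ Cr (r * x) (r * y) (l⁻¹ * z) (l⁻¹ * w) := by
        intro r
        rw [← Ed_tr (x := x) (y := y) l r (l⁻¹ * z) (l⁻¹ * w), mul_inv_cancel_left, mul_inv_cancel_left]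
      rw [e3, e4, ih _ _ (hlz z hz) (hlz w hw), ← e4, hls, e1 z w hz hw]
  have hfin := tfin x y u v
  have hmem : ∀ n : ℕ, l ^ n * s ∈ {k | ph k = 0 ∧ Cr (k * x) (k * y) u v} := by
    intro n
    refine ⟨?_, (e2 n u v (GP.refl u) huv).2 hs.2⟩
    have : ∀ n : ℕ, ph (l ^ n) = 0 := by
      intro n
      induction n with
      | zero => rw [pow_zero]; exact ph_one
      | succ n ih => rw [pow_succ, ph_mul, ih, hlp]; rfl
    rw [ph_mul, this, hs.1]
    rfl
  have hni : ¬ Function.Injective fun n : ℕ => l ^ n * s := by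
    intro hinj
    exact (Set.infinite_of_injective_forall_mem hinj hmem) hfin
  have hl1 : l = 1 := by
    unfold Function.Injective at hni
    push Not at hni
    obtain ⟨a, b, hab, hne⟩ := hni
    have hab' : l ^ a = l ^ b := mul_right_cancel hab
    have key : ∀ a b : ℕ, a < b → l ^ a = l ^ b → l = 1 := by
      intro a b hlt he
      have h5 : l ^ (b - a) = 1 := by
        have h6 : l ^ b = l ^ a * l ^ (b - a) := by rw [← pow_add]; congr 1; omega
        rw [h6] at he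
        exact (left_eq_mul.1 he)
      have h7 := pow_left_injective (M := F g) (n := b - a) (by omega)
      exact h7 (by show l ^ (b - a) = 1 ^ (b - a); rw [h5, one_pow])
    rcases lt_or_gt_of_ne hne with h6 | h6
    · exact key a b h6 hab'
    · exact key b a h6 hab'.symm
  rw [hl1, one_mul] at hls
  exact hls

private theorem Ed_ind (h : Ar A x y) : ∀ n : ℕ, ∀ u v : F g, u ∉ A.E.P → A.E.S u v →
    gs x y u v ≠ 0 → (tfin x y u v).toFinset.card = n → ∃ a b, El A x y a b := by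
  classical
  intro n
  induction n using Nat.strong_induction_on with
  | _ n ih =>
  intro u v hu huv hv hn
  have hv' : v ∉ A.E.P := fun hh => hu ((A.E.col huv).2 hh)
  by_cases hne : ∃ k, ph k = 0 ∧ Cr (k * x) (k * y) u v
  swap
  · exfalso
    apply hv
    refine gs_zero (ar_ne h) (fun k hk hc => hne ⟨k, hk, hc⟩) (fun k hk => Ed_ne' h hk hu)
      (fun k hk => Ed_ne' h hk hv')
  have hnT : ∀ k, k ∈ (tfin x y u v).toFinset ↔ ph k = 0 ∧ Cr (k * x) (k * y) u v := by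
    intro k
    rw [Set.Finite.mem_toFinset]
    rfl
  set T := (tfin x y u v).toFinset with hT
  obtain ⟨s1, hs1T, hs1⟩ := Ed_max (fun k : F g => {z | A.E.S u z ∧ Cr (k * x) (k * y) u z}) T
    (hne.imp fun k hk => (hnT k).2 hk)
    (fun a ha b hb => Ed_tot h hu huv a b ((hnT a).1 ha) ((hnT b).1 hb))
  obtain ⟨hs1p, hs1c⟩ := (hnT s1).1 hs1T
  by_cases hone : ∀ t ∈ T, t = s1
  · exact ⟨_, _, Ed_el hs1p hu huv hs1c fun t ht hc => hone t ((hnT t).2 ⟨ht, hc⟩)⟩
  push Not at hone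
  obtain ⟨t0, ht0, ht0'⟩ := hone
  obtain ⟨s2, hs2T', hs2⟩ := Ed_max (fun k : F g => {z | A.E.S u z ∧ Cr (k * x) (k * y) u z}) (T.erase s1)
    ⟨t0, Finset.mem_erase.2 ⟨ht0', ht0⟩⟩
    (fun a ha b hb => Ed_tot h hu huv a b ((hnT a).1 (Finset.mem_of_mem_erase ha))
      ((hnT b).1 (Finset.mem_of_mem_erase hb)))
  obtain ⟨hne12, hs2T⟩ := Finset.mem_erase.1 hs2T'
  obtain ⟨hs2p, hs2c⟩ := (hnT s2).1 hs2T
  obtain ⟨w, hw⟩ : ∃ w, w = s2 * (s1⁻¹ * u) := ⟨_, rfl⟩
  have hs1i : ph s1⁻¹ = 0 := by rw [ph_inv, hs1p]; rfl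
  have hwP : w ∉ A.E.P := by
    rw [hw, A.kg.P_mul hs2p, A.kg.P_mul hs1i]
    exact hu
  have hwu : A.E.S w u := by
    rw [hw]
    refine k_class h (a := s1⁻¹ * u) (b := s1⁻¹ * v) ?_ ((A.kg.S_mul hs1i).2 huv) ?_ hs2p hu huv
      (cr_comm.1 hs2c)
    · rw [A.kg.P_mul hs1i]
      exact hu
    · rw [← cr_mul s1, mul_inv_cancel_left, mul_inv_cancel_left]
      exact cr_comm.1 hs1c
  have hPC : ∀ z, A.E.S u z → z ∉ A.E.P := fun z hz hh => hu ((GP.col hz).2 hh)
  have huw : A.E.S u w := GP.symm hwu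
  -- a translate whose side of `w` is in the side of `w` of `s2`
  have key : ∀ t, ph t = 0 → (∀ z, A.E.S u z → Cr (s2 * x) (s2 * y) w z → Cr (t * x) (t * y) w z) → t = s2 := by
    intro t ht hcut
    obtain ⟨l, hl⟩ : ∃ l, l = s2 * s1⁻¹ := ⟨_, rfl⟩
    have hlp : ph l = 0 := by rw [hl, ph_mul, hs1i, hs2p]; rfl
    have hli : ph l⁻¹ = 0 := by rw [ph_inv, hlp]; rfl
    have hlu : l * u = w := by rw [hl, hw, mul_assoc]
    have hls : l * s1 = s2 := by rw [hl]; group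
    have hlC : ∀ z, A.E.S u z → A.E.S u (l * z) := by
      intro z hz
      have := (A.kg.S_mul hlp).2 hz
      rw [hlu] at this
      exact GP.trans huw this
    have e0 : ∀ r z, Cr (l⁻¹ * r * x) (l⁻¹ * r * y) u z ↔ Cr (r * x) (r * y) w (l * z) := by
      intro r z
      rw [← Ed_tr (x := x) (y := y) l (l⁻¹ * r) u z, mul_inv_cancel_left, hlu]
    have hl2 : l⁻¹ * s2 = s1 := by rw [← hls, inv_mul_cancel_left]
    have e1 : ∀ z, A.E.S u z → Cr (s1 * x) (s1 * y) u z → Cr (l⁻¹ * t * x) (l⁻¹ * t * y) u z := by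
      intro z hz hc
      rw [e0]
      refine hcut _ (hlC z hz) ?_
      rw [← e0, hl2]
      exact hc
    have hltp : ph (l⁻¹ * t) = 0 := by rw [ph_mul, hli, ht]; rfl
    have hltc := e1 v huv hs1c
    have e2 := hs1 _ ((hnT _).2 ⟨hltp, hltc⟩)
    have e3 : s1 = l⁻¹ * t := Ed_uniq h hu huv ⟨hs1p, hs1c⟩ ⟨hltp, hltc⟩ fun z hz =>
      ⟨e1 z hz, fun hc => (e2 (show z ∈ {z | A.E.S u z ∧ Cr (l⁻¹ * t * x) (l⁻¹ * t * y) u z} from ⟨hz, hc⟩)).2⟩
    rw [← hls, e3, mul_inv_cancel_left]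
  have hsub12 : ∀ z, A.E.S u z → Cr (s2 * x) (s2 * y) u z → Cr (s1 * x) (s1 * y) u z := fun z hz hc =>
    (hs1 s2 hs2T (show z ∈ {z | A.E.S u z ∧ Cr (s2 * x) (s2 * y) u z} from ⟨hz, hc⟩)).2
  -- `s1` separates `u` from `w`
  have hi : Cr (s1 * x) (s1 * y) u w := by
    by_cases hB : Cr (s2 * x) (s2 * y) u w
    · exact hsub12 w huw hB
    · by_contra hcon
      refine hne12 (key s1 hs1p fun z hz hc => ?_).symm
      have h3 : Cr (s2 * x) (s2 * y) u z := by
        by_contra hh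
        exact (Ed_sd h hs2p hu hwP (hPC z hz)).1 hc (iff_of_false hB hh)
      exact (Ed_sd h hs1p hu hwP (hPC z hz)).2 fun hh => hcon (hh.2 (hsub12 z hz h3))
  have hii : ∀ t, ph t = 0 → Cr (t * x) (t * y) u w → t = s1 ∨ t = s2 := by
    intro t ht hc
    by_contra hcon
    push Not at hcon
    refine hcon.2 (key t ht fun z hz hcz => ?_)
    by_contra hz2
    by_cases htv : Cr (t * x) (t * y) u v
    · have hsub : ∀ z, A.E.S u z → Cr (t * x) (t * y) u z → Cr (s2 * x) (s2 * y) u z := fun z hz hc =>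
        (hs2 t (Finset.mem_erase.2 ⟨hcon.1, (hnT t).2 ⟨ht, htv⟩⟩)
          (show z ∈ {z | A.E.S u z ∧ Cr (t * x) (t * y) u z} from ⟨hz, hc⟩)).2
      have h3 := hsub w huw hc
      have h4 : ¬ Cr (s2 * x) (s2 * y) u z := fun hh =>
        (Ed_sd h hs2p hu hwP (hPC z hz)).1 hcz (iff_of_true h3 hh)
      have h5 : ¬ Cr (t * x) (t * y) u z := fun hh => h4 (hsub z hz hh)
      exact hz2 ((Ed_sd h ht hu hwP (hPC z hz)).2 fun hh => h5 (hh.1 hc))
    · have h3 : Cr (t * x) (t * y) u z := by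
        by_contra hh
        exact hz2 ((Ed_sd h ht hu hwP (hPC z hz)).2 fun h4 => hh (h4.1 hc))
      by_cases hB : Cr (s2 * x) (s2 * y) u w
      · have h4 : ¬ Cr (s2 * x) (s2 * y) u z := fun hh =>
          (Ed_sd h hs2p hu hwP (hPC z hz)).1 hcz (iff_of_true hB hh)
        exact nst_cut h hs2p ht (u := u) (v := v) (a := z) (b := w) hu huv hz huw hs2c (cr_swap2.1 hcz) h4 h3 htv
          (fun hh => hz2 (cr_swap2.1 hh))
      · exact nst_cut h hs2p ht (u := u) (v := v) (a := w) (b := z) hu huv huw hz hs2c hcz hB hc htv hz2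
  by_cases hB : Cr (s2 * x) (s2 * y) u w
  · -- remove `s1` and `s2`
    have hgs : gs x y u w = 0 := by
      rw [Ed_gs2 h hs1p hs2p hne12.symm hu hwP hii]
      have e1 : s2⁻¹ * w = s1⁻¹ * u := by rw [hw, inv_mul_cancel_left]
      have h5 := (Ed_iv h hs1p hu hwP).2 hi
      have h6 := (Ed_iv h hs2p hu hwP).2 hB
      rw [e1] at h6 ⊢
      rcases Ed_iv01 x y (s1⁻¹ * u) with h7 | h7 <;> rcases Ed_iv01 x y (s1⁻¹ * w) with h8 | h8 <;>
        rcases Ed_iv01 x y (s2⁻¹ * u) with h9 | h9 <;> rw [h7, h8] at h5 <;> rw [h7, h9] at h6 <;>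
        rw [h7, h8, h9] <;> first | (exfalso; exact h5 rfl) | (exfalso; exact h6 rfl) | norm_num
    have hgs2 : gs x y w v ≠ 0 := by
      have h5 := gs_add x y u w v
      rw [hgs, zero_add] at h5
      rw [h5]
      exact hv
    have hlt : (tfin x y w v).toFinset.card < n := by
      rw [← hn]
      have hsub : (tfin x y w v).toFinset ⊆ T.erase s1 := by
        intro k hk
        rw [Set.Finite.mem_toFinset] at hk
        obtain ⟨hkp, hkc⟩ := hk
        have hk1 : k ≠ s1 := by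
          rintro rfl
          exact cr_opp hi hs1c hkc
        have hk2 : k ≠ s2 := by
          rintro rfl
          exact cr_opp hB hs2c hkc
        have hk3 : ¬ Cr (k * x) (k * y) w u := by
          intro hc
          rcases hii k hkp (cr_swap2.1 hc) with h5 | h5
          · exact hk1 h5
          · exact hk2 h5
        rw [Finset.mem_erase, hnT]
        exact ⟨hk1, hkp, cr_move hkc (Ed_ne h hkp hu).1 (Ed_ne h hkp hu).2 hk3⟩
      exact (Finset.card_le_card hsub).trans_lt (Finset.card_erase_lt_of_mem hs1T)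
    exact ih _ hlt w v hwP (GP.trans hwu huv) hgs2 rfl
  · exact ⟨_, _, Ed_el hs1p hu (GP.symm hwu) hi fun t ht hc =>
      (hii t ht hc).resolve_right fun e => hB (e ▸ hc)⟩

theorem ed_exists (h : Ar A x y) {u v : F g} (hu : u ∉ A.E.P) (huv : A.E.S u v) (hv : gs x y u v ≠ 0) :
    ∃ a b, El A x y a b := by
  exact Ed_ind h _ u v hu huv hv rfl

theorem el_gs (h : Ar A x y) {a b : F g} (he : El A x y a b) : gs x y a b = 1 ∨ gs x y a b = -1 := by
  classical
  have hb : b ∉ A.E.P := fun hh => he.na ((A.E.col he.ab).2 hh)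
  have h1 : ph (1 : F g) = 0 := ph_one
  have hsum : gs x y a b = iv x y b - iv x y a := by
    unfold gs un
    rw [finsum_eq_single _ (⟨1, h1⟩ : KK g)]
    · show iv x y (1 * b) - iv x y (1 * a) = _
      rw [one_mul, one_mul]
    · rintro ⟨k, hk⟩ hk2
      have hki : ph k⁻¹ = 0 := by rw [ph_inv, hk]; rfl
      show iv x y (k * b) - iv x y (k * a) = 0
      by_contra hcon
      have h3 : Cr (k⁻¹ * x) (k⁻¹ * y) a b := by
        rw [← Ed_iv h hki he.na hb, _root_.inv_inv]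
        intro h4
        exact hcon (by rw [h4, sub_self])
      have h4 := he.one _ hki h3
      apply hk2
      apply Subtype.ext
      show k = 1
      rw [← _root_.inv_inv k, h4, inv_one]
  have h5 : iv x y a ≠ iv x y b := by
    have h6 := (Ed_iv h h1 he.na hb).2 (by rw [one_mul, one_mul]; exact he.cr)
    rwa [inv_one, one_mul, one_mul] at h6
  rw [hsum]
  rcases Ed_iv01 x y a with h7 | h7 <;> rcases Ed_iv01 x y b with h8 | h8
  · exact absurd (h7.trans h8.symm) h5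
  · left; rw [h7, h8]; norm_num
  · right; rw [h7, h8]; norm_num
  · exact absurd (h7.trans h8.symm) h5

end TorS
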