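import Mathlib
import Pool.Agent.Lib.MP_05cdf2_gt.S.Gen

/-! MP_05cdf2_gt, stream S, job NF: the low relation of the hull is generated by the relation of `A` and the translates of the arc.

`nf`: Let `(a, b)` be elementary (`El A x y a b`), `K = {ph k = 0}`, `~` = `A.E.S`, and let `Rh u v` (so `u, v ∈ A.P` and no chord of `Rd` crosses `{u, v}`). Induction on the number `m` of `k ∈ K` with
`Cr (k a) (k b) u v` (finite: `tfin a b u v`).
 (m = 0): `u ~ v`: by `A.E.iff u v` it is enough that no chord `z ~ w` above `A` crosses `{u, v}`; by `dual_gen` there is a path from `z` to `w` of steps `Ds`; no step crosses `{u, v}`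
 (`Rd` steps: `Rh`; steps `(k a, k b)`: m = 0), and the vertices of the path are above `A`, hence different from `u`, `v`; so all of them are on the side of `z` of `(u, v)` (`cr_side` or `cr_tri`).
 (m > 0): let `Cr (k a) (k b) u v`. Everything (`Rh`, `Rd`, `~`, `Ds`, the relation to be generated) is invariant under `k`, so (translate by `k⁻¹`) we may assume `Cr a b u v`; or work with the elementary
 chord `(k a, k b)` of the arc `(k x, k y)`. Since `Cr x y a b`, the points `x`, `y` are on different sides of `(a, b)`; say `x` is on the side of `u` (otherwise exchange `x` and `y`; the relation to be generated is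
 symmetric in `x`, `y`; `u = x` is allowed, then `Rh u x` is trivial). Claim: `Rh u x` and `Rh y v`, and fewer than `m` translates of `(a, b)` cross `{u, x}`, resp. `{y, v}`. Then by induction `u ->* x -> y ->* v`.
 Proof of `Rh u x` (the other one is symmetric): suppose `Rd p q` and `Cr p q u x`. `(p, q)` does not cross `{u, v}` (`Rh u v`) nor `{x, y}` (`Rd p q`), so it has `u`, `v` on one side and `x`, `y` on the
 other side. `(a, b)` separates `{u, x}` from `{v, y}`. By `cr_quad'` `(p, q)` and `(a, b)` cross, so `p ~ a` (`GP.noncr`; all are above `A`). `(x, y)` separates `a` from `b` and `p`, `q` are on one side of `(x, y)`,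
 say the side of `a` (the case of `b` is symmetric). Then `Rd a p`: a translate `(k x, k y)` which separates `a` from `p` is not `k = 1`, so it does not separate `a`, `b` (`El.one`), nor `p`, `q` (`Rd p q`), so it
 separates `{a, b}` from `{p, q}`, impossible because these chords cross (`cr_sep`). So `(a, p)` (`Rd a p`) does not cross `{u, v}`, and `p`, `q`, `a` are on one side of `(u, v)`, `b` on the other side (`Cr a b u v`). Also
 `(x, y)` has `a`, `p`, `q` on one side and `b` on the other. `(p, q)` crosses `(a, b)`: `b` is on the side of `(p, q)` of `x, y` or of `u, v`. If `b` is on the side of `{x, y}` then `u`, `v` are on one side of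
 `(p, q)` and `b` not on this side, so `(u, v)` does not separate `b` from `p` (`cr_arc`): contradiction. If `b` is on the side of `{u, v}` then in the same way `(x, y)` does not separate `b` from `p`: contradiction.
 Number of translates: let `k ∈ K` with `Cr (k a) (k b) u x`. We show `Cr (k a) (k b) u v`; then the set for `{u, x}` is contained in the set for `{u, v}` and does not contain `k = 1`. Suppose not. `k ≠ 1` because
 `(a, b)` does not separate `u`, `x`. `(k a, k b)` does not cross `{x, y}` (otherwise `(k⁻¹ x, k⁻¹ y)` crosses `{a, b}`, `k = 1` by `El.one`). So `(k a, k b)` has `u`, `v` on one side and `x`, `y` on the other; `(a, b)`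
 separates `{u, x}` from `{v, y}`; so `(k a, k b)` crosses `(a, b)` (`cr_quad'`) and `k a ~ a`. `(x, y)` does not separate `k a`, `k b`; say they are on the side of `a` (or of `b`: symmetric). A translate `(k' x, k' y)`,
 `k' ∉ {1, k}`, separates neither `a, b` nor `k a, k b`, so (the chords cross, `cr_sep`) it does not separate any two of the four points. The translate `(k x, k y)` separates `k a` from `k b`, not `a` from `b`; let
 `c ∈ {k a, k b}` be the point on the side of `a`, `b`. Then `Rd a c` (`(x, y)` does not separate `a`, `c` either), so `(a, c)` does not cross `{u, v}`, and `(k a, k b)` does not cross `{u, v}`: `a`, `k a`, `k b` are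
 on one side of `(u, v)`, `b` on the other. Now conclude exactly as before with `(p, q) = (k a, k b)`. (Make this common end a lemma.)
`rh_iff`: `Rh u v` iff `u ->* v` (path of steps `Ls`) and `u ∈ A.P`: (<=) steps preserve `Rh u _` (`Rh` is the relation of the Galois pair `GH` below `A`, transitive; a step `p ~ q` with `p ∈ A.P` is `Rh` because chords
 above `A` do not cross it, `GP.not_cross`; a step `(k x, k y)` is `Rh` by the definition of `Rd`). -/

set_option autoImplicit false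

namespace TorS
open TorM TorG TorL TorN

variable {g : ℕ} [NeZero g] {A : Hf g} {x y : F g}

/-- one step below `A` -/
def Ls (A : Hf g) (x y p q : F g) : Prop :=
  (p ∈ A.E.P ∧ A.E.S p q) ∨ ∃ k, ph k = 0 ∧ ((p = k * x ∧ q = k * y) ∨ (p = k * y ∧ q = k * x))

omit [NeZero g] in
private theorem NF_ne {P : Set (F g)} {p u : F g} (hp : p ∉ P) (hu : u ∈ P) : p ≠ u := by
  rintro rfl
  exact hp hu

private theorem NF_end {α : Type} [LinearOrder α] {p q u v x y e f : α} (e1 : Cr p q u x)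
    (e2 : ¬ Cr p q u v) (e3 : ¬ Cr p q x y)
    (k1 : ¬ Cr u v e p) (k2 : Cr u v e f) (m1 : ¬ Cr x y e p) (m2 : Cr x y e f)
    (pu : p ≠ u) (pv : p ≠ v) (px : p ≠ x) (py : p ≠ y)
    (qu : q ≠ u) (qv : q ≠ v) (qx : q ≠ x) (qy : q ≠ y) : False := by
  have a1 : Cr u v p f := cr_move k2 pu.symm pv.symm k1
  have a2 : Cr x y p f := cr_move m2 px.symm py.symm m1
  have pf : p ≠ f := (cr_ne a1).2.2.2.2.2
  have a3 : ¬ Cr x y p q := fun h => e3 (cr_comm.1 h)
  have qf : q ≠ f := by
    rintro rfl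
    exact a3 a2
  rcases cr_tri e1 pf qf with h1 | h1
  · exact cr_arc pu pv qu qv e2 (cr_swap2.1 h1) (cr_swap2.1 a1)
  · exact cr_arc px py qx qy e3 h1 (cr_swap2.1 a2)

private theorem NF_main (h : Ar A x y) {a b : F g} (he : El A x y a b) {u v : F g}
    (hu : u ∈ A.E.P) (hv : v ∈ A.E.P) (huv : Cr a b u v) (hux : ¬ Cr a b u x) {p q : F g}
    (hp : p ∉ A.E.P) (hpq : A.E.S p q) (e1 : Cr p q u x) (e2 : ¬ Cr p q u v) (e3 : ¬ Cr p q x y)
    (H : Cr p q a b → ∀ e, (e = a ∨ e = b) → ¬ Cr x y e p → ¬ Cr u v e p) : False := by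
  have hb : b ∉ A.E.P := fun hb => he.na ((A.E.col he.ab).2 hb)
  have hq : q ∉ A.E.P := fun hq => hp ((A.E.col hpq).2 hq)
  have ha := he.na
  have cxy : Cr a b x y := cr_comm.1 he.cr
  have huy : Cr a b u y := cr_move cxy (NF_ne ha hu) (NF_ne hb hu) (fun h => hux (cr_swap2.1 h))
  have b1 : ¬ Cr a b v y := cr_opp huv huy
  have b2 : Cr p q v x := cr_move e1 (NF_ne hp hv) (NF_ne hq hv) e2
  have b3 : Cr p q v y := cr_move' b2 (NF_ne hp h.py) (NF_ne hq h.py) e3
  have b4 : Cr p q a b := cr_quad' e1 b3 huv hux b1 (NF_ne ha h.px) (NF_ne hb h.px)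
    (NF_ne ha h.py) (NF_ne hb h.py)
  have cuv : Cr u v a b := cr_comm.1 huv
  by_cases hap : Cr x y a p
  · have m1 : ¬ Cr x y b p := cr_opp he.cr hap
    exact NF_end e1 e2 e3 (H b4 b (Or.inr rfl) m1) (cr_swap2.1 cuv) m1 (cr_swap2.1 he.cr)
      (NF_ne hp hu) (NF_ne hp hv) (NF_ne hp h.px) (NF_ne hp h.py)
      (NF_ne hq hu) (NF_ne hq hv) (NF_ne hq h.px) (NF_ne hq h.py)
  · exact NF_end e1 e2 e3 (H b4 a (Or.inl rfl) hap) cuv hap he.cr
      (NF_ne hp hu) (NF_ne hp hv) (NF_ne hp h.px) (NF_ne hp h.py)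
      (NF_ne hq hu) (NF_ne hq hv) (NF_ne hq h.px) (NF_ne hq h.py)

private theorem NF_rd (h : Ar A x y) {a b : F g} (he : El A x y a b) {p q e c : F g}
    (hp : p ∉ A.E.P) (hpq : A.E.S p q)
    (hcr : Cr p q a b) (hee : e = a ∨ e = b) (hc : c = p ∨ c = q)
    (H : ∀ k, ph k = 0 → Cr (k * x) (k * y) e c → ¬ Cr (k * x) (k * y) a b ∧ ¬ Cr (k * x) (k * y) p q) :
    Rd A x y e c := by
  have hb : b ∉ A.E.P := fun hb => he.na ((A.E.col he.ab).2 hb)
  have hq : q ∉ A.E.P := fun hq => hp ((A.E.col hpq).2 hq)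
  have ha := he.na
  have hpa : A.E.S p a := A.E.noncr he.ab hpq hcr
  have hpe : A.E.S p e := by
    rcases hee with rfl | rfl
    · exact hpa
    · exact GP.trans hpa he.ab
  have hec : A.E.S e c := by
    rcases hc with rfl | rfl
    · exact GP.symm hpe
    · exact GP.trans (GP.symm hpe) hpq
  refine ⟨?_, hec, fun k hk hk2 => ?_⟩
  · rcases hee with rfl | rfl
    · exact ha
    · exact hb
  obtain ⟨n1, n2⟩ := H k hk hk2
  have kx : k * x ∈ A.E.P := (A.kg.P_mul hk).2 h.px
  have ky : k * y ∈ A.E.P := (A.kg.P_mul hk).2 h.py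
  have n1' : ¬ Cr (k * x) (k * y) b a := fun h => n1 (cr_swap2.1 h)
  have n2' : ¬ Cr (k * x) (k * y) q p := fun h => n2 (cr_swap2.1 h)
  have c1 : Cr (k * x) (k * y) a c ∧ Cr (k * x) (k * y) b c := by
    rcases hee with rfl | rfl
    · exact ⟨hk2, cr_move hk2 (NF_ne hb kx).symm (NF_ne hb ky).symm n1⟩
    · exact ⟨cr_move hk2 (NF_ne ha kx).symm (NF_ne ha ky).symm n1', hk2⟩
  have c2 : (Cr (k * x) (k * y) a p ∧ Cr (k * x) (k * y) b p) ∧
      (Cr (k * x) (k * y) a q ∧ Cr (k * x) (k * y) b q) := by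
    rcases hc with rfl | rfl
    · exact ⟨c1, cr_move' c1.1 (NF_ne hq kx).symm (NF_ne hq ky).symm n2,
        cr_move' c1.2 (NF_ne hq kx).symm (NF_ne hq ky).symm n2⟩
    · exact ⟨⟨cr_move' c1.1 (NF_ne hp kx).symm (NF_ne hp ky).symm n2',
        cr_move' c1.2 (NF_ne hp kx).symm (NF_ne hp ky).symm n2'⟩, c1⟩
  exact cr_sep c2.1.1 c2.1.2 c2.2.1 c2.2.2 (cr_comm.1 hcr)

private theorem NF_c1 (h : Ar A x y) {a b : F g} (he : El A x y a b) {u v : F g}
    (huv : Rh A x y u v) (hcr : Cr a b u v) (hux : ¬ Cr a b u x) : Rh A x y u x := by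
  refine ⟨huv.1, h.px, fun p q hpq e1 => ?_⟩
  refine NF_main h he huv.1 huv.2.1 hcr hux hpq.1 hpq.2.1 e1 (huv.2.2 p q hpq) ?_ ?_
  · intro hc
    refine hpq.2.2 1 ph_one ?_
    rw [one_mul, one_mul]
    exact cr_comm.1 hc
  · intro hcab e hee hne hcr2
    refine huv.2.2 e p ?_ (cr_comm.1 hcr2)
    refine NF_rd h he hpq.1 hpq.2.1 hcab hee (Or.inl rfl) (fun k hk hk2 => ⟨fun hk3 => ?_, hpq.2.2 k hk⟩)
    have hk1 := he.one k hk hk3
    rw [hk1, one_mul, one_mul] at hk2
    exact hne hk2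

private theorem NF_c3 (h : Ar A x y) {a b : F g} (he : El A x y a b) {u v : F g}
    (huv : Rh A x y u v) (hcr : Cr a b u v) (hux : ¬ Cr a b u x) {k : F g} (hk : ph k = 0)
    (e1 : Cr (k * a) (k * b) u x) : Cr (k * a) (k * b) u v := by
  by_contra e2
  have hk1 : k ≠ 1 := by
    rintro rfl
    rw [one_mul, one_mul] at e1
    exact hux e1
  have hb : b ∉ A.E.P := fun hb => he.na ((A.E.col he.ab).2 hb)
  have hp : k * a ∉ A.E.P := fun h' => he.na ((A.kg.P_mul hk).1 h')
  have hq : k * b ∉ A.E.P := fun h' => hb ((A.kg.P_mul hk).1 h')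
  have hpq : A.E.S (k * a) (k * b) := (A.kg.S_mul hk).2 he.ab
  have e3 : ¬ Cr (k * a) (k * b) x y := by
    intro hc
    apply hk1
    have h1 : Cr (k⁻¹ * x) (k⁻¹ * y) a b := by
      have h2 := (cr_mul k⁻¹ (k * a) (k * b) x y).2 hc
      rw [inv_mul_cancel_left, inv_mul_cancel_left] at h2
      exact cr_comm.1 h2
    have h3 := he.one k⁻¹ (by rw [ph_inv, hk, neg_zero]) h1
    exact inv_eq_one.1 h3
  refine NF_main h he huv.1 huv.2.1 hcr hux hp hpq e1 e2 e3 ?_
  intro hcab e hee hne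
  have e3' : ¬ Cr x y (k * a) (k * b) := fun h => e3 (cr_comm.1 h)
  have hne2 : ¬ Cr x y e (k * b) := by
    intro h1
    rcases cr_tri h1 (NF_ne hp h.px).symm (NF_ne hp h.py).symm with h2 | h2
    · exact hne h2
    · exact e3' h2
  have hkk : Cr (k * x) (k * y) (k * a) (k * b) := (cr_mul k x y a b).2 he.cr
  have one' : ∀ k', ph k' = 0 → Cr (k' * x) (k' * y) (k * a) (k * b) → k' = k := by
    intro k' hk' hc
    have h2 := (cr_mul k⁻¹ (k' * x) (k' * y) (k * a) (k * b)).2 hc
    rw [inv_mul_cancel_left, inv_mul_cancel_left, ← mul_assoc, ← mul_assoc] at h2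
    have h3 := he.one (k⁻¹ * k') (by rw [ph_mul, ph_inv, hk, hk']; simp) h2
    exact (inv_mul_eq_one.1 h3).symm
  by_cases hc : Cr (k * x) (k * y) e (k * a)
  · have hc' : ¬ Cr (k * x) (k * y) e (k * b) := cr_opp (cr_swap2.1 hc) hkk
    have hRd : Rd A x y e (k * b) := by
      refine NF_rd h he hp hpq hcab hee (Or.inr rfl) (fun k' hk' hk2 => ⟨fun hk3 => ?_, fun hk3 => ?_⟩)
      · have h1 := he.one k' hk' hk3
        rw [h1, one_mul, one_mul] at hk2
        exact hne2 hk2
      · have h1 := one' k' hk' hk3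
        rw [h1] at hk2
        exact hc' hk2
    have h3 := huv.2.2 e (k * b) hRd
    intro h4
    rcases cr_tri h4 (NF_ne hq huv.1).symm (NF_ne hq huv.2.1).symm with h5 | h5
    · exact h3 (cr_comm.1 h5)
    · exact e2 (cr_comm.1 (cr_swap2.1 h5))
  · have hRd : Rd A x y e (k * a) := by
      refine NF_rd h he hp hpq hcab hee (Or.inl rfl) (fun k' hk' hk2 => ⟨fun hk3 => ?_, fun hk3 => ?_⟩)
      · have h1 := he.one k' hk' hk3
        rw [h1, one_mul, one_mul] at hk2
        exact hne hk2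
      · have h1 := one' k' hk' hk3
        rw [h1] at hk2
        exact hc hk2
    exact fun h4 => huv.2.2 e (k * a) hRd (cr_comm.1 h4)

/-! invariance and symmetry -/

private theorem NF_rd_mul {k : F g} (hk : ph k = 0) {p q : F g} (h : Rd A x y p q) :
    Rd A x y (k * p) (k * q) := by
  refine ⟨fun h' => h.1 ((A.kg.P_mul hk).1 h'), (A.kg.S_mul hk).2 h.2.1, fun k' hk' hc => ?_⟩
  have h2 := (cr_mul k⁻¹ (k' * x) (k' * y) (k * p) (k * q)).2 hc
  rw [inv_mul_cancel_left, inv_mul_cancel_left, ← mul_assoc, ← mul_assoc] at h2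
  exact h.2.2 (k⁻¹ * k') (by rw [ph_mul, ph_inv, hk, hk']; simp) h2

private theorem NF_rh_mul {k : F g} (hk : ph k = 0) {p q : F g} (h : Rh A x y p q) :
    Rh A x y (k * p) (k * q) := by
  refine ⟨(A.kg.P_mul hk).2 h.1, (A.kg.P_mul hk).2 h.2.1, fun c d hcd hc => ?_⟩
  have h2 := (cr_mul k⁻¹ c d (k * p) (k * q)).2 hc
  rw [inv_mul_cancel_left, inv_mul_cancel_left] at h2
  exact h.2.2 _ _ (NF_rd_mul (k := k⁻¹) (by rw [ph_inv, hk, neg_zero]) hcd) h2

private theorem NF_ls_mul {k : F g} (hk : ph k = 0) {p q : F g} (h : Ls A x y p q) :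
    Ls A x y (k * p) (k * q) := by
  rcases h with ⟨h1, h2⟩ | ⟨k', hk', h1⟩
  · exact Or.inl ⟨(A.kg.P_mul hk).2 h1, (A.kg.S_mul hk).2 h2⟩
  · refine Or.inr ⟨k * k', by rw [ph_mul, hk, hk']; simp, ?_⟩
    rcases h1 with ⟨h1, h2⟩ | ⟨h1, h2⟩
    · left
      rw [h1, h2, mul_assoc, mul_assoc]
      exact ⟨rfl, rfl⟩
    · right
      rw [h1, h2, mul_assoc, mul_assoc]
      exact ⟨rfl, rfl⟩

private theorem NF_rd_swap {p q : F g} (h : Rd A x y p q) : Rd A y x p q :=
  ⟨h.1, h.2.1, fun k hk hc => h.2.2 k hk (cr_swap1.1 hc)⟩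

private theorem NF_rh_swap {p q : F g} (h : Rh A x y p q) : Rh A y x p q :=
  ⟨h.1, h.2.1, fun c d hcd => h.2.2 c d (NF_rd_swap hcd)⟩

private theorem NF_rh_symm {p q : F g} (h : Rh A x y p q) : Rh A x y q p :=
  ⟨h.2.1, h.1, fun c d hcd hc => h.2.2 c d hcd (cr_swap2.1 hc)⟩

private theorem NF_el_swap {a b : F g} (h : El A x y a b) : El A y x a b :=
  ⟨h.na, h.ab, cr_swap1.1 h.cr, fun k hk hc => h.one k hk (cr_swap1.1 hc)⟩

private theorem NF_ls_swap {p q : F g} (h : Ls A y x p q) : Ls A x y p q := by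
  rcases h with h | ⟨k, hk, h1 | h1⟩
  · exact Or.inl h
  · exact Or.inr ⟨k, hk, Or.inr h1⟩
  · exact Or.inr ⟨k, hk, Or.inl h1⟩

/-- one reduction: `a`, `b` cross `u`, `v`, and `x` is on the side of `u` -/
private theorem NF_red (h : Ar A x y) {a b : F g} (he : El A x y a b) {u v : F g}
    (huv : Rh A x y u v) (hcr : Cr a b u v) (hux : ¬ Cr a b u x) :
    (Rh A x y u x ∧ ∀ k, ph k = 0 → Cr (k * a) (k * b) u x → Cr (k * a) (k * b) u v) ∧
    (Rh A x y y v ∧ ∀ k, ph k = 0 → Cr (k * a) (k * b) y v → Cr (k * a) (k * b) u v) ∧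
    ¬ Cr a b y v := by
  have hb : b ∉ A.E.P := fun hb => he.na ((A.E.col he.ab).2 hb)
  have ha := he.na
  have cxy : Cr a b x y := cr_comm.1 he.cr
  have huy : Cr a b u y := cr_move cxy (NF_ne ha huv.1) (NF_ne hb huv.1) (fun h => hux (cr_swap2.1 h))
  have hvy : ¬ Cr a b v y := cr_opp hcr huy
  have h' := ar_symm h
  have he' := NF_el_swap he
  have hvu : Rh A y x v u := NF_rh_swap (NF_rh_symm huv)
  have c1 := NF_c1 h' he' hvu (cr_swap2.1 hcr) hvy
  refine ⟨⟨NF_c1 h he huv hcr hux, fun k hk hc => NF_c3 h he huv hcr hux hk hc⟩,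
    ⟨NF_rh_symm (NF_rh_swap c1), fun k hk hc => ?_⟩, fun hc => hvy (cr_swap2.1 hc)⟩
  exact cr_swap2.1 (NF_c3 h' he' hvu (cr_swap2.1 hcr) hvy hk (cr_swap2.1 hc))

/-- the case without crossings -/
private theorem NF_zero (h : Ar A x y) {a b : F g} (he : El A x y a b) {u v : F g}
    (huv : Rh A x y u v) (h0 : ∀ k, ph k = 0 → ¬ Cr (k * a) (k * b) u v) : A.E.S u v := by
  have hb : b ∉ A.E.P := fun hb => he.na ((A.E.col he.ab).2 hb)
  rw [A.E.iff]
  refine ⟨iff_of_true huv.1 huv.2.1, fun z w hzw hc hcr => ?_⟩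
  have hz : z ∉ A.E.P := fun h' => (hc.1 h') huv.1
  have hpath := dual_gen h he hz hzw
  have key : ∀ w', Relation.ReflTransGen (Ds A x y a b) z w' → ¬ Cr z w' u v := by
    intro w' hw'
    induction hw' with
    | refl => exact not_cr_same
    | @tail p q _ hpq ih =>
      have hp : p ∉ A.E.P ∧ ¬ Cr p q u v := by
        rcases hpq with h1 | ⟨k, hk, ⟨h1, h2⟩ | ⟨h1, h2⟩⟩
        · exact ⟨h1.1, huv.2.2 p q h1⟩
        · rw [h1, h2]
          exact ⟨fun h' => he.na ((A.kg.P_mul hk).1 h'), h0 k hk⟩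
        · rw [h1, h2]
          exact ⟨fun h' => hb ((A.kg.P_mul hk).1 h'), fun h' => h0 k hk (cr_swap1.1 h')⟩
      intro h1
      have h2 : Cr u v z q := cr_comm.1 h1
      rcases cr_tri h2 (NF_ne hp.1 huv.1).symm (NF_ne hp.1 huv.2.1).symm with h3 | h3
      · exact ih (cr_comm.1 h3)
      · exact hp.2 (cr_comm.1 h3)
  exact key w hpath hcr

private theorem NF_step (h : Ar A x y) {a b : F g} (he : El A x y a b) (n : ℕ) : ∀ {u v : F g},
    Rh A x y u v → {k : F g | ph k = 0 ∧ Cr (k * a) (k * b) u v}.ncard ≤ n →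
    Relation.ReflTransGen (Ls A x y) u v := by
  induction n with
  | zero =>
    intro u v huv hn
    have h0 : {k : F g | ph k = 0 ∧ Cr (k * a) (k * b) u v} = ∅ :=
      (Set.ncard_eq_zero (tfin a b u v)).1 (Nat.le_zero.1 hn)
    refine Relation.ReflTransGen.single (Or.inl ⟨huv.1, NF_zero h he huv (fun k hk hc => ?_)⟩)
    have : k ∈ ({k : F g | ph k = 0 ∧ Cr (k * a) (k * b) u v}) := ⟨hk, hc⟩
    rw [h0] at this
    exact this
  | succ n ih =>
    intro u v huv hn
    by_cases hex : ∃ k, ph k = 0 ∧ Cr (k * a) (k * b) u v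
    · obtain ⟨k₀, hk₀, hc₀⟩ := hex
      -- translate
      have hk₀' : ph k₀⁻¹ = 0 := by rw [ph_inv, hk₀, neg_zero]
      have huv' : Rh A x y (k₀⁻¹ * u) (k₀⁻¹ * v) := NF_rh_mul hk₀' huv
      have hc1 : Cr a b (k₀⁻¹ * u) (k₀⁻¹ * v) := by
        have h2 := (cr_mul k₀⁻¹ (k₀ * a) (k₀ * b) u v).2 hc₀
        rwa [inv_mul_cancel_left, inv_mul_cancel_left] at h2
      have hcard : {k : F g | ph k = 0 ∧ Cr (k * a) (k * b) (k₀⁻¹ * u) (k₀⁻¹ * v)}.ncard ≤ n + 1 := by
        refine le_trans ?_ hn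
        refine Set.ncard_le_ncard_of_injOn (fun k => k₀ * k) ?_ (fun p _ q _ hpq => mul_left_cancel hpq)
          (tfin a b u v)
        rintro k ⟨hk, hc⟩
        refine ⟨by rw [ph_mul, hk₀, hk]; simp, ?_⟩
        have h2 := (cr_mul k₀ (k * a) (k * b) (k₀⁻¹ * u) (k₀⁻¹ * v)).2 hc
        rwa [mul_inv_cancel_left, mul_inv_cancel_left, ← mul_assoc, ← mul_assoc] at h2
      have main : Relation.ReflTransGen (Ls A x y) (k₀⁻¹ * u) (k₀⁻¹ * v) := by
        clear hn hc₀
        generalize k₀⁻¹ * u = u' at *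
        generalize k₀⁻¹ * v = v' at *
        have hlt : ∀ s t : F g, ¬ Cr a b s t →
            (∀ k, ph k = 0 → Cr (k * a) (k * b) s t → Cr (k * a) (k * b) u' v') →
            {k : F g | ph k = 0 ∧ Cr (k * a) (k * b) s t}.ncard ≤ n := by
          intro s t h1 h2
          have h3 : {k : F g | ph k = 0 ∧ Cr (k * a) (k * b) s t} ⊂
              {k : F g | ph k = 0 ∧ Cr (k * a) (k * b) u' v'} := by
            refine ⟨fun k hk => ⟨hk.1, h2 k hk.1 hk.2⟩, fun hsub => h1 ?_⟩
            have h4 : (1 : F g) ∈ {k : F g | ph k = 0 ∧ Cr (k * a) (k * b) u' v'} := by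
              refine ⟨ph_one, ?_⟩
              rw [one_mul, one_mul]
              exact hc1
            have h5 := (hsub h4).2
            rwa [one_mul, one_mul] at h5
          have h4 := Set.ncard_lt_ncard h3 (tfin a b u' v')
          omega
        by_cases hux : Cr a b u' x
        · -- `y` is on the side of `u'`
          have hb : b ∉ A.E.P := fun hb => he.na ((A.E.col he.ab).2 hb)
          have cxy : Cr a b x y := cr_comm.1 he.cr
          have huy : ¬ Cr a b u' y := cr_opp (cr_swap2.1 hux) cxy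
          obtain ⟨⟨r1, r2⟩, ⟨r3, r4⟩, r5⟩ := NF_red (ar_symm h) (NF_el_swap he) (NF_rh_swap huv') hc1 huy
          have p1 := ih (NF_rh_swap r1) (hlt _ _ huy r2)
          have p2 := ih (NF_rh_swap r3) (hlt _ _ r5 r4)
          refine (p1.tail (Or.inr ⟨1, ph_one, Or.inr ⟨(one_mul _).symm, (one_mul _).symm⟩⟩)).trans p2
        · obtain ⟨⟨r1, r2⟩, ⟨r3, r4⟩, r5⟩ := NF_red h he huv' hc1 hux
          have p1 := ih r1 (hlt _ _ hux r2)
          have p2 := ih r3 (hlt _ _ r5 r4)
          refine (p1.tail (Or.inr ⟨1, ph_one, Or.inl ⟨(one_mul _).symm, (one_mul _).symm⟩⟩)).trans p2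
      have h6 := Relation.ReflTransGen.lift (p := Ls A x y) (fun z => k₀ * z)
        (fun p q hpq => NF_ls_mul hk₀ hpq) _ _ main
      have h7 : Relation.ReflTransGen (Ls A x y) (k₀ * (k₀⁻¹ * u)) (k₀ * (k₀⁻¹ * v)) := h6
      rwa [mul_inv_cancel_left, mul_inv_cancel_left] at h7
    · push Not at hex
      exact Relation.ReflTransGen.single (Or.inl ⟨huv.1, NF_zero h he huv hex⟩)

theorem nf (h : Ar A x y) {a b : F g} (he : El A x y a b) {u v : F g} (huv : Rh A x y u v) :
    Relation.ReflTransGen (Ls A x y) u v := by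
  exact NF_step h he _ huv le_rfl

theorem rh_iff (h : Ar A x y) {a b : F g} (he : El A x y a b) {u v : F g} (hu : u ∈ A.E.P) :
    Rh A x y u v ↔ Relation.ReflTransGen (Ls A x y) u v := by
  refine ⟨fun huv => nf h he huv, fun hpath => ?_⟩
  induction hpath with
  | refl => exact ⟨hu, hu, fun c d _ hc => not_cr_same (cr_comm.1 hc)⟩
  | @tail w w' _ hww ih =>
    have h1 : Rh A x y w w' := by
      rcases hww with ⟨h1, h2⟩ | ⟨k, hk, ⟨h1, h2⟩ | ⟨h1, h2⟩⟩
      · refine ⟨h1, (A.E.col h2).1 h1, fun c d hcd => ?_⟩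
        exact GP.not_cross h2 hcd.2.1 (iff_of_false hcd.1 (fun h3 => h3 h1))
      · rw [h1, h2]
        exact ⟨(A.kg.P_mul hk).2 h.px, (A.kg.P_mul hk).2 h.py, fun c d hcd hc =>
          hcd.2.2 k hk (cr_comm.1 hc)⟩
      · rw [h1, h2]
        exact ⟨(A.kg.P_mul hk).2 h.py, (A.kg.P_mul hk).2 h.px, fun c d hcd hc =>
          hcd.2.2 k hk (cr_comm.1 (cr_swap2.1 hc))⟩
    refine ⟨ih.1, h1.2.1, fun c d hcd hc => ?_⟩
    have hd : d ∉ A.E.P := fun hd => hcd.1 ((A.E.col hcd.2.1).2 hd)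
    rcases cr_tri hc (NF_ne hcd.1 h1.1) (NF_ne hd h1.1) with h3 | h3
    · exact ih.2.2 c d hcd h3
    · exact h1.2.2 c d hcd h3

end TorS
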