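import Mathlib
import Pool.Agent.Lib.MP_05cdf2_gt.S.NF

/-! MP_05cdf2_gt, stream S, job HF: the hull is a half space.

`HH A x y h he : Hf g` has `E = GH A x y h` and `J = A.J`.
 `lev`: `A.lev`. `inv`: `GP.ext'`; `Rd`, `Rh` are invariant under translation by `k` of level zero (conjugate: `k * (k' * x) = (k k' k⁻¹) * (k * x)`..., `cr_mul`, `A.kg.S_mul`, `A.kg.P_mul`); `(E.map (lt k)).S u v` is
 `E.S (k⁻¹ u) (k⁻¹ v)` by definition.
 `lo`: `A.lo` gives `M` with `A.E.S x (x * le l)` for `ph x, ph (x * le l) ≤ M`; take `min M A.J` so that `x ∈ A.P`; then `Rh x (x * le l)` (`GP.not_cross`).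
 `hi`: `A.hi` gives `M`; for every letter `l` the set of `z` with `Cr x y z (z * le l)` is finite (`cr_finite x y (le l)`), finitely many letters (`Ltr g` is a Fintype), so there is `N` with `Cr x y z (z * le l) → ph z < N`.
 Take `max (max M (A.J+1)) N`: for `z` with `ph z ≥` this, no translate `(k x, k y)` crosses `(z, z * le l)`: otherwise `(x, y)` crosses `(k⁻¹ z, k⁻¹ z * le l)` and `ph (k⁻¹ z) = ph z ≥ N`. So `Rd z (z * le l)`.
 `lf`: `LF_of_XP` (L/Lat.lean: `XP E x y` = classes of colour `P` which strictly separate; see its definition there): let `p q : F g`. A class of `GH` of colour `P` separating `p`, `q` is `{z | Rh c z}` with `Rh c d`, `Cr c d p q`, `p`, `q` not in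
 the class. By `nf` there is a path of `Ls` steps from `c` to `d`; its vertices are in the class, so different from `p`, `q`; so some step crosses `{p, q}` (`cr_side`). If it is a step `c' ~ d'` of `A` then the `A`-class
 of `c'` strictly separates `p`, `q` (if `c' ~ p` then `Rh c p`, contradiction), it is one of the finitely many classes of `A.lf p q`, and it determines the class of `GH`. If it is a translate of `(x, y)` then `k` is one of
 finitely many (`tfin` with `cr_comm`) and it determines the class. So the set is contained in a finite set.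
`le_HH`: `A ≤ HH`: `A.E.P ⊆ A.E.P`, and `p ∈ A.P`, `A.E.S p q` implies `Rh p q` (`GP.not_cross`).
`HH_S`: `HH.E.S x y`: `Rh x y`.
`HH_least`: `X : Hf g`, `A ≤ X`, `X.E.S x y` imply `HH ≤ X`: `A.P ⊆ X.P`; let `Rh u v`. `X.E.S u v`: `u ∈ X.P`, `v ∈ X.P`; by `X.E.iff` it is enough that no chord `c ~_X d` above `X` crosses `{u, v}`; `c ∉ X.P` implies `c ∉ A.P`;
 `S_of_le'` gives `A.E.S c d`; translates of `(x, y)` are `X`-related below `X` (`X.kg.S_mul`), so they do not cross `{c, d}` (`GP.not_cross`): `Rd c d`. So it does not cross.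
`HH_S_iff` : definition. -/

set_option autoImplicit false

namespace TorS
open TorM TorG TorL TorN

variable {g : ℕ} [NeZero g] {A : Hf g} {x y : F g}

theorem HF_rd {k u v : F g} (hk : ph k = 0) (h : Rd A x y u v) : Rd A x y (k * u) (k * v) := by
  obtain ⟨h1, h2, h3⟩ := h
  refine ⟨fun h4 => h1 ((A.kg.P_mul hk).1 h4), (A.kg.S_mul hk).2 h2, fun k' hk' hc => ?_⟩
  refine h3 (k⁻¹ * k') (by rw [ph_mul, ph_inv, hk, hk', neg_zero, add_zero]) ?_
  rw [← cr_mul k⁻¹, inv_mul_cancel_left, inv_mul_cancel_left, ← mul_assoc, ← mul_assoc] at hc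
  exact hc

theorem HF_rh {k u v : F g} (hk : ph k = 0) (h : Rh A x y u v) : Rh A x y (k * u) (k * v) := by
  obtain ⟨h1, h2, h3⟩ := h
  refine ⟨(A.kg.P_mul hk).2 h1, (A.kg.P_mul hk).2 h2, fun a b hab hc => ?_⟩
  have hk' : ph k⁻¹ = 0 := by rw [ph_inv, hk, neg_zero]
  refine h3 _ _ (HF_rd hk' hab) ?_
  rw [← cr_mul k⁻¹, inv_mul_cancel_left, inv_mul_cancel_left] at hc
  exact hc

theorem HF_gh (h : Ar A x y) {k u v : F g} (hk : ph k = 0) (h' : (GH A x y h).S u v) :
    (GH A x y h).S (k * u) (k * v) := by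
  rcases h' with h1 | h1
  · exact Or.inl (HF_rh hk h1)
  · exact Or.inr (HF_rd hk h1)

theorem HF_of_S {u v : F g} (hu : u ∈ A.E.P) (huv : A.E.S u v) : Rh A x y u v :=
  ⟨hu, (A.E.col huv).1 hu, fun _ _ hab =>
    A.E.not_cross huv hab.2.1 (iff_of_false hab.1 (fun h => h hu))⟩

theorem GH_inv (h : Ar A x y) (k : F g) (hk : ph k = 0) : (GH A x y h).map (lt k) = GH A x y h := by
  refine GP.ext' ?_ fun u v => ?_
  · have h0 : (A.E.map (lt k)).P = A.E.P := by rw [A.inv k hk]
    exact h0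
  · show (GH A x y h).S (k⁻¹ * u) (k⁻¹ * v) ↔ (GH A x y h).S u v
    have hk' : ph k⁻¹ = 0 := by rw [ph_inv, hk, neg_zero]
    constructor
    · intro h1
      have h2 := HF_gh h hk h1
      rwa [mul_inv_cancel_left, mul_inv_cancel_left] at h2
    · exact HF_gh h hk'

/-- a path of steps across a chord contains a step across it -/
theorem HF_step {a b : F g} (h : Ar A x y) (he : El A x y a b) {c d p q : F g} (hc : c ∈ A.E.P)
    (hcd : Relation.ReflTransGen (Ls A x y) c d) (hp : ¬ Rh A x y c p) (hq : ¬ Rh A x y c q) :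
    ¬ Cr c d p q ∨ ∃ c' d', Ls A x y c' d' ∧ Rh A x y c c' ∧ Cr c' d' p q := by
  induction hcd with
  | refl =>
    left
    intro h1
    exact (cr_ne h1).1 rfl
  | @tail w w' hw hs ih =>
    have r1 : Rh A x y c w := (rh_iff h he hc).2 hw
    rcases ih with h1 | h1
    · by_cases h2 : Cr w w' p q
      · exact Or.inr ⟨w, w', hs, r1, h2⟩
      · left
        intro h3
        rcases cr_tri (y := w) (cr_comm.1 h3) (fun h4 => hp (h4 ▸ r1)) (fun h4 => hq (h4 ▸ r1)) with h5 | h5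
        · exact h1 (cr_comm.1 h5)
        · exact h2 (cr_comm.1 h5)
    · exact Or.inr h1

theorem HF_swap {α : Type} [LinearOrder α] {a b c d : α} (h : Cr a b c d) : Cr b a c d := by
  unfold Cr at *
  rcases h with ⟨h1, h2⟩ | ⟨h1, h2⟩
  · exact Or.inr ⟨h2, h1⟩
  · exact Or.inl ⟨h2, h1⟩

theorem GH_lf (h : Ar A x y) (he : ∃ a b, El A x y a b) : LF (GH A x y h) := by
  obtain ⟨a₀, b₀, he⟩ := he
  refine LF_of_XP fun p q => ?_
  refine (((A.lf p q).image fun C => {z | ∃ w ∈ C, (GH A x y h).S w z}).union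
    ((tfin x y p q).image fun k => cl (GH A x y h) (k * x))).subset ?_
  rintro c ⟨a, b, ha, rfl, hab, hcr, hp, hq⟩
  have hab' : Rh A x y a b := by
    rcases hab with h1 | h1
    · exact h1
    · exact absurd ha h1.1
  have hp' : ¬ Rh A x y a p := fun h1 => hp (Or.inl h1)
  have hq' : ¬ Rh A x y a q := fun h1 => hq (Or.inl h1)
  rcases HF_step h he ha (nf h he hab') hp' hq' with h1 | ⟨c', d', hs, hr, hc'⟩
  · exact absurd hcr h1
  · have hcl : ∀ w, Rh A x y a w → cl (GH A x y h) a = cl (GH A x y h) w := fun w hw => cl_eq (Or.inl hw)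
    have htr : ∀ w, Rh A x y c' w → (GH A x y h).S a w := fun w hw =>
      (GH A x y h).trans (Or.inl hr : (GH A x y h).S a c') (Or.inl hw)
    rcases hs with ⟨h1, h2⟩ | ⟨k, hk, h2⟩
    · left
      refine ⟨cl A.E c', ⟨c', d', rfl, h2, hc', fun h3 => hp (htr _ (HF_of_S h1 h3)),
        fun h3 => hq (htr _ (HF_of_S h1 h3))⟩, ?_⟩
      show {z | ∃ w ∈ cl A.E c', (GH A x y h).S w z} = cl (GH A x y h) a
      rw [hcl c' hr]
      ext z
      constructor
      · rintro ⟨w, hw, hz⟩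
        exact (GH A x y h).trans (Or.inl (HF_of_S h1 hw)) hz
      · intro hz
        exact ⟨c', A.E.refl c', hz⟩
    · right
      rcases h2 with ⟨rfl, rfl⟩ | ⟨rfl, rfl⟩
      · exact ⟨k, ⟨hk, hc'⟩, (hcl _ hr).symm⟩
      · refine ⟨k, ⟨hk, HF_swap hc'⟩, ?_⟩
        show cl (GH A x y h) (k * x) = cl (GH A x y h) a
        rw [hcl _ hr]
        refine cl_eq (Or.inl ?_)
        refine HF_rh hk ⟨h.px, h.py, fun a b hab h1 => ?_⟩
        have h2 := hab.2.2 1 ph_one
        rw [one_mul, one_mul] at h2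
        exact h2 (cr_comm.1 h1)

theorem GH_lo (h : Ar A x y) :
    ∃ M, ∀ z (l : Ltr g), ph z ≤ M → ph (z * le l) ≤ M → (GH A x y h).S z (z * le l) := by
  obtain ⟨M, hM⟩ := A.lo
  refine ⟨min M A.J, fun z l h1 h2 => Or.inl ?_⟩
  refine HF_of_S ((A.lev z).2 (h1.trans (min_le_right _ _))) ?_
  exact hM z l (h1.trans (min_le_left _ _)) (h2.trans (min_le_left _ _))

theorem GH_hi (h : Ar A x y) :
    ∃ M, ∀ z (l : Ltr g), M ≤ ph z → M ≤ ph (z * le l) → (GH A x y h).S z (z * le l) := by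
  obtain ⟨M, hM⟩ := A.hi
  have hf : (⋃ l : Ltr g, ph '' {z : F g | Cr x y z (z * le l)}).Finite :=
    Set.finite_iUnion fun l => (cr_finite x y (le l)).image _
  obtain ⟨N, hN⟩ := hf.bddAbove
  refine ⟨max (max M (A.J + 1)) (N + 1), fun z l h1 h2 => Or.inr ?_⟩
  have a1 : M ≤ ph z := ((le_max_left _ _).trans (le_max_left _ _)).trans h1
  have a2 : M ≤ ph (z * le l) := ((le_max_left _ _).trans (le_max_left _ _)).trans h2
  have a3 : A.J + 1 ≤ ph z := ((le_max_right _ _).trans (le_max_left _ _)).trans h1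
  have a4 : N + 1 ≤ ph z := (le_max_right _ _).trans h1
  refine ⟨fun h3 => ?_, hM z l a1 a2, fun k hk hc => ?_⟩
  · rw [A.lev] at h3
    omega
  · rw [← cr_mul k⁻¹, inv_mul_cancel_left, inv_mul_cancel_left, ← mul_assoc] at hc
    have h4 : ph (k⁻¹ * z) ≤ N := hN (Set.mem_iUnion.2 ⟨l, k⁻¹ * z, hc, rfl⟩)
    rw [ph_mul, ph_inv, hk] at h4
    omega

/-- the hull of `A` and an arc -/
noncomputable def HH (A : Hf g) (x y : F g) (h : Ar A x y) (he : ∃ a b, El A x y a b) : Hf g where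
  E := GH A x y h
  J := A.J
  lev z := A.lev z
  inv := GH_inv h
  lf := GH_lf h he
  lo := GH_lo h
  hi := GH_hi h

theorem HH_low (h : Ar A x y) (he : ∃ a b, El A x y a b) {u v : F g} (hu : u ∈ A.E.P) :
    (HH A x y h he).E.S u v ↔ Rh A x y u v := by
  constructor
  · rintro (h1 | h1)
    · exact h1
    · exact absurd hu h1.1
  · exact Or.inl

theorem HH_high (h : Ar A x y) (he : ∃ a b, El A x y a b) {u v : F g} (hu : u ∉ A.E.P) :
    (HH A x y h he).E.S u v ↔ Rd A x y u v := by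
  constructor
  · rintro (h1 | h1)
    · exact absurd h1.1 hu
    · exact h1
  · exact Or.inr

theorem le_HH (h : Ar A x y) (he : ∃ a b, El A x y a b) : A ≤ HH A x y h he :=
  ⟨fun _ h1 => h1, fun _ _ h1 h2 => Or.inl (HF_of_S h1 h2)⟩

theorem HH_S (h : Ar A x y) (he : ∃ a b, El A x y a b) : (HH A x y h he).E.S x y := by
  refine Or.inl ⟨h.px, h.py, fun a b hab h1 => ?_⟩
  have h2 := hab.2.2 1 ph_one
  rw [one_mul, one_mul] at h2
  exact h2 (cr_comm.1 h1)

theorem HH_least (h : Ar A x y) (he : ∃ a b, El A x y a b) {X : Hf g} (h1 : A ≤ X) (h2 : X.E.S x y) :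
    HH A x y h he ≤ X := by
  have hE : A.E ≤ X.E := h1
  refine ⟨fun _ h3 => hE.1 h3, fun u v hu huv => ?_⟩
  have hu' : u ∈ A.E.P := hu
  have hr : Rh A x y u v := (HH_low h he hu').1 huv
  rw [X.E.iff]
  refine ⟨iff_of_true (hE.1 hr.1) (hE.1 hr.2.1), fun c d hcd hc => ?_⟩
  have hc' : c ∉ X.E.P := fun h3 => (hc.1 h3) (hE.1 hr.1)
  refine hr.2.2 c d ⟨fun h3 => hc' (hE.1 h3), S_of_le' hE hc' hcd, fun k hk => ?_⟩
  exact X.E.not_cross hcd ((X.kg.S_mul hk).2 h2)
    (iff_of_true ((X.kg.P_mul hk).2 (hE.1 h.px)) hc')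

end TorS
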