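import Mathlib
import Pool.Agent.Lib.MP_05cdf2_gt.S.Gs

/-! MP_05cdf2_gt, stream S, job Self: the cochain of a closed arc.

`K = {ph k = 0}`. `gs u (k u) = un (iv u (k u))`.
`gs_zeta`: `k ∈ K`: `gs u (k * u) z (z * ζ) = 0`. The term of `h ∈ K` is `iv u (k u) (h z ζ) - iv u (k u) (h z)`, which is `[h z ζ = u] - [h z ζ = k u]` for `k ≠ 1` (`zζ` is the successor of `z` in the cyclic order: see the proof of `TT_lt` in N6/NSt.lean, which
 contains exactly this computation as `key`: `(if u⁻¹ (h ζ) < γ then 1 else 0) - (if u⁻¹ h < γ then 1 else 0) = (if h = u ζ⁻¹ then 1 else 0) - (if h = u γ ζ⁻¹ then 1 else 0)`, `γ = u⁻¹ (k u)`). There is `h ∈ K` with `h z ζ = u` iff `ph z = ph u` (then exactly one, `h = u ζ⁻¹ z⁻¹`), and the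
 same for `k u` because `ph (k u) = ph u`. So the two sums are equal. (For `k = 1`: `gs_self`.)
`gs_loop`: `k ∈ K`: `gs u (k u) u (k u) = 0`. Terms: `t(h) = iv u (k u) (h k u) - iv u (k u) (h u)`, `h ∈ K`. Translate by `u⁻¹` (conjugation is a bijection of `K`): we may assume `u = 1`: `t(h) = iv 1 k (h k) - iv 1 k h` with `iv 1 k z = [z < k]` (or keep `u`). Let `k ≠ 1` (else
 `gs_self`). For `h ∉ {1, k, k⁻¹}` the sets `{1, k}` and `{h, h k}` are disjoint (`h k = k` iff `h = 1`; `h k = 1` iff `h = k⁻¹`), so by `iv_anti` (for `(1, k)` and `(h, h k)`) and `iv_K`: `t(h) = iv 1 k (h k) - iv 1 k h = -(iv h (h k) k - iv h (h k) 1) = -(iv 1 k (h⁻¹ k) - iv 1 k h⁻¹) =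
 - t(h⁻¹)`. The set `K \ {1, k, k⁻¹}` is stable under inversion, so the sum of `t` over it is zero (`∑ t(h) = ∑ t(h⁻¹) = - ∑ t(h)`). The three remaining terms: `t(1) = iv 1 k k - iv 1 k 1 = 0 - 1 = -1`. `t(k) = iv 1 k (k²) - iv 1 k k = iv 1 k (k²)`. `t(k⁻¹) = iv 1 k 1 - iv 1 k k⁻¹ = 1 - iv 1 k k⁻¹`.
 `iv 1 k k⁻¹ = iv k (k²) 1` (`iv_K`), and by `iv_cyc` (`k² ∉ {1, k}`, `k ≠ k²`, the free group is torsion free: `k² ≠ 1`): `iv 1 k (k²) = [Cyc 1 (k²) k]`, `iv k (k²) 1 = [Cyc k 1 (k²)]`, which are equal (rotation of `Cyc`). And `k ≠ k⁻¹`. Sum: `-1 + c + 1 - c = 0`. (`finsum` splits: the support is finite, `un_fin`.)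
`gs_low`: Let `h : Ar A x y`, `k ∈ K`, `A.E.S x y0`, `k y0 = y`, `gap A.E y x = tr k (gap A.E x y)`. Let `p ∈ A.P`, `A.E.S p q`. Claim `gs y0 (k y0) p q = 0`. Write `~ = A.E.S`.
 The term of `h' ∈ K` in `gs y0 (k y0) p q` (with `h' = h⁻¹`): `t(h) = iv y0 (k y0) (h⁻¹ q) - iv y0 (k y0) (h⁻¹ p) = iv (h y0) (h k y0) q - iv (h y0) (h k y0) p` (`iv_K`). 
 (1) If `h y0` and `h k y0 = h y` are both not related to `p` then `t(h) = 0`: otherwise `(h y0, h y)` crosses `(p, q)` (`iv_cr`); `(h x, h y0)` does not cross `(p, q)`... (`GP.noncr`: crossing chords of the same relation are in one class, `h x ~ h y0` is not `~ p`), so `(p, q)` crosses `(h x, h y)` (`cr_side`; `h x ≠ p, q`) and by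
  `Ar.cmp` for the arc `(h x, h y)` (`ar_K`) `p ~ h x ~ h y0` or `p ~ h y`: contradiction.
 (2) Let `G = {h ∈ K | h y0 ~ p}`. `h ∈ G` implies `h k ∉ G` (otherwise `h k y0 ~ p ~ h y0`, so `y = k y0 ~ y0 ~ x`, contradiction to `ns`). So `gs = ∑_{h ∈ G} t(h) + ∑_{h : h k ∈ G} t(h) = ∑_{h ∈ G} (t(h) + t(h k⁻¹))`.
  `t(h) + t(h k⁻¹) = [iv (h y0) (h k y0) + iv (h k⁻¹ y0) (h y0)] (q) - [..] (p) = iv (h k⁻¹ y0) (h k y0) q - iv (h k⁻¹ y0) (h k y0) p` (`iv_trip`). This is zero: the points `h k⁻¹ y0` and `h k y0` are in the gap `tr h D` of the class of `p` (`= h [x]`), `D = gap A.E x y`: `k y0 = y ∈ D`; `k⁻¹ y0 ∈ D` iff `y0 ∈ tr k D = gap A.E y x`,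
  true because `x ∈ gap A.E y x` (`mem_gap_self`) and the gap is saturated (`gap_sat`). So chords of the class of `p` do not separate them (`gap_gap`), and they are not in the class; so `(p, q)` does not cross `(h k⁻¹ y0, h k y0)`, and `iv_cr` (if `h k⁻¹ y0 = h k y0` then `gs`-term zero trivially: `iv z z = 0`). -/

set_option autoImplicit false

namespace TorS
open TorM TorG TorL TorN

variable {g : ℕ} [NeZero g] {A : Hf g} {x y : F g}

theorem ivx_self (x y : F g) : iv x y y = 0 := by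
  unfold iv
  exact if_neg (lt_irrefl _)

theorem ivx_left {x y : F g} (h : x ≠ y) : iv x y x = 1 := by
  unfold iv
  rw [inv_mul_cancel]
  refine if_pos (one_lt fun h1 => h ?_)
  rw [← mul_right_inj x⁻¹, h1, inv_mul_cancel]

theorem ivx_same (x z : F g) : iv x x z = 0 := by
  unfold iv
  rw [inv_mul_cancel]
  exact if_neg (not_lt.2 (one_le _))

open Classical in
theorem iv_key {u y : F g} (huy : u ≠ y) (h : F g) : iv u y (h * zeta g) - iv u y h =
    (if h = u * (zeta g)⁻¹ then 1 else 0) - (if h = y * (zeta g)⁻¹ then 1 else 0) := by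
  have hz : zeta g ≠ 1 := zeta_ne_one (NeZero.pos g)
  have hmax : ∀ x : F g, x ≤ (zeta g)⁻¹ := by
    intro x
    by_contra h
    have h2 := succ_le (not_le.1 h)
    rw [inv_mul_cancel] at h2
    exact absurd (one_le (zeta g)⁻¹) (not_le.2 h2.1)
  obtain ⟨γ, hγ⟩ : ∃ γ : F g, y = u * γ := ⟨u⁻¹ * y, by rw [mul_inv_cancel_left]⟩
  have hγ1 : γ ≠ 1 := by
    rintro rfl
    exact huy (by rw [hγ, mul_one])
  subst hγ
  unfold iv
  rw [inv_mul_cancel_left]
  by_cases h1 : h = u * (zeta g)⁻¹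
  · have e1 : u⁻¹ * (h * zeta g) = 1 := by rw [h1]; group
    have e2 : u⁻¹ * h = (zeta g)⁻¹ := by rw [h1]; group
    have h3 : h ≠ u * γ * (zeta g)⁻¹ := by
      intro h3
      rw [h1] at h3
      have h4 := mul_right_cancel h3
      exact hγ1 (by rw [← mul_right_inj u, ← h4, mul_one])
    rw [e1, e2, if_pos (one_lt hγ1), if_neg (not_lt.2 (hmax γ)), if_pos h1, if_neg h3]
  · have h5 : u⁻¹ * h < (zeta g)⁻¹ := by
      refine lt_of_le_of_ne (hmax _) fun h6 => h1 ?_
      rw [← h6, mul_inv_cancel_left]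
    have h7 := succ_le h5
    rw [if_neg h1]
    have e3 : u⁻¹ * (h * zeta g) = u⁻¹ * h * zeta g := by group
    rw [e3]
    by_cases h8 : h = u * γ * (zeta g)⁻¹
    · have e4 : u⁻¹ * h * zeta g = γ := by rw [h8]; group
      rw [e4, if_neg (lt_irrefl γ), if_pos, if_pos h8]
      · rw [← e4]
        exact h7.1
    · rw [if_neg h8]
      by_cases h9 : u⁻¹ * h < γ
      · have h10 := (succ_le h9).2
        have h11 : u⁻¹ * h * zeta g ≠ γ := by
          intro h12
          refine h8 ?_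
          rw [← h12]
          group
        rw [if_pos h9, if_pos (lt_of_le_of_ne h10 h11)]
        ring
      · rw [if_neg h9, if_neg]
        intro h13
        exact h9 (h7.1.trans h13)

open Classical in
theorem kk_fin (z w : F g) : (Function.support fun h : KK g => if h.1 * z = w then (1 : ℚ) else 0).Finite := by
  have hinj : Function.Injective fun k : KK g => k.1 * z := fun k k' h => Subtype.ext (mul_right_cancel h)
  refine ((Set.finite_singleton w).preimage hinj.injOn).subset fun k hk => ?_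
  by_contra h
  exact hk (if_neg h)

open Classical in
theorem kk_one (z w : F g) : (∑ᶠ h : KK g, if h.1 * z = w then (1 : ℚ) else 0) = if ph z = ph w then 1 else 0 := by
  by_cases hzw : ph z = ph w
  · have h0 : ph (w * z⁻¹) = 0 := by rw [ph_mul, ph_inv, hzw]; ring
    rw [if_pos hzw, finsum_eq_single _ (⟨w * z⁻¹, h0⟩ : KK g), if_pos]
    · exact inv_mul_cancel_right w z
    · intro k hk
      refine if_neg fun h => hk (Subtype.ext ?_)
      show k.1 = w * z⁻¹
      rw [← h, mul_inv_cancel_right]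
  · rw [if_neg hzw]
    refine finsum_eq_zero_of_forall_eq_zero fun k => if_neg fun h => hzw ?_
    rw [← h, ph_mul, k.2, zero_add]

theorem gs_zeta (u : F g) {k : F g} (hk : ph k = 0) (z : F g) : gs u (k * u) z (z * zeta g) = 0 := by
  classical
  by_cases h1 : u = k * u
  · rw [← h1, gs_self]
    rfl
  show (∑ᶠ h : KK g, (iv u (k * u) (h.1 * (z * zeta g)) - iv u (k * u) (h.1 * z))) = 0
  have e1 : ∀ h : KK g, iv u (k * u) (h.1 * (z * zeta g)) - iv u (k * u) (h.1 * z) =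
      (if h.1 * z = u * (zeta g)⁻¹ then (1 : ℚ) else 0) - (if h.1 * z = k * u * (zeta g)⁻¹ then (1 : ℚ) else 0) := by
    intro h
    rw [← mul_assoc]
    exact iv_key h1 (h.1 * z)
  rw [finsum_congr e1, finsum_sub_distrib (kk_fin _ _) (kk_fin _ _), kk_one, kk_one]
  have e2 : ph (u * (zeta g)⁻¹) = ph (k * u * (zeta g)⁻¹) := by
    rw [ph_mul, ph_mul, ph_mul, hk, zero_add]
  rw [e2, sub_self]

/-- inversion on the points of level zero -/
def kinv (g : ℕ) [NeZero g] : KK g ≃ KK g where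
  toFun k := ⟨k.1⁻¹, by rw [ph_inv, k.2, neg_zero]⟩
  invFun k := ⟨k.1⁻¹, by rw [ph_inv, k.2, neg_zero]⟩
  left_inv k := Subtype.ext (_root_.inv_inv k.1)
  right_inv k := Subtype.ext (_root_.inv_inv k.1)

theorem gs_loop (u : F g) {k : F g} (hk : ph k = 0) : gs u (k * u) u (k * u) = 0 := by
  classical
  by_cases hk1 : k = 1
  · rw [hk1, one_mul, gs_self]
    rfl
  have hkk : k * k ≠ 1 := by
    intro h
    refine hk1 ?_
    have h2 : k ^ 2 = 1 := by rw [pow_two, h]
    exact (pow_eq_one_iff_left (two_ne_zero)).1 h2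
  have n1 : u ≠ k * u := fun h => hk1 (by
    have := mul_right_cancel (a := (1 : F g)) (b := u) (c := k) (by rw [one_mul]; exact h)
    exact this.symm)
  let t : KK g → ℚ := fun h => iv u (k * u) (h.1 * (k * u)) - iv u (k * u) (h.1 * u)
  have ht : (Function.support t).Finite := un_fin (iv_fj u (k * u)) u (k * u)
  have ht' : (Function.support fun h => t (kinv g h)).Finite := ht.preimage (kinv g).injective.injOn
  have e0 : gs u (k * u) u (k * u) = ∑ᶠ h : KK g, t h := rfl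
  have e1 : (∑ᶠ h : KK g, t (kinv g h)) = ∑ᶠ h : KK g, t h := finsum_comp_equiv (kinv g)
  have e2 : (∑ᶠ h : KK g, (t h + t (kinv g h))) = 2 * gs u (k * u) u (k * u) := by
    rw [finsum_add_distrib ht ht', e1, e0]
    ring
  let i1 : KK g := ⟨1, ph_one⟩
  let ik : KK g := ⟨k, hk⟩
  let ii : KK g := ⟨k⁻¹, by rw [ph_inv, hk, neg_zero]⟩
  have hne : ∀ h : KK g, h ≠ i1 → h ≠ ik → h ≠ ii → t h + t (kinv g h) = 0 := by
    intro h h1 h2 h3
    have m1 : h.1 ≠ 1 := fun e => h1 (Subtype.ext e)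
    have m2 : h.1 ≠ k := fun e => h2 (Subtype.ext e)
    have m3 : h.1 ≠ k⁻¹ := fun e => h3 (Subtype.ext e)
    have a1 : h.1 * u ≠ h.1 * (k * u) := fun e => n1 (mul_left_cancel e)
    have a2 : h.1 * u ≠ u := fun e => m1 (by
      have := mul_right_cancel (a := h.1) (b := u) (c := 1) (by rw [one_mul]; exact e)
      exact this)
    have a3 : h.1 * u ≠ k * u := fun e => m2 (mul_right_cancel e)
    have a4 : h.1 * (k * u) ≠ u := by
      intro e
      refine m3 ?_
      rw [← mul_assoc] at e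
      have h5 : h.1 * k = 1 := mul_right_cancel (b := u) (by rw [one_mul]; exact e)
      exact eq_inv_of_mul_eq_one_left h5
    have a5 : h.1 * (k * u) ≠ k * u := by
      intro e
      refine m1 ?_
      exact mul_right_cancel (b := k * u) (by rw [one_mul]; exact e)
    have b1 := iv_anti n1 a1 a2 a3 a4 a5
    have b2 : iv (h.1 * u) (h.1 * (k * u)) (k * u) = iv u (k * u) (h.1⁻¹ * (k * u)) := by
      have := iv_K h.1 u (k * u) (h.1⁻¹ * (k * u))
      rw [mul_inv_cancel_left] at this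
      exact this
    have b3 : iv (h.1 * u) (h.1 * (k * u)) u = iv u (k * u) (h.1⁻¹ * u) := by
      have := iv_K h.1 u (k * u) (h.1⁻¹ * u)
      rw [mul_inv_cancel_left] at this
      exact this
    rw [b2, b3] at b1
    show iv u (k * u) (h.1 * (k * u)) - iv u (k * u) (h.1 * u) +
      (iv u (k * u) (h.1⁻¹ * (k * u)) - iv u (k * u) (h.1⁻¹ * u)) = 0
    rw [b1]
    ring
  have t1 : t i1 = -1 := by
    show iv u (k * u) (1 * (k * u)) - iv u (k * u) (1 * u) = -1
    rw [one_mul, one_mul, ivx_self, ivx_left n1]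
    ring
  have tk : t ik = iv u (k * u) (k * (k * u)) := by
    show iv u (k * u) (k * (k * u)) - iv u (k * u) (k * u) = _
    rw [ivx_self]
    ring
  have hcyc : iv u (k * u) (k⁻¹ * u) = iv u (k * u) (k * (k * u)) := by
    have c1 : iv u (k * u) (k⁻¹ * u) = iv (k * u) (k * (k * u)) u := by
      have := iv_K k u (k * u) (k⁻¹ * u)
      rw [mul_inv_cancel_left] at this
      exact this.symm
    have q1 : k * (k * u) ≠ u := by
      intro e
      rw [← mul_assoc] at e
      exact hkk (mul_right_cancel (b := u) (by rw [one_mul]; exact e))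
    have q2 : k * (k * u) ≠ k * u := fun e => n1 (mul_left_cancel e).symm
    rw [c1, iv_cyc q2.symm n1 q1.symm, iv_cyc n1 q1 q2]
    have q3 : Cyc (k * u) u (k * (k * u)) ↔ Cyc u (k * (k * u)) (k * u) :=
      ⟨fun h => h.rot, fun h => h.rot.rot⟩
    by_cases q4 : Cyc (k * u) u (k * (k * u))
    · rw [if_pos q4, if_pos (q3.1 q4)]
    · rw [if_neg q4, if_neg fun h => q4 (q3.2 h)]
  have ti : t ii = 1 - iv u (k * u) (k * (k * u)) := by
    show iv u (k * u) (k⁻¹ * (k * u)) - iv u (k * u) (k⁻¹ * u) = _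
    rw [inv_mul_cancel_left, ivx_left n1, hcyc]
  have d1 : i1 ≠ ik := fun e => hk1 (congrArg Subtype.val e).symm
  have d2 : i1 ≠ ii := fun e => hk1 (by
    have h5 : (1 : F g) = k⁻¹ := congrArg Subtype.val e
    rw [← _root_.inv_inv k, ← h5, inv_one])
  have d3 : ik ≠ ii := fun e => hkk (by
    have h5 : k = k⁻¹ := congrArg Subtype.val e
    rw [← mul_inv_cancel k]
    exact congrArg (fun y => k * y) h5)
  have v1 : kinv g i1 = i1 := Subtype.ext (inv_one)
  have v2 : kinv g ik = ii := rfl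
  have v3 : kinv g ii = ik := Subtype.ext (_root_.inv_inv k)
  have e3 : (∑ᶠ h : KK g, (t h + t (kinv g h))) = ∑ h ∈ ({i1, ik, ii} : Finset (KK g)), (t h + t (kinv g h)) := by
    refine finsum_eq_sum_of_support_subset _ fun h hh => ?_
    by_contra hcon
    rw [Finset.mem_coe, Finset.mem_insert, Finset.mem_insert, Finset.mem_singleton] at hcon
    push Not at hcon
    exact hh (hne h hcon.1 hcon.2.1 hcon.2.2)
  rw [Finset.sum_insert, Finset.sum_insert, Finset.sum_singleton, v1, v2, v3, t1, tk, ti] at e3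
  · rw [e2] at e3
    linarith
  · rw [Finset.mem_singleton]
    exact d3
  · rw [Finset.mem_insert, Finset.mem_singleton]
    push Not
    exact ⟨d1, d2⟩

/-- the terms of the signed count -/
noncomputable def tau (y0 k p q m : F g) : ℚ := iv (m * y0) (m * (k * y0)) q - iv (m * y0) (m * (k * y0)) p

theorem gs_tau (y0 k p q : F g) : gs y0 (k * y0) p q = ∑ᶠ m : KK g, tau y0 k p q m.1 := by
  rw [← finsum_comp_equiv (kinv g)]
  show (∑ᶠ h : KK g, (iv y0 (k * y0) (h.1 * q) - iv y0 (k * y0) (h.1 * p))) = _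
  refine finsum_congr fun h => ?_
  show _ = iv (h.1⁻¹ * y0) (h.1⁻¹ * (k * y0)) q - iv (h.1⁻¹ * y0) (h.1⁻¹ * (k * y0)) p
  have e1 := iv_K h.1⁻¹ y0 (k * y0) (h.1 * q)
  have e2 := iv_K h.1⁻¹ y0 (k * y0) (h.1 * p)
  rw [inv_mul_cancel_left] at e1 e2
  rw [e1, e2]

theorem tau_fin (y0 k p q : F g) : (Function.support fun m : KK g => tau y0 k p q m.1).Finite := by
  have h1 := (un_fin (iv_fj y0 (k * y0)) p q).preimage (kinv g).injective.injOn
  refine h1.subset fun m hm => ?_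
  show iv y0 (k * y0) (m.1⁻¹ * q) - iv y0 (k * y0) (m.1⁻¹ * p) ≠ 0
  have hm' : iv (m.1 * y0) (m.1 * (k * y0)) q - iv (m.1 * y0) (m.1 * (k * y0)) p ≠ 0 := hm
  have e1 := iv_K m.1 y0 (k * y0) (m.1⁻¹ * q)
  have e2 := iv_K m.1 y0 (k * y0) (m.1⁻¹ * p)
  rw [mul_inv_cancel_left] at e1 e2
  rw [← e1, ← e2]
  exact hm'

theorem tau_zero (h : Ar A x y) {k y0 : F g} (hy0 : A.E.S x y0) (hy : k * y0 = y)
    {p q : F g} (hp : p ∈ A.E.P) (hpq : A.E.S p q) {m : F g} (hm : ph m = 0)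
    (h1 : ¬ A.E.S (m * y0) p) (h2 : ¬ A.E.S (m * y) p) : tau y0 k p q m = 0 := by
  unfold tau
  rw [hy, sub_eq_zero]
  by_contra hne
  have hne' : iv (m * y0) (m * y) p ≠ iv (m * y0) (m * y) q := fun e => hne e.symm
  have hyy : y0 ≠ y := by
    rintro rfl
    exact h.ns hy0
  have a0 : m * y0 ≠ m * y := fun e => hyy (mul_left_cancel e)
  have a1 : p ≠ m * y0 := by
    rintro rfl
    exact h1 (GP.refl _)
  have a2 : p ≠ m * y := by
    rintro rfl
    exact h2 (GP.refl _)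
  have a3 : q ≠ m * y0 := by
    rintro rfl
    exact h1 (GP.symm hpq)
  have a4 : q ≠ m * y := by
    rintro rfl
    exact h2 (GP.symm hpq)
  have c1 : Cr (m * y0) (m * y) p q := (iv_cr a0 a1 a2 a3 a4).1 hne'
  have s1 : A.E.S (m * x) (m * y0) := (A.kg.S_mul hm).2 hy0
  have n1 : ¬ A.E.S (m * x) p := fun e => h1 (GP.trans (GP.symm s1) e)
  have c2 : ¬ Cr p q (m * y0) (m * x) := by
    intro c
    exact n1 (GP.noncr hpq s1 (cr_swap1.1 (cr_comm.1 c)))
  have b1 : p ≠ m * x := by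
    rintro rfl
    exact n1 (GP.refl _)
  have b2 : q ≠ m * x := by
    rintro rfl
    exact n1 (GP.symm hpq)
  have c3 : Cr p q (m * x) (m * y) := cr_move (cr_comm.1 c1) b1 b2 c2
  rcases (ar_K h hm).cmp p q hp hpq c3 with h3 | h3
  · exact n1 (GP.symm h3)
  · exact h2 (GP.symm h3)

theorem tau_two (h : Ar A x y) {k y0 : F g} (hk : ph k = 0) (hy0 : A.E.S x y0) (hy : k * y0 = y)
    (hg : gap A.E y x = tr k (gap A.E x y)) {p q : F g} (hpq : A.E.S p q) {m : F g} (hm : ph m = 0)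
    (h1 : A.E.S (m * y0) p) : tau y0 k p q m + tau y0 k p q (m * k⁻¹) = 0 := by
  unfold tau
  have e0 : m * k⁻¹ * (k * y0) = m * y0 := by group
  rw [e0]
  have e1 := iv_trip (m * k⁻¹ * y0) (m * y0) (m * (k * y0)) q p
  have hcl : iv (m * k⁻¹ * y0) (m * (k * y0)) q = iv (m * k⁻¹ * y0) (m * (k * y0)) p := by
    have f1 := iv_K m (k⁻¹ * y0) (k * y0) (m⁻¹ * q)
    have f2 := iv_K m (k⁻¹ * y0) (k * y0) (m⁻¹ * p)
    rw [mul_inv_cancel_left, ← mul_assoc m k⁻¹ y0] at f1 f2
    rw [f1, f2]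
    by_cases hkk : k⁻¹ * y0 = k * y0
    · rw [hkk, ivx_same, ivx_same]
    have s1 : A.E.S (m⁻¹ * (m * y0)) (m⁻¹ * p) := (A.kg.S_mul (by rw [ph_inv, hm, neg_zero])).2 h1
    rw [inv_mul_cancel_left] at s1
    have s2 : A.E.S x (m⁻¹ * p) := GP.trans hy0 s1
    have s3 : A.E.S (m⁻¹ * p) (m⁻¹ * q) := (A.kg.S_mul (by rw [ph_inv, hm, neg_zero])).2 hpq
    have s4 : A.E.S x (m⁻¹ * q) := GP.trans s2 s3
    have g1 : k * y0 ∈ gap A.E x y := by
      rw [hy]
      exact mem_gap_self h.ns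
    have nyx : ¬ A.E.S y x := fun e => h.ns (GP.symm e)
    have g2 : k⁻¹ * y0 ∈ gap A.E x y := by
      have g3 : y0 ∈ gap A.E y x := ((gap_sat nyx).sat x y0 hy0).1 (mem_gap_self nyx)
      rw [hg] at g3
      exact g3
    have c1 := gap_gap h.ns g2 g1 s2 s4
    by_contra hne
    refine c1 (cr_comm.1 ((iv_cr hkk ?_ ?_ ?_ ?_).1 fun e => hne e.symm))
    · intro e
      exact notMem_gap s2 (e ▸ g2)
    · intro e
      exact notMem_gap s2 (e ▸ g1)
    · intro e
      exact notMem_gap s4 (e ▸ g2)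
    · intro e
      exact notMem_gap s4 (e ▸ g1)
  linarith

theorem gs_low (h : Ar A x y) {k y0 : F g} (hk : ph k = 0) (hy0 : A.E.S x y0) (hy : k * y0 = y)
    (hg : gap A.E y x = tr k (gap A.E x y)) {p q : F g} (hp : p ∈ A.E.P) (hpq : A.E.S p q) :
    gs y0 (k * y0) p q = 0 := by
  classical
  rw [gs_tau]
  let e : KK g ≃ KK g :=
    { toFun := fun m => ⟨m.1 * k⁻¹, by rw [ph_mul, ph_inv, m.2, hk]; ring⟩
      invFun := fun m => ⟨m.1 * k, by rw [ph_mul, m.2, hk]; ring⟩
      left_inv := fun m => Subtype.ext (inv_mul_cancel_right m.1 k)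
      right_inv := fun m => Subtype.ext (mul_inv_cancel_right m.1 k) }
  let f1 : KK g → ℚ := fun m => if A.E.S (m.1 * y0) p then tau y0 k p q m.1 else 0
  let f2 : KK g → ℚ := fun m => if A.E.S (m.1 * (k * y0)) p then tau y0 k p q m.1 else 0
  have hs1 : (Function.support f1).Finite := (tau_fin y0 k p q).subset fun m hm h0 => hm (by
    show (if A.E.S (m.1 * y0) p then tau y0 k p q m.1 else 0) = 0
    by_cases h1 : A.E.S (m.1 * y0) p
    · rw [if_pos h1]
      exact h0
    · rw [if_neg h1])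
  have hs2 : (Function.support f2).Finite := (tau_fin y0 k p q).subset fun m hm h0 => hm (by
    show (if A.E.S (m.1 * (k * y0)) p then tau y0 k p q m.1 else 0) = 0
    by_cases h1 : A.E.S (m.1 * (k * y0)) p
    · rw [if_pos h1]
      exact h0
    · rw [if_neg h1])
  have nyy : ¬ A.E.S y0 (k * y0) := fun e => h.ns (GP.trans hy0 (hy ▸ e))
  have e1 : ∀ m : KK g, tau y0 k p q m.1 = f1 m + f2 m := by
    intro m
    show _ = (if A.E.S (m.1 * y0) p then tau y0 k p q m.1 else 0) +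
      (if A.E.S (m.1 * (k * y0)) p then tau y0 k p q m.1 else 0)
    by_cases h1 : A.E.S (m.1 * y0) p
    · have h2 : ¬ A.E.S (m.1 * (k * y0)) p := fun h2 =>
        nyy ((A.kg.S_mul m.2).1 (GP.trans h1 (GP.symm h2)))
      rw [if_pos h1, if_neg h2, add_zero]
    · by_cases h2 : A.E.S (m.1 * (k * y0)) p
      · rw [if_neg h1, if_pos h2, zero_add]
      · rw [if_neg h1, if_neg h2, add_zero]
        refine tau_zero h hy0 hy hp hpq m.2 h1 ?_
        rw [← hy]
        exact h2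
  rw [finsum_congr e1, finsum_add_distrib hs1 hs2, ← finsum_comp_equiv e (f := f2),
    ← finsum_add_distrib hs1 (hs2.preimage e.injective.injOn)]
  refine finsum_eq_zero_of_forall_eq_zero fun m => ?_
  show (if A.E.S (m.1 * y0) p then tau y0 k p q m.1 else 0) +
    (if A.E.S (m.1 * k⁻¹ * (k * y0)) p then tau y0 k p q (m.1 * k⁻¹) else 0) = 0
  have e3 : m.1 * k⁻¹ * (k * y0) = m.1 * y0 := by group
  rw [e3]
  by_cases h1 : A.E.S (m.1 * y0) p
  · rw [if_pos h1, if_pos h1]
    exact tau_two h hk hy0 hy hg hpq m.2 h1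
  · rw [if_neg h1, if_neg h1, add_zero]

end TorS
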