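import Mathlib
import Pool.Agent.Lib.MP_05cdf2_gt.S.Ed
import Pool.Agent.Lib.MP_05cdf2_gt.S.Self

/-! MP_05cdf2_gt, stream S, job Vis: visibility of arcs.

`~ = A.E.S`, `D = gap A.E x y`, `D' = gap A.E y x`: both are lines (`ln_gap A.lf h.px h.ns`, `ln_gap A.lf h.py ..`), `x ∉ D`, `y ∈ D`, `y ∉ D'`, `x ∈ D'`.
`line_sep`: if `G` is a line of `A` (`Ln A.E G`) which separates `x` from `y`, then `G = D` or `G = D'`. Proof: let `m`, `l` be adjacent for `G` (`Ln.adj`: `Adj A.E G m l`, `m ∈ A.P`, `m ∉ G`, `l ∈ G`, `l ∉ A.P`), `G = gap A.E m l'` for every `l' ∈ G` (`Adj.eq_gap_of_mem`). The class of `m` has the two points `gn G ^ n * m` and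
 crosses: if `x ∉ G`, `y ∈ G`: by `cross_orbit` (for the cut `Gᶜ`, `gn` of the complement generates the same stabiliser; or for `G`) there are two points `m1, m2` of the orbit of `m` (related to `m`: `KG.orb_out`) with `Cr m1 m2 x y`, hence by `Ar.cmp` `m ~ x` or `m ~ y`; `m ~ y` is impossible because `y ∈ G`, `m ∉ G`, `G` saturated;
 so `m ~ x` and `G = gap A.E m y = gap A.E x y = D` (`gap_class`). If `x ∈ G`, `y ∉ G` then in the same way `G = gap A.E y x = D'`.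
`cq_arc`: if `D' ∉ orbK D` then `cq D x y = 1`: `cq D x y = ∑` over the translates of `D` of `ch`; translates of `D` are lines (`A.kg.ln_tr`), a translate separating `x`, `y` is `D` or `D'`, not `D'`; `ws_single`, `ch_one`.
`vis_diff`: take `l` with `Adj A.E D m l`, `l ∈ D`, `l ∉ A.P`; `(u, v) = (l, gn D * l)`: related (`KG.orb_inn`, `n = 1`), above `A`. `gs x y l (gn D l) = - gs l (gn D l) x y` (`gs_anti`; `l`, `gn D l ∉ A.P`, `k x, k y ∈ A.P`; `l ≠ gn D * l`: `gn_ne`) `= - cq D x y` (`gs_cq`) `= -1 ≠ 0`.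
`vis_self`: suppose `gs x y u v = 0` for all `u ~ v` above `A`. Let `tr k D = D'` (`k ∈ K`), `y0 = k⁻¹ y`. `x ~ y0`: `D` and `D' = tr k D` ; `y ∉ D'` is in the class adjacent outside `D'`: let `m` be adjacent outside `D`: `D = gap A.E m y`.. precisely `gap A.E x y = D` and `gap A.E y0 (k⁻¹ x) = tr k⁻¹ D' = D` (translate), `x, y0 ∉ D`, so `x ~ y0` by
 `gap_inj` (with a common point `y` in `D`: `gap A.E y0 (k⁻¹ x) = gap A.E y0 y` by `gap_congr`). Let `c' = gs y0 (k y0) = gs y0 x + gs x y` (`gs_mul`). `c' ∈ ZZ A A` (`mem_ZE`, `mem_CC`): additive `gs_add`, invariant `gs_K`, boundary `gs_zeta`, below `A`: `gs_low`; above `A`: `gs y0 x u v = 0` by `gs_zero` (translates of the chord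
 `(y0, x)`, related below `A`, do not cross `(u, v)`: `GP.not_cross`; if `y0 = x` use `gs_self`) and `gs x y u v = 0` by assumption. By `BB_low` (hypothesis of this file, proved elsewhere: take it as the argument `hB`) `BB c' c = 0`. But `BB c' c = c y0 (k y0) = c y0 y = c y0 x + c x y = c x y ≠ 0` (`BB_gs`; `c y0 x = 0` by `hc'`).
`self_mem`: `y0 = k⁻¹ y`, `c' = gs y0 (k y0)`: as in `vis_self` `c' ∈ CC g` and `c'` is zero on `A`-related pairs below `A` (`gs_low`). `c' x y = c' x y0 + c' y0 y = 0 + c' y0 (k y0) = 0` (`gs_loop`; `k y0 = y`). So `c'` is zero on `H`-related pairs below (`hlow`). Above: `H.E.S u v`, `u ∉ A.P` gives `Rd u v`: no translate of `(x, y)`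
 and no translate of `(y0, x)` (related below `A`) crosses `(u, v)`: `c' u v = gs y0 x u v + gs x y u v = 0` (`gs_mul`, `gs_zero`). Conclude with `mem_ZZ`. -/

set_option autoImplicit false

namespace TorS
open TorM TorG TorL TorN

variable {g : ℕ} [NeZero g] {A : Hf g} {x y : F g}

/-- translates of gaps -/
theorem vs_gap_tr {k : F g} (hk : ph k = 0) (a b : F g) : gap A.E (k * a) (k * b) = tr k (gap A.E a b) := by
  ext z
  rw [mem_tr]
  constructor
  · rintro ⟨h1, h2⟩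
    refine ⟨fun h3 => h1 ?_, fun c d hc hd hcr => h2 (k * c) (k * d) ((A.kg.S_mul hk).2 hc) ((A.kg.S_mul hk).2 hd) ?_⟩
    · have := (A.kg.S_mul hk).2 h3
      rwa [mul_inv_cancel_left] at this
    · have := (cr_mul k c d b (k⁻¹ * z)).2 hcr
      rwa [mul_inv_cancel_left] at this
  · rintro ⟨h1, h2⟩
    refine ⟨fun h3 => h1 ?_, fun c d hc hd hcr => h2 (k⁻¹ * c) (k⁻¹ * d) ?_ ?_ ?_⟩
    · apply (A.kg.S_mul hk).1
      rwa [mul_inv_cancel_left]
    · apply (A.kg.S_mul hk).1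
      rwa [mul_inv_cancel_left]
    · apply (A.kg.S_mul hk).1
      rwa [mul_inv_cancel_left]
    · have := (cr_mul k⁻¹ c d (k * b) z).2 hcr
      rwa [inv_mul_cancel_left] at this

theorem vs_line (h : Ar A x y) {G : Set (F g)} (hG : Ln A.E G) (hx : x ∉ G) (hy : y ∈ G) :
    G = gap A.E x y := by
  obtain ⟨m, l, hml, hm, hl⟩ := hG.adj
  have hw : WCut G := A.kg.wcut hG.1
  have ho : OrbS A.E Gᶜ m := (orbS_compl hw).2 (A.kg.orb_out hG.1 hml)
  obtain ⟨n, n', hcr⟩ := cross_orbit hw.compl (show m ∈ Gᶜ from hml.out) (show x ∈ Gᶜ from hx)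
    (show y ∉ Gᶜ from fun hh => hh hy)
  have h1 : A.E.S m (gn Gᶜ ^ n * m) := ho n
  have h2 : gn Gᶜ ^ n * m ∈ A.E.P := (A.E.col h1).1 hm
  have hmx : A.E.S m x := by
    rcases h.cmp _ _ h2 (ho.two n n') (cr_swap2.1 hcr) with h3 | h3
    · exact GP.trans h1 h3
    · exact absurd ((hG.1.sat _ _ (GP.trans h1 h3)).2 hy) hml.out
  rw [← gap_class hmx]
  exact hml.eq_gap_of_mem A.lf hG.1 hy

theorem line_sep (h : Ar A x y) {G : Set (F g)} (hG : Ln A.E G) (hs : ¬ (x ∈ G ↔ y ∈ G)) :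
    G = gap A.E x y ∨ G = gap A.E y x := by
  by_cases hx : x ∈ G
  · have hy : y ∉ G := fun hy => hs (iff_of_true hx hy)
    exact Or.inr (vs_line (ar_symm h) hG hy hx)
  · have hy : y ∈ G := by
      by_contra hy
      exact hs (iff_of_false hx hy)
    exact Or.inl (vs_line h hG hx hy)

theorem cq_arc (h : Ar A x y) (hne : gap A.E y x ∉ orbK (gap A.E x y)) : cq (gap A.E x y) x y = 1 := by
  have hD : Ln A.E (gap A.E x y) := ln_gap A.lf h.px h.ns
  have h1 : gap A.E x y ∈ orbK (gap A.E x y) := ⟨1, ph_one, (tr_one _).symm⟩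
  have h2 : cnt (gap A.E x y) x y = ch (gap A.E x y) x y • (1 : ℤ) := by
    unfold cnt
    refine ws_single (fun _ => (1 : ℤ)) h1 fun G hG hGne => ?_
    by_contra hs
    obtain ⟨k, hk, e⟩ := id hG
    have hL : Ln A.E G := by
      rw [e]
      exact (A.kg.ln_tr hk).2 hD
    rcases line_sep h hL hs with h3 | h3
    · exact hGne h3
    · exact hne (h3 ▸ hG)
  unfold cq
  rw [h2, ch_one (notMem_gap (GP.refl x)) (mem_gap_self h.ns)]
  simp

theorem vs_ends (h : Ar A x y) {u : F g} (hu : u ∉ A.E.P) : ∀ k, ph k = 0 → k * u ≠ x ∧ k * u ≠ y := by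
  intro k hk
  have h1 : k * u ∉ A.E.P := fun h2 => hu ((A.kg.P_mul hk).1 h2)
  exact ⟨fun e => h1 (e ▸ h.px), fun e => h1 (e ▸ h.py)⟩

theorem vis_diff (h : Ar A x y) (hne : gap A.E y x ∉ orbK (gap A.E x y)) :
    ∃ u v, u ∉ A.E.P ∧ A.E.S u v ∧ gs x y u v ≠ 0 ∧ v = gn (gap A.E x y) * u := by
  have hD : Ln A.E (gap A.E x y) := ln_gap A.lf h.px h.ns
  obtain ⟨m, l, hml, hm, hl⟩ := hD.adj
  have hK : KCut (gap A.E x y) := A.kg.kcut hD.1
  have h1 : A.E.S l (gn (gap A.E x y) * l) := by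
    have := A.kg.orb_inn hD.1 hml 1
    rwa [zpow_one] at this
  have hl2 : gn (gap A.E x y) * l ∉ A.E.P := fun h2 => hl ((A.E.col h1).2 h2)
  have hne2 : l ≠ gn (gap A.E x y) * l := by
    intro e
    have e2 : 1 * l = gn (gap A.E x y) * l := by
      rw [one_mul]
      exact e
    exact gn_ne hK (mul_right_cancel e2).symm
  refine ⟨l, _, hl, h1, ?_, rfl⟩
  rw [gs_anti (ar_ne h) hne2 (vs_ends h hl) (vs_ends h hl2), ← gs_cq hK hml.inn, cq_arc h hne]
  norm_num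

theorem self_y0 (h : Ar A x y) {k : F g} (hk : ph k = 0) (hg : gap A.E y x = tr k (gap A.E x y)) :
    A.E.S x (k⁻¹ * y) := by
  have hk' : ph k⁻¹ = 0 := by
    rw [ph_inv, hk, neg_zero]
  have h1 : gap A.E (k⁻¹ * y) (k⁻¹ * x) = gap A.E x y := by
    rw [vs_gap_tr hk', hg, tr_tr, inv_mul_cancel, tr_one]
  have hyx : ¬ A.E.S y x := fun hh => h.ns (GP.symm hh)
  have hns : ¬ A.E.S (k⁻¹ * y) (k⁻¹ * x) := fun hh => hyx ((A.kg.S_mul hk').1 hh)
  have hy : y ∈ gap A.E (k⁻¹ * y) (k⁻¹ * x) := by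
    rw [h1]
    exact mem_gap_self h.ns
  have h2 : gap A.E (k⁻¹ * y) y = gap A.E (k⁻¹ * y) (k⁻¹ * x) := gap_congr hns hy
  refine gap_inj (D := gap A.E x y) (y := y) (notMem_gap (GP.refl x)) ?_ rfl (h2.trans h1).symm
  rw [← h1]
  exact notMem_gap (GP.refl _)

theorem vs_CC (u : F g) {k : F g} (hk : ph k = 0) : gs u (k * u) ∈ CC g :=
  ⟨fun p q r => gs_add u (k * u) p q r, fun _ hk' p q => gs_K u (k * u) hk' p q, fun z => gs_zeta u hk z⟩

/-- the low part of a self arc is not seen above -/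
theorem vs_low (h : Ar A x y) {y0 u v : F g} (hy0 : A.E.S x y0) (hu : u ∉ A.E.P) (huv : A.E.S u v) :
    gs y0 x u v = 0 := by
  by_cases e : y0 = x
  · rw [e, gs_self]
    rfl
  have hv : v ∉ A.E.P := fun h2 => hu ((A.E.col huv).2 h2)
  have hP : y0 ∈ A.E.P := (A.E.col hy0).1 h.px
  have key : ∀ z, z ∉ A.E.P → ∀ k, ph k = 0 → k * z ≠ y0 ∧ k * z ≠ x := by
    intro z hz k hk
    have h1 : k * z ∉ A.E.P := fun h2 => hz ((A.kg.P_mul hk).1 h2)
    exact ⟨fun e => h1 (e ▸ hP), fun e => h1 (e ▸ h.px)⟩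
  refine gs_zero e (fun k hk => ?_) (key u hu) (key v hv)
  refine A.E.not_cross huv ((A.kg.S_mul hk).2 (GP.symm hy0)) ?_
  exact iff_of_true ((A.kg.P_mul hk).2 hP) hu

theorem vis_self (h : Ar A x y) {k : F g} (hk : ph k = 0) (hg : gap A.E y x = tr k (gap A.E x y))
    (hB : ∀ c' ∈ ZZ A A, ∀ c : F g → F g → ℚ, c ∈ CC g → (∀ p q, p ∈ A.E.P → A.E.S p q → c p q = 0) → BB c' c = 0)
    {c : F g → F g → ℚ} (hc : c ∈ CC g) (hc' : ∀ p q, p ∈ A.E.P → A.E.S p q → c p q = 0) (hn : c x y ≠ 0) :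
    ∃ u v, u ∉ A.E.P ∧ A.E.S u v ∧ gs x y u v ≠ 0 := by
  by_contra hcon
  push Not at hcon
  have hy0 := self_y0 h hk hg
  have hky : k * (k⁻¹ * y) = y := mul_inv_cancel_left k y
  have hm : gs (k⁻¹ * y) (k * (k⁻¹ * y)) ∈ ZZ A A := by
    refine ⟨vs_CC _ hk, fun p q hp hpq => gs_low h hk hy0 hky hg hp hpq, fun u v hu huv => ?_⟩
    rw [hky, ← gs_mul (k⁻¹ * y) x y]
    show gs (k⁻¹ * y) x u v + gs x y u v = 0
    rw [vs_low h hy0 hu huv, hcon u v hu huv, add_zero]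
  have h1 := hB _ hm c hc hc'
  rw [BB_gs hc, hky, ← cc_add hc (k⁻¹ * y) x y] at h1
  have h2 : c (k⁻¹ * y) x = 0 := by
    rw [cc_symm hc, hc' _ _ h.px hy0, neg_zero]
  rw [h2, zero_add] at h1
  exact hn h1

/-- the cochain of a self arc is a cochain of the hull -/
theorem self_mem (h : Ar A x y) {k : F g} (hk : ph k = 0) (hg : gap A.E y x = tr k (gap A.E x y)) {H : Hf g}
    (hP : H.E.P = A.E.P) (hhigh : ∀ u v, u ∉ A.E.P → H.E.S u v → Rd A x y u v)
    (hlow : ∀ c : F g → F g → ℚ, c ∈ CC g → (∀ p q, p ∈ A.E.P → A.E.S p q → c p q = 0) → c x y = 0 →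
      ∀ p q, p ∈ A.E.P → H.E.S p q → c p q = 0) :
    gs (k⁻¹ * y) (k * (k⁻¹ * y)) ∈ ZZ H H := by
  have hy0 := self_y0 h hk hg
  have hky : k * (k⁻¹ * y) = y := mul_inv_cancel_left k y
  have hC : gs (k⁻¹ * y) (k * (k⁻¹ * y)) ∈ CC g := vs_CC _ hk
  have hL : ∀ p q, p ∈ A.E.P → A.E.S p q → gs (k⁻¹ * y) (k * (k⁻¹ * y)) p q = 0 :=
    fun p q hp hpq => gs_low h hk hy0 hky hg hp hpq
  have hxy : gs (k⁻¹ * y) (k * (k⁻¹ * y)) x y = 0 := by
    rw [← cc_add hC x (k⁻¹ * y) y, hL _ _ h.px hy0, zero_add]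
    have := gs_loop (k⁻¹ * y) hk
    rwa [hky] at this ⊢
  refine ⟨hC, fun p q hp hpq => hlow _ hC hL hxy p q (hP ▸ hp) hpq, fun u v hu huv => ?_⟩
  rw [hP] at hu
  have hr := hhigh u v hu huv
  have hv : v ∉ A.E.P := fun h2 => hu ((A.E.col hr.2.1).2 h2)
  rw [hky, ← gs_mul (k⁻¹ * y) x y]
  show gs (k⁻¹ * y) x u v + gs x y u v = 0
  rw [vs_low h hy0 hu hr.2.1, gs_zero (ar_ne h) hr.2.2 (vs_ends h hu) (vs_ends h hv), add_zero]

end TorS
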