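import Pool.Agent.Lib.MP_05cdf2_gt.S.Def
import Pool.Agent.Lib.MP_05cdf2_gt.S.One
import Pool.Agent.Lib.MP_05cdf2_gt.S.Gen
import Pool.Agent.Lib.MP_05cdf2_gt.S.NF
import Pool.Agent.Lib.MP_05cdf2_gt.S.HF
import Pool.Agent.Lib.MP_05cdf2_gt.S.Gs
import Pool.Agent.Lib.MP_05cdf2_gt.S.Ed
import Pool.Agent.Lib.MP_05cdf2_gt.S.Self
import Pool.Agent.Lib.MP_05cdf2_gt.S.Vis
import Pool.Agent.Lib.MP_05cdf2_gt.N6.NSys
import Pool.Agent.Lib.MP_05cdf2_gt.N6.NNum
import Pool.Agent.Lib.MP_05cdf2_gt.N6.NPP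

/-! MP_05cdf2_gt: the single arc lemma. -/

set_option autoImplicit false

namespace TorS
open TorM TorG TorL TorN Module

variable {g : ℕ} [NeZero g] {A : Hf g} {x y : F g}

/-- a subspace on which a functional has kernel inside another subspace -/
theorem mn_rank {M : Type} [AddCommGroup M] [Module ℚ M] (φ : M →ₗ[ℚ] ℚ) (V W : Submodule ℚ M)
    [Module.Finite ℚ V] [Module.Finite ℚ W] (h : ∀ c ∈ V, φ c = 0 → c ∈ W) : finrank ℚ V ≤ finrank ℚ W + 1 := by
  have h1 := LinearMap.finrank_range_add_finrank_ker (φ.domRestrict V)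
  have h2 : finrank ℚ (LinearMap.range (φ.domRestrict V)) ≤ 1 := by
    have := Submodule.finrank_le (LinearMap.range (φ.domRestrict V))
    rwa [finrank_self] at this
  have h3 : finrank ℚ (LinearMap.ker (φ.domRestrict V)) ≤ finrank ℚ W := by
    let f : LinearMap.ker (φ.domRestrict V) →ₗ[ℚ] W :=
      ((V.subtype).comp (LinearMap.ker (φ.domRestrict V)).subtype).codRestrict W (by
        rintro ⟨⟨c, hc⟩, hk⟩
        exact h c hc hk)
    refine LinearMap.finrank_le_finrank_of_injective (f := f) ?_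
    rintro ⟨⟨c, hc⟩, hk⟩ ⟨⟨c', hc'⟩, hk'⟩ he
    have := congrArg Subtype.val he
    apply Subtype.ext
    apply Subtype.ext
    exact this
  omega

/-- the signed count of the arc vanishes on the dual relation -/
theorem mn_rd (h : Ar A x y) {u v : F g} (hr : Rd A x y u v) : gs x y u v = 0 :=
  gs_zero (ar_ne h) hr.2.2 (vs_ends h hr.1) (vs_ends h fun hv => hr.1 ((GP.col hr.2.1).2 hv))

/-- cochains of the hull which vanish on the dual chord are cochains of `A` vanishing on the arc -/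
theorem mn_ker (h : Ar A x y) (he : ∃ a b, El A x y a b) {a b : F g} (hel : El A x y a b)
    {c : F g → F g → ℚ} (hc : c ∈ ZZ (HH A x y h he) (HH A x y h he)) (h0 : c a b = 0) :
    c ∈ ZZ A A ∧ c x y = 0 := by
  rw [mem_ZE] at hc
  refine ⟨?_, hc.2 _ _ (HH_S h he)⟩
  rw [mem_ZE]
  refine ⟨hc.1, fun u v huv => ?_⟩
  by_cases hu : u ∈ A.E.P
  · exact hc.2 _ _ ((le_HH h he).2 _ _ hu huv)
  · refine dual_zero h hel hc.1.1 hc.1.2.1 (fun p q hpq => ?_) h0 hu huv
    exact hc.2 _ _ ((HH_high h he hpq.1).2 hpq)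

theorem mn_count (h : Ar A x y) (he : ∃ a b, El A x y a b) : (fr (HH A x y h he)).card ≤ (fr A).card + 1 := by
  obtain ⟨a, b, hel⟩ := he
  rw [← finrank_ZE, ← finrank_ZE]
  let φ : (F g → F g → ℚ) →ₗ[ℚ] ℚ :=
    { toFun := fun c => c a b
      map_add' := fun _ _ => rfl
      map_smul' := fun _ _ => rfl }
  exact mn_rank φ _ _ fun c hc h0 => (mn_ker h _ hel hc h0).1

/-- a chord seen above, with period zero -/
theorem mn_zero (h : Ar A x y) (he : ∃ a b, El A x y a b) {a b : F g} (hel : El A x y a b)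
    {c : F g → F g → ℚ} (hc : c ∈ ZZ (HH A x y h he) (HH A x y h he)) {u v : F g} (hu : u ∉ A.E.P)
    (huv : A.E.S u v) (hg : gs x y u v ≠ 0) (h0 : c u v = 0) : c a b = 0 := by
  rw [mem_ZE] at hc
  have hgab : gs x y a b ≠ 0 := by
    rcases el_gs h hel with h1 | h1 <;> rw [h1] <;> norm_num
  have key : c u v - c a b / gs x y a b * gs x y u v = 0 := by
    refine dual_zero h hel (c := fun p q => c p q - c a b / gs x y a b * gs x y p q) ?_ ?_ ?_ ?_ hu huv
    · intro p q r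
      show c p q - c a b / gs x y a b * gs x y p q + (c q r - c a b / gs x y a b * gs x y q r) =
        c p r - c a b / gs x y a b * gs x y p r
      rw [← hc.1.1 p q r, ← gs_add x y p q r]
      ring
    · intro k hk p q
      show c (k * p) (k * q) - c a b / gs x y a b * gs x y (k * p) (k * q) = _
      rw [hc.1.2.1 k hk, gs_K x y hk]
    · intro p q hpq
      show c p q - c a b / gs x y a b * gs x y p q = 0
      rw [hc.2 _ _ ((HH_high h he hpq.1).2 hpq), mn_rd h hpq]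
      ring
    · show c a b - c a b / gs x y a b * gs x y a b = 0
      rw [div_mul_cancel₀ _ hgab, sub_self]
  rw [h0, zero_sub, neg_eq_zero, mul_eq_zero] at key
  rcases key with key | key
  · rcases div_eq_zero_iff.1 key with h1 | h1
    · exact h1
    · exact absurd h1 hgab
  · exact absurd key hg

theorem mn_diff (h : Ar A x y) (he : ∃ a b, El A x y a b) (hne : gap A.E y x ∉ orbK (gap A.E x y)) :
    (fr (HH A x y h he)).card + 1 ≤ (fr A).card := by
  obtain ⟨a, b, hel⟩ := id he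
  obtain ⟨u, v, hu, huv, hg, hv⟩ := vis_diff h hne
  rw [← finrank_ZE, ← finrank_ZE]
  have hD : Ln A.E (gap A.E x y) := gap_ln h.px h.ns
  have hK := A.kg.kcut hD.1
  have hlt : ZZ (HH A x y h he) (HH A x y h he) < ZZ A A := by
    have h1 : ∀ c ∈ ZZ (HH A x y h he) (HH A x y h he), c ∈ ZZ A A ∧ c x y = 0 := by
      intro c hc
      refine mn_ker h he hel hc (mn_zero h he hel hc hu huv hg ?_)
      rw [hv]
      have hc1 := (mem_ZE.1 hc).1
      have hc2 := (mem_ZE.1 hc).2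
      obtain ⟨k, l, hkl, hk⟩ := hD.2
      have h1 := A.kg.orb_out hD.1 hkl 1
      rw [zpow_one] at h1
      rw [cc_per hc1 hK.ph_gn u k]
      exact hc2 _ _ ((le_HH h he).2 _ _ hk h1)
    refine lt_of_le_of_ne (fun c hc => (h1 c hc).1) fun heq => ?_
    have h2 : cq (gap A.E x y) ∈ ZZ (HH A x y h he) (HH A x y h he) := by
      rw [heq]
      exact cq_mem_ZE hD.1
    have h3 := (h1 _ h2).2
    rw [cq_arc h hne] at h3
    exact one_ne_zero h3
  exact Submodule.finrank_lt_finrank_of_lt hlt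

theorem mn_self (h : Ar A x y) (he : ∃ a b, El A x y a b) {k : F g} (hk : ph k = 0)
    (hg : gap A.E y x = tr k (gap A.E x y)) :
    finrank ℚ (ZZ A (HH A x y h he)) ≤ (fr (HH A x y h he)).card := by
  obtain ⟨a, b, hel⟩ := id he
  rw [← finrank_ZE]
  have hmem : gs (k⁻¹ * y) (k * (k⁻¹ * y)) ∈ ZZ (HH A x y h he) (HH A x y h he) := by
    refine self_mem h hk hg rfl (fun u v hu huv => (HH_high h he hu).1 huv) ?_
    intro c hc hc1 hc2 p q hp hpq
    have h1 := nf h hel ((HH_low h he hp).1 hpq)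
    clear hpq
    induction h1 with
    | refl => exact cc_self hc p
    | @tail q r _ hqr ih =>
      rw [← cc_add hc p q r, ih, zero_add]
      rcases hqr with hqr | ⟨m, hm, ⟨rfl, rfl⟩ | ⟨rfl, rfl⟩⟩
      · exact hc1 _ _ hqr.1 hqr.2
      · rw [cc_K hc hm, hc2]
      · rw [cc_K hc hm, cc_symm hc, hc2, neg_zero]
  refine finrank_mono ?_
  intro c hc
  have hcx : c x y = 0 := by
    have h0 : gs (k⁻¹ * y) (k * (k⁻¹ * y)) ∈ SS A (HH A x y h he) :=
      (le_sup_right.trans le_sup_left : ZZ (HH A x y h he) (HH A x y h he) ≤ SS A (HH A x y h he)) hmem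
    have h1 := (BB_SS bl h0 hc).2
    rw [BB_gs hc.1, mul_inv_cancel_left] at h1
    have h2 := hc.2.1 _ _ h.px (self_y0 h hk hg)
    rw [← cc_add hc.1 x (k⁻¹ * y) y, h2, h1, add_zero]
  refine ⟨hc.1, fun p q hp hpq => ?_, hc.2.2⟩
  have h1 := nf h hel ((HH_low h he hp).1 hpq)
  clear hpq
  induction h1 with
  | refl => exact cc_self hc.1 p
  | @tail q r _ hqr ih =>
    rw [← cc_add hc.1 p q r, ih, zero_add]
    rcases hqr with hqr | ⟨m, hm, ⟨rfl, rfl⟩ | ⟨rfl, rfl⟩⟩
    · exact hc.2.1 _ _ hqr.1 hqr.2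
    · rw [cc_K hc.1 hm, hcx]
    · rw [cc_K hc.1 hm, cc_symm hc.1, hcx, neg_zero]

/-- the pairing of the cochains of `A` with the cochains vanishing below `A` -/
theorem mn_BB {c' : F g → F g → ℚ} (hc' : c' ∈ ZZ A A) {c : F g → F g → ℚ} (hc : c ∈ CC g)
    (h : ∀ p q, p ∈ A.E.P → A.E.S p q → c p q = 0) : BB c' c = 0 := by
  let K : Submodule ℚ (F g → F g → ℚ) :=
    { carrier := {c' | FL c' ∧ BB c' c = 0}
      add_mem' := by
        rintro a b ⟨ha, ha'⟩ ⟨hb, hb'⟩
        refine ⟨ha.add hb, ?_⟩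
        rw [BB_add ha hb, ha', hb', add_zero]
      zero_mem' := ⟨FL.zero, BB_zero c⟩
      smul_mem' := by
        rintro r a ⟨ha, ha'⟩
        refine ⟨ha.smul r, ?_⟩
        rw [BB_smul, ha', mul_zero] }
  have key : ZZ A A ≤ K := by
    obtain ⟨D, hD, -, h2⟩ := bl A
    refine h2.trans (Submodule.span_le.2 ?_)
    rintro _ ⟨c1, rfl⟩
    have hK := A.kg.kcut (hD c1).1.1
    refine ⟨FL_ZZ (cq_mem_ZE (hD c1).1.1), ?_⟩
    show BB (cq (D c1)) c = 0
    obtain ⟨k, l, hkl, hk⟩ := (hD c1).1.2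
    have h1 := A.kg.orb_out (hD c1).1.1 hkl 1
    rw [zpow_one] at h1
    rw [BB_cq hK hc k]
    exact h _ _ hk h1
  exact (key hc').2

/-- an arc seen by a cochain is visible -/
theorem mn_vis (h : Ar A x y) {c : F g → F g → ℚ} (hc : c ∈ CC g)
    (hc' : ∀ p q, p ∈ A.E.P → A.E.S p q → c p q = 0) (hn : c x y ≠ 0) :
    ∃ a b, El A x y a b := by
  by_cases hg : gap A.E y x ∈ orbK (gap A.E x y)
  · obtain ⟨k, hk, hg⟩ := hg
    obtain ⟨u, v, hu, huv, h1⟩ := vis_self h hk hg (fun c' hc1 c2 hc2 h2 => mn_BB hc1 hc2 h2) hc hc' hn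
    exact ed_exists h hu huv h1
  · obtain ⟨u, v, hu, huv, h1, -⟩ := vis_diff h hg
    exact ed_exists h hu huv h1

/-- **the single arc lemma** -/
theorem s1 (g : ℕ) [NeZero g] : S1 g := by
  intro A B s hAB p1 p2 ns hB hC hF hf
  obtain ⟨f, hf, hfs⟩ := hf
  have h : Ar A s.1 s.2 := ⟨p1, p2, ns, hC, fun a b ha hab hcr => hF a b hab ha hcr⟩
  have he := mn_vis h hf.1 hf.2.1 hfs
  obtain ⟨a, b, hel⟩ := id he
  refine ⟨HH A s.1 s.2 h he, le_HH h he, HH_least h he hAB hB, rfl, HH_S h he,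
    fun Z h1 h2 => HH_least h he h1 h2, ?_, mn_count h he, ?_, ?_⟩
  · intro u v hu huv
    have h1 := nf h hel ((HH_low h he hu).1 huv)
    clear huv
    induction h1 with
    | refl => exact Relation.ReflTransGen.refl
    | @tail q r _ hqr ih =>
      refine Relation.ReflTransGen.tail ih ?_
      rcases hqr with hqr | hqr
      · exact Or.inl hqr.2
      · exact Or.inr hqr
  · by_cases hg : gap A.E s.2 s.1 ∈ orbK (gap A.E s.1 s.2)
    · obtain ⟨k, hk, hg⟩ := hg
      exact Or.inl (mn_self h he hk hg)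
    · exact Or.inr (mn_diff h he hg)
  · intro hne
    refine mn_diff h he ?_
    rintro ⟨k, hk, hg⟩
    exact hne k hk hg

end TorS
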